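import Mathlib
import Pool.Agent.TH618.YM.Coul
import Pool.Agent.TH618.YM.Form
import Pool.Agent.W793.YM.Rebase

/-!
# The Green function of the lattice
-/

open MeasureTheory Matrix Filter
open scoped ContDiff Topology ENNReal
open Pool.Agent.H906R3.YM hiding Pl
open Pool.Agent.W793.YM hiding rs
open Pool.Agent.TH618.YM

namespace Pool.Agent.Run7.h630.L

set_option linter.unusedSectionVars false
set_option linter.unusedVariables false

noncomputable section

variable {d : ℕ}

/-- the symbol of the Laplace operator -/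
def om (u : Fin d → ℝ) : ℝ := ∑ i, 2 * (1 - Real.cos (2 * Real.pi * u i))

/-- the symbol of the lazy walk -/
def pp (u : Fin d → ℝ) : ℝ := 1 - om u / (4 * d)

/-- the unit cube -/
def mu1 (d : ℕ) : Measure (Fin d → ℝ) :=
  volume.restrict (Set.pi Set.univ (fun _ : Fin d => Set.Icc (0 : ℝ) 1))

lemma nu_mu : (Measure.pi fun _ : Fin d => nu1) = mu1 d := by
  unfold nu1 mu1
  rw [← Measure.restrict_pi_pi]
  refine Measure.restrict_congr_set ?_
  have h2 := Measure.univ_pi_Ico_ae_eq_Icc (μ := fun _ : Fin d => (volume : Measure ℝ))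
    (f := fun _ => 0) (g := fun _ => 1)
  have h3 : Set.Icc (fun _ : Fin d => (0 : ℝ)) (fun _ => 1) =
      Set.pi Set.univ (fun _ : Fin d => Set.Icc (0 : ℝ) 1) := (Set.pi_univ_Icc _ _).symm
  rw [h3] at h2
  exact h2

instance : IsProbabilityMeasure (mu1 d) := by
  rw [← nu_mu]; infer_instance

lemma om_nonneg (u : Fin d → ℝ) : 0 ≤ om u := by
  unfold om
  refine Finset.sum_nonneg fun i _ => ?_
  have := Real.cos_le_one (2 * Real.pi * u i); linarith

lemma om_le (u : Fin d → ℝ) : om u ≤ 4 * d := by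
  unfold om
  refine (Finset.sum_le_sum fun i _ => (show 2 * (1 - Real.cos (2 * Real.pi * u i)) ≤ 4 by
    have := Real.neg_one_le_cos (2 * Real.pi * u i); linarith)).trans (le_of_eq ?_)
  simp; ring

lemma om_cont : Continuous (om : (Fin d → ℝ) → ℝ) := by
  unfold om
  refine continuous_finsetSum _ fun i _ => ?_
  exact continuous_const.mul (continuous_const.sub (Real.continuous_cos.comp
    (continuous_const.mul (continuous_apply i))))

lemma pp_cont : Continuous (pp : (Fin d → ℝ) → ℝ) := by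
  unfold pp
  exact continuous_const.sub (om_cont.div_const _)

lemma pp_nonneg (u : Fin d → ℝ) : 0 ≤ pp u := by
  unfold pp
  rcases Nat.eq_zero_or_pos d with h | h
  · subst h; simp
  · have hd : (0 : ℝ) < 4 * d := by
      have : (0 : ℝ) < d := by exact_mod_cast h
      linarith
    rw [sub_nonneg, div_le_one hd]
    exact om_le u

lemma pp_le (u : Fin d → ℝ) : pp u ≤ 1 := by
  unfold pp
  have := om_nonneg u
  have : 0 ≤ om u / (4 * d) := by positivity
  linarith

lemma om_pos_ae (hd : 0 < d) : ∀ᵐ u ∂(mu1 d), 0 < om u := by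
  obtain ⟨i, hi⟩ : ∃ i : Fin d, i = ⟨0, hd⟩ := ⟨_, rfl⟩
  have h0 : ∀ᵐ u ∂(mu1 d), u i ∈ Set.Ioo (0 : ℝ) 1 := by
    rw [← nu_mu]
    have h3 : ∀ᵐ v ∂nu1, v ∈ Set.Ioo (0 : ℝ) 1 := by
      unfold nu1
      rw [Measure.restrict_congr_set Ioo_ae_eq_Ico.symm]
      exact ae_restrict_mem measurableSet_Ioo
    exact (Measure.quasiMeasurePreserving_eval (μ := fun _ : Fin d => nu1) i).ae h3
  filter_upwards [h0] with u hu
  have h1 : 0 < 2 * (1 - Real.cos (2 * Real.pi * u i)) := by
    have h2 : Real.cos (2 * Real.pi * u i) < 1 := by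
      refine lt_of_le_of_ne (Real.cos_le_one _) fun h => ?_
      rw [Real.cos_eq_one_iff] at h
      obtain ⟨k, hk⟩ := h
      have h3 : (k : ℝ) = u i := by
        have : (k : ℝ) * (2 * Real.pi) = u i * (2 * Real.pi) := by rw [hk]; ring
        exact mul_right_cancel₀ (by positivity) this
      have h4 : (0 : ℝ) < k := by rw [h3]; exact hu.1
      have h5 : (k : ℝ) < 1 := by rw [h3]; exact hu.2
      have h6 : 0 < k := by exact_mod_cast h4
      have h7 : k < 1 := by exact_mod_cast h5
      omega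
    linarith
  unfold om
  refine lt_of_lt_of_le h1 (Finset.single_le_sum (f := fun i =>
    2 * (1 - Real.cos (2 * Real.pi * u i))) (fun i _ => ?_) (Finset.mem_univ i))
  have := Real.cos_le_one (2 * Real.pi * u i); linarith

section torus

variable {l : ℕ} [NeZero l]

lemma lm_pp (ξ : St d l) (hd : 0 < d) : lm ξ = pp (fun i => ((ξ i).val : ℝ) / l) := by
  have hd0 : (0 : ℝ) < d := by exact_mod_cast hd
  unfold lm pp om
  have h1 : ∀ i, (chi (ξ i)).re = Real.cos (2 * Real.pi * (((ξ i).val : ℝ) / l)) := by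
    intro i
    rw [chi_re]
    congr 1; ring
  simp only [h1]
  rw [← Finset.mul_sum, Finset.sum_sub_distrib, Finset.sum_const, Finset.card_univ,
    Fintype.card_fin, nsmul_eq_mul]
  field_simp
  ring

/-- sums over the dual torus as Riemann sums -/
lemma rs_sum (Φ : (Fin d → ℝ) → ℝ) :
    (1 / (l : ℝ) ^ d) * ∑ ξ : St d l, Φ (fun i => ((ξ i).val : ℝ) / l) = rs l Φ := by
  unfold rs
  congr 1
  have h1 := Equiv.sum_comp (Equiv.piCongrRight fun _ : Fin d => zf l)
    (fun ξ : Fin d → Fin l => Φ fun i => ((ξ i : ℕ) : ℝ) / l)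
  rw [← h1]
  rfl

end torus

/-- the heat kernel -/
lemma heat (hd : 0 < d) {k : ℕ} (hk : 1 ≤ k) :
    ∫ u, pp u ^ k ∂(mu1 d) ≤ ((2 + 2 * Real.sqrt (2 * d)) / Real.sqrt k) ^ d := by
  have h1 := rs_tendsto (d := d) (Φ := fun u => pp u ^ k) (pp_cont.pow k).measurable (B := 1)
    (fun u => by
      rw [abs_of_nonneg (pow_nonneg (pp_nonneg u) _)]
      exact pow_le_one₀ (pp_nonneg u) (pp_le u))
    (Filter.Eventually.of_forall fun u => (pp_cont.pow k).continuousAt)
  have h2 : ∀ l : ℕ, k ≤ l → rs l (fun u : Fin d → ℝ => pp u ^ k) ≤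
      ((2 + 2 * Real.sqrt (2 * d)) / Real.sqrt k) ^ d := by
    intro l hl
    have hl0 : NeZero l := ⟨by omega⟩
    rw [← rs_sum]
    obtain ⟨D, hD⟩ : ∃ D : St d l → ℝ, D = fun z => if z = 0 then 1 else 0 := ⟨_, rfl⟩
    have h3 := Plk_sup hd hk hl D 0
    have h4 : ∑ y, |D y| = 1 := by
      have e : ∀ y, |D y| = if y = 0 then 1 else 0 := fun y => by
        rw [hD]
        show |if y = 0 then (1 : ℝ) else 0| = _
        split_ifs
        · exact abs_one
        · exact abs_zero
      rw [Finset.sum_congr rfl fun y _ => e y, Finset.sum_ite_eq' Finset.univ,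
        if_pos (Finset.mem_univ _)]
    rw [h4, mul_one] at h3
    refine le_trans (le_of_eq ?_) ((le_abs_self _).trans h3)
    have h5 := Plk_eq hd k D 0
    have h6 : ∀ ξ : St d l, ∑ y, (D y : ℂ) * ch ξ (0 - y) = 1 := by
      intro ξ
      rw [hD, Finset.sum_eq_single 0]
      · have : ch ξ (0 - 0 : St d l) = 1 := by
          unfold ch
          refine Finset.prod_eq_one fun i _ => ?_
          rw [sub_zero, Pi.zero_apply, mul_zero]
          exact AddChar.map_zero_eq_one _
        rw [this]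
        simp
      · intro y _ hy
        simp [hy]
      · intro h; exact absurd (Finset.mem_univ _) h
    simp only [h6, mul_one] at h5
    have h7 : ((Plk k D 0 : ℝ) : ℂ) = (((1 / (l : ℝ) ^ d) * ∑ ξ : St d l, lm ξ ^ k : ℝ) : ℂ) := by
      rw [h5]
      push_cast
      rfl
    have h8 : Plk k D 0 = (1 / (l : ℝ) ^ d) * ∑ ξ : St d l, lm ξ ^ k := by exact_mod_cast h7
    rw [h8]
    congr 1
    exact Finset.sum_congr rfl fun ξ _ => by rw [lm_pp ξ hd]
  exact le_of_tendsto h1 (eventually_atTop.2 ⟨k, h2⟩)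

/-- the constant of the heat kernel -/
def ch0 (d : ℕ) : ℝ := (2 + 2 * Real.sqrt (2 * d)) ^ d

lemma ch0_pos (d : ℕ) : 0 < ch0 d := by unfold ch0; positivity

lemma heat3 (hd : 3 ≤ d) {k : ℕ} (hk : 1 ≤ k) :
    ∫ u, pp u ^ k ∂(mu1 d) ≤ ch0 d * (1 / Real.sqrt k ^ 3) := by
  refine (heat (by omega) hk).trans ?_
  rw [div_pow]
  unfold ch0
  rw [div_eq_mul_one_div]
  refine mul_le_mul_of_nonneg_left ?_ (by positivity)
  have h1 : 1 ≤ Real.sqrt k := by
    rw [Real.one_le_sqrt]; exact_mod_cast hk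
  exact one_div_le_one_div_of_le (by positivity) (pow_le_pow_right₀ h1 hd)

/-- the tail of the Green function, as an integral of a nonnegative function -/
lemma tail_lint (hd : 3 ≤ d) {K : ℕ} (hK : 1 ≤ K) :
    ∫⁻ u, ENNReal.ofReal (pp u ^ K / om u) ∂(mu1 d) ≤
      ENNReal.ofReal (2 * ch0 d / Real.sqrt K) := by
  have hd0 : 0 < d := by omega
  have hdr : (0 : ℝ) < d := by exact_mod_cast hd0
  have hd3 : (3 : ℝ) ≤ d := by exact_mod_cast hd
  have h1 : ∀ᵐ u ∂(mu1 d), ENNReal.ofReal (pp u ^ K / om u) =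
      ∑' k : ℕ, ENNReal.ofReal ((1 / (4 * d) : ℝ) * pp u ^ (K + k)) := by
    filter_upwards [om_pos_ae (d := d) hd0] with u hu
    have hp0 := pp_nonneg u
    have hp1 : pp u < 1 := by
      unfold pp
      have : 0 < om u / (4 * d) := by positivity
      linarith
    have h2 : HasSum (fun k : ℕ => (1 / (4 * d) : ℝ) * pp u ^ (K + k)) (pp u ^ K / om u) := by
      have h3 := (hasSum_geometric_of_lt_one hp0 hp1).mul_left ((1 / (4 * d) : ℝ) * pp u ^ K)
      have h4 : (1 / (4 * d) : ℝ) * pp u ^ K * (1 - pp u)⁻¹ = pp u ^ K / om u := by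
        have h5 : 1 - pp u = om u / (4 * d) := by unfold pp; ring
        rw [h5]
        field_simp
      rw [h4] at h3
      have h6 : (fun k : ℕ => (1 / (4 * d) : ℝ) * pp u ^ K * pp u ^ k) =
          fun k : ℕ => (1 / (4 * d) : ℝ) * pp u ^ (K + k) := by
        funext k
        rw [pow_add, mul_assoc]
      rwa [h6] at h3
    rw [← h2.tsum_eq, ENNReal.ofReal_tsum_of_nonneg (fun k => by positivity) h2.summable]
  have hmeas : ∀ k : ℕ, AEMeasurable (fun u : Fin d → ℝ =>
      ENNReal.ofReal ((1 / (4 * d) : ℝ) * pp u ^ (K + k))) (mu1 d) := fun k =>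
    ((pp_cont.measurable.pow_const (K + k)).const_mul (1 / (4 * d) : ℝ)).ennreal_ofReal.aemeasurable
  rw [lintegral_congr_ae h1, lintegral_tsum hmeas]
  refine ENNReal.tsum_le_of_sum_range_le fun m => ?_
  have h2 : ∀ k ∈ Finset.range m,
      ∫⁻ u, ENNReal.ofReal ((1 / (4 * d) : ℝ) * pp u ^ (K + k)) ∂(mu1 d) ≤
      ENNReal.ofReal ((1 / (4 * d) : ℝ) * (ch0 d * (1 / Real.sqrt (K + k : ℕ) ^ 3))) := by
    intro k _
    rw [← ofReal_integral_eq_lintegral_ofReal]
    · refine ENNReal.ofReal_le_ofReal ?_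
      rw [integral_const_mul]
      exact mul_le_mul_of_nonneg_left (heat3 hd (by omega)) (by positivity)
    · refine Integrable.mono' (integrable_const (1 / (4 * d) : ℝ))
        (continuous_const.mul (pp_cont.pow _)).aestronglyMeasurable
        (Filter.Eventually.of_forall fun u => ?_)
      rw [Real.norm_eq_abs, abs_of_nonneg (by have := pp_nonneg u; positivity)]
      have : pp u ^ (K + k) ≤ 1 := pow_le_one₀ (pp_nonneg u) (pp_le u)
      have h3 : (0 : ℝ) ≤ 1 / (4 * d) := by positivity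
      nlinarith
    · exact Filter.Eventually.of_forall fun u => by
        have := pp_nonneg u; positivity
  refine (Finset.sum_le_sum h2).trans ?_
  rw [← ENNReal.ofReal_sum_of_nonneg fun k _ => by
    have := ch0_pos d; positivity]
  refine ENNReal.ofReal_le_ofReal ?_
  rw [← Finset.mul_sum, ← Finset.mul_sum]
  have h3 : ∑ k ∈ Finset.range m, 1 / Real.sqrt (K + k : ℕ) ^ 3 ≤ 6 / Real.sqrt K := by
    have h4 := tail_sum hK (K + m)
    rw [Finset.sum_Ico_eq_sum_range] at h4
    have h5 : K + m - K = m := by omega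
    rw [h5] at h4
    exact h4
  have hc := ch0_pos d
  calc (1 / (4 * d) : ℝ) * (ch0 d * ∑ k ∈ Finset.range m, 1 / Real.sqrt (K + k : ℕ) ^ 3) ≤
      (1 / (4 * d) : ℝ) * (ch0 d * (6 / Real.sqrt K)) := by
        refine mul_le_mul_of_nonneg_left (mul_le_mul_of_nonneg_left h3 hc.le) (by positivity)
    _ ≤ (1 / 3 : ℝ) * (ch0 d * (6 / Real.sqrt K)) := by
        refine mul_le_mul_of_nonneg_right ?_ (by positivity)
        exact one_div_le_one_div_of_le (by norm_num) (by linarith)
    _ = _ := by ring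

/-- the truncated symbol of the Green function -/
def wK (d K : ℕ) (x : ℝ) : ℝ := (1 / (4 * d) : ℝ) * ∑ k ∈ Finset.range K, (x ^ k - x ^ (K + k))

lemma wK_cont (K : ℕ) : Continuous (wK d K) := by
  unfold wK
  exact continuous_const.mul (continuous_finsetSum _ fun k _ =>
    (continuous_pow k).sub (continuous_pow _))

lemma wK_om (hd : 0 < d) (K : ℕ) {u : Fin d → ℝ} (hu : 0 < om u) :
    wK d K (pp u) = (1 - pp u ^ K) ^ 2 / om u := by
  have hdr : (0 : ℝ) < d := by exact_mod_cast hd
  have h5 : om u = 4 * d * (1 - pp u) := by unfold pp; field_simp; ring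
  have h6 : 1 - pp u ≠ 0 := by
    intro h
    rw [h, mul_zero] at h5
    exact hu.ne' h5
  have h1 : ∑ k ∈ Finset.range K, (pp u ^ k - pp u ^ (K + k)) =
      (1 - pp u ^ K) * ∑ k ∈ Finset.range K, pp u ^ k := by
    rw [Finset.mul_sum]
    refine Finset.sum_congr rfl fun k _ => ?_
    rw [pow_add]; ring
  have h2 := mul_neg_geom_sum (pp u) K
  have h3 : ∑ k ∈ Finset.range K, pp u ^ k = (1 - pp u ^ K) / (1 - pp u) := by
    rw [eq_div_iff h6, mul_comm]
    exact h2
  unfold wK
  rw [h1, h3, h5]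
  field_simp

lemma wK_bd (hd : 0 < d) (K : ℕ) (u : Fin d → ℝ) : 0 ≤ wK d K (pp u) ∧ wK d K (pp u) ≤ K := by
  have hdr : (1 : ℝ) ≤ d := by exact_mod_cast hd
  have hp0 := pp_nonneg u
  have hp1 := pp_le u
  have h1 : ∀ k ∈ Finset.range K, 0 ≤ pp u ^ k - pp u ^ (K + k) := fun k _ => by
    rw [sub_nonneg]
    exact pow_le_pow_of_le_one hp0 hp1 (by omega)
  have h2 : ∀ k ∈ Finset.range K, pp u ^ k - pp u ^ (K + k) ≤ 1 := fun k _ => by
    have e1 : pp u ^ k ≤ 1 := pow_le_one₀ hp0 hp1
    have e2 : 0 ≤ pp u ^ (K + k) := by positivity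
    linarith
  unfold wK
  have h3 := Finset.sum_nonneg h1
  have h4 := Finset.sum_le_sum h2
  rw [Finset.sum_const, Finset.card_range, nsmul_eq_mul, mul_one] at h4
  have h5 : (1 / (4 * d) : ℝ) ≤ 1 := by
    rw [div_le_one (by linarith)]; linarith
  have h6 : (0 : ℝ) ≤ 1 / (4 * d) := by positivity
  refine ⟨mul_nonneg h6 h3, ?_⟩
  calc _ ≤ 1 * ∑ k ∈ Finset.range K, (pp u ^ k - pp u ^ (K + k)) :=
        mul_le_mul_of_nonneg_right h5 h3
    _ ≤ _ := by rw [one_mul]; exact h4

lemma wK_diff (hd : 0 < d) (K : ℕ) {u : Fin d → ℝ} (hu : 0 < om u) :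
    |wK d K (pp u) - 1 / om u| ≤ 2 * (pp u ^ K / om u) := by
  rw [wK_om hd K hu]
  have hp0 := pp_nonneg u
  have hp1 := pp_le u
  have h1 : 0 ≤ pp u ^ K := by positivity
  have h2 : pp u ^ K ≤ 1 := pow_le_one₀ hp0 hp1
  have h3 : (1 - pp u ^ K) ^ 2 / om u - 1 / om u = -((2 - pp u ^ K) * pp u ^ K / om u) := by
    field_simp
    ring
  rw [h3, abs_neg, abs_of_nonneg (div_nonneg (mul_nonneg (by linarith) h1) hu.le),
    ← mul_div_assoc]
  refine div_le_div_of_nonneg_right ?_ hu.le
  nlinarith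

lemma tail_meas (K : ℕ) : Measurable fun u : Fin d → ℝ => pp u ^ K / om u :=
  (pp_cont.measurable.pow_const K).div om_cont.measurable

lemma tail_nonneg (K : ℕ) (u : Fin d → ℝ) : 0 ≤ pp u ^ K / om u :=
  div_nonneg (pow_nonneg (pp_nonneg u) _) (om_nonneg u)

lemma tail_int (hd : 3 ≤ d) {K : ℕ} (hK : 1 ≤ K) :
    Integrable (fun u : Fin d → ℝ => pp u ^ K / om u) (mu1 d) ∧
      ∫ u, pp u ^ K / om u ∂(mu1 d) ≤ 2 * ch0 d / Real.sqrt K := by
  have h1 := tail_lint hd hK
  have hc := ch0_pos d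
  have h2 : Integrable (fun u : Fin d → ℝ => pp u ^ K / om u) (mu1 d) := by
    refine ⟨(tail_meas K).aestronglyMeasurable, ?_⟩
    rw [hasFiniteIntegral_iff_ofReal (Filter.Eventually.of_forall fun u => tail_nonneg K u)]
    exact lt_of_le_of_lt h1 ENNReal.ofReal_lt_top
  refine ⟨h2, ?_⟩
  rw [integral_eq_lintegral_of_nonneg_ae (Filter.Eventually.of_forall fun u => tail_nonneg K u)
    (tail_meas K).aestronglyMeasurable]
  refine ENNReal.toReal_le_of_le_ofReal (by positivity) h1

/-- the Green function is finite in dimension at least three -/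
lemma inv_int (hd : 3 ≤ d) : Integrable (fun u : Fin d → ℝ => 1 / om u) (mu1 d) := by
  have hd0 : 0 < d := by omega
  have hdr : (0 : ℝ) < d := by exact_mod_cast hd0
  have h1 := (tail_int hd le_rfl).1
  have h2 : Integrable (fun u : Fin d → ℝ => (1 / (4 * d) : ℝ) + pp u ^ 1 / om u) (mu1 d) :=
    (integrable_const _).add h1
  refine h2.congr ?_
  filter_upwards [om_pos_ae (d := d) hd0] with u hu
  have h5 : om u = 4 * d * (1 - pp u) := by unfold pp; field_simp; ring
  rw [pow_one]
  have h6 : pp u = 1 - om u / (4 * d) := rfl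
  rw [h6]
  field_simp
  ring

/-! ### currents -/

/-- the phase -/
def ph (z : Fin d → ℤ) (u : Fin d → ℝ) : ℂ :=
  Complex.exp ((2 * Real.pi * ∑ i, (z i : ℝ) * u i : ℝ) * Complex.I)

lemma ph_norm (z : Fin d → ℤ) (u : Fin d → ℝ) : ‖ph z u‖ = 1 := Complex.norm_exp_ofReal_mul_I _

lemma ph_cont (z : Fin d → ℤ) : Continuous (ph z : (Fin d → ℝ) → ℂ) := by
  unfold ph
  refine Complex.continuous_exp.comp ((Complex.continuous_ofReal.comp ?_).mul continuous_const)
  exact continuous_const.mul (continuous_finsetSum _ fun i _ =>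
    continuous_const.mul (continuous_apply i))

/-- the Fourier transform of the current of a path -/
def cF : (Fin d → ℤ) → List (Fin d × Bool) → Fin d → (Fin d → ℝ) → ℂ
  | _, [], _, _ => 0
  | x, (i, true) :: p, k, u => (if k = i then ph x u else 0) + cF (x + Pi.single i 1) p k u
  | x, (i, false) :: p, k, u => -(if k = i then ph (x - Pi.single i 1) u else 0) +
      cF (x - Pi.single i 1) p k u

lemma cF_cont (x : Fin d → ℤ) (p : List (Fin d × Bool)) (k : Fin d) :
    Continuous (cF x p k : (Fin d → ℝ) → ℂ) := by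
  induction p generalizing x with
  | nil => exact continuous_const
  | cons s p ih =>
    obtain ⟨i, s⟩ := s
    have h : ∀ z : Fin d → ℤ, Continuous fun u : Fin d → ℝ => if k = i then ph z u else 0 := by
      intro z
      split_ifs
      · exact ph_cont z
      · exact continuous_const
    cases s with
    | true => exact (h _).add (ih _)
    | false => exact (h _).neg.add (ih _)

lemma cF_norm (x : Fin d → ℤ) (p : List (Fin d × Bool)) (u : Fin d → ℝ) :
    ∑ k, ‖cF x p k u‖ ≤ p.length := by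
  induction p generalizing x with
  | nil => simp [cF]
  | cons s p ih =>
    obtain ⟨i, s⟩ := s
    have hlen : ((((i, s) :: p).length : ℕ) : ℝ) = 1 + (p.length : ℝ) := by
      rw [List.length_cons]; push_cast; ring
    have h : ∀ z : Fin d → ℤ, ∑ k, ‖if k = i then ph z u else 0‖ = 1 := by
      intro z
      have e : ∀ k : Fin d, ‖if k = i then ph z u else 0‖ = if k = i then 1 else 0 := fun k => by
        split_ifs
        · exact ph_norm z u
        · exact norm_zero
      rw [Finset.sum_congr rfl fun k _ => e k, Finset.sum_ite_eq' Finset.univ,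
        if_pos (Finset.mem_univ _)]
    rw [hlen]
    cases s with
    | true =>
      refine (Finset.sum_le_sum fun k _ => norm_add_le _ _).trans ?_
      rw [Finset.sum_add_distrib, h]
      exact add_le_add le_rfl (ih _)
    | false =>
      refine (Finset.sum_le_sum fun k _ => norm_add_le _ _).trans ?_
      simp only [norm_neg]
      rw [Finset.sum_add_distrib, h]
      exact add_le_add le_rfl (ih _)

section tor

variable {l : ℕ} [NeZero l]

lemma chi_int (t : ZMod l) (z : ℤ) :
    chi (t * (z : ZMod l)) = Complex.exp ((2 * Real.pi * (z * ((t.val : ℝ) / l)) : ℝ) * Complex.I) := by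
  have h1 : t * (z : ZMod l) = (((t.val : ℤ) * z : ℤ) : ZMod l) := by
    push_cast
    rw [ZMod.natCast_zmod_val]
  unfold chi
  rw [h1, ZMod.stdAddChar_coe]
  congr 1
  push_cast
  ring

lemma ch_zt (ξ : St d l) (z : Fin d → ℤ) :
    ch ξ (zt l z) = ph z (fun i => ((ξ i).val : ℝ) / l) := by
  unfold ch ph zt
  simp only [chi_int]
  rw [← Complex.exp_sum, ← Finset.sum_mul]
  congr 2
  rw [Finset.mul_sum]
  push_cast
  rfl

end tor

end

end Pool.Agent.Run7.h630.L
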