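import Mathlib
import Pool.Agent.TH618.YM.Pot
import Pool.Agent.W793.YM.Rebase

/-!
# Spanning surfaces of lattice paths
-/

open MeasureTheory Matrix Filter
open scoped Matrix.Norms.Frobenius ContDiff Topology
open Pool.Agent.H906R3.YM hiding Pl
open Pool.Agent.W793.YM Pool.Agent.TH618.YM

namespace Pool.Agent.Run7.h630.L

set_option linter.unusedSectionVars false
set_option linter.unusedVariables false

noncomputable section

variable {d l : ℕ} [NeZero l]

/-- the coordinates smaller than `t` replaced by those of `o` -/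
def cz (o x : Fin d → ℤ) (t : ℕ) : Fin d → ℤ := fun i => if (i : ℕ) < t then o i else x i

/-- the number of steps in the direction `j` -/
def nz (o x : Fin d → ℤ) (j : Fin d) : ℕ := (x j - o j).toNat

lemma cz_zero (o x : Fin d → ℤ) : cz o x 0 = x := by
  funext i; simp [cz]

lemma zt_nsmul (x : Fin d → ℤ) (i : Fin d) (k : ℕ) :
    zt l (x + Pi.single i (k : ℤ)) = zt l x + k • eT i := by
  funext j
  unfold zt eT
  by_cases h : j = i
  · subst h; simp
  · simp [h]

lemma cz_succ {o x : Fin d → ℤ} {j : Fin d} (h : o j ≤ x j) :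
    cz o x j = cz o x (j + 1) + Pi.single j (nz o x j : ℤ) := by
  funext i
  unfold cz nz
  by_cases hi : i = j
  · subst hi
    simp only [lt_irrefl, if_false, Pi.add_apply, Nat.lt_succ_self, if_true, Pi.single_eq_same]
    omega
  · have h1 : ((i : ℕ) < j) ↔ ((i : ℕ) < j + 1) := by
      have : (i : ℕ) ≠ j := fun h2 => hi (Fin.ext h2)
      omega
    simp [hi, h1]

lemma cz_add_lt {o x : Fin d → ℤ} {k : Fin d} {t : ℕ} (h : t ≤ (k : ℕ)) :
    cz o (x + Pi.single k 1) t = cz o x t + Pi.single k 1 := by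
  funext i
  unfold cz
  by_cases hi : i = k
  · subst hi
    simp [show ¬((i : ℕ) < t) by omega]
  · simp [hi]

lemma cz_add_ge {o x : Fin d → ℤ} {k : Fin d} {t : ℕ} (h : (k : ℕ) < t) :
    cz o (x + Pi.single k 1) t = cz o x t := by
  funext i
  unfold cz
  by_cases hi : i = k
  · subst hi
    simp [h]
  · simp [hi]

lemma nz_add_ne {o x : Fin d → ℤ} {j k : Fin d} (h : j ≠ k) :
    nz o (x + Pi.single k 1) j = nz o x j := by
  unfold nz
  simp [h]

lemma nz_add {o x : Fin d → ℤ} {k : Fin d} (h : o k ≤ x k) :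
    nz o (x + Pi.single k 1) k = nz o x k + 1 := by
  unfold nz
  simp only [Pi.add_apply, Pi.single_eq_same]
  omega

/-- the delta function -/
def dlt (y : St d l) : St d l → ℝ := fun z => if z = y then 1 else 0

lemma sgI_one (y : St d l) (k : Fin d) : sgI y k 1 = dlt y := by
  funext z
  unfold sgI dlt
  rw [Finset.sum_range_one, zero_smul, add_zero]

lemma sgI_succ (y : St d l) (k : Fin d) (q : ℕ) :
    sgI y k (q + 1) = sgI y k q + dlt (y + q • eT k) := by
  funext z
  unfold sgI dlt
  rw [Pi.add_apply, Finset.sum_range_succ]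

variable (l) in
/-- the comb from `o` to `x` -/
def cb (o x : Fin d → ℤ) : Fin d → St d l → ℝ := fun k' =>
  sgI (zt l (cz o x (k' + 1))) k' (nz o x k')

variable (l) in
/-- the surface between a link and the combs of its end points -/
def hc (o x : Fin d → ℤ) (k : Fin d) : Fm d l := ∑ j, if j < k then
  rc2 (zt l (cz o x (j + 1))) j k (nz o x j) 1 else 0

variable (l) in
/-- the current of one link -/
def dk1 (x : Fin d → ℤ) (k : Fin d) : Fin d → St d l → ℝ := fun k' =>
  if k' = k then dlt (zt l x) else 0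

lemma ds2_add (f g : Fm d l) (k : Fin d) : ds2 (f + g) k = ds2 f k + ds2 g k := by
  unfold ds2
  rw [← Finset.sum_add_distrib]
  exact Finset.sum_congr rfl fun j _ => Dm_add _ _ _

lemma ds2_neg (f : Fm d l) (k : Fin d) : ds2 (-f) k = -ds2 f k := by
  unfold ds2
  rw [← Finset.sum_neg_distrib]
  exact Finset.sum_congr rfl fun j _ => Dm_neg _ _

lemma ds2_smul (c : ℝ) (f : Fm d l) (k : Fin d) : ds2 (c • f) k = c • ds2 f k := by
  unfold ds2
  rw [Finset.smul_sum]
  exact Finset.sum_congr rfl fun j _ => Dm_smul _ _ _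

lemma ds2_zero (k : Fin d) : ds2 (0 : Fm d l) k = 0 := by
  unfold ds2
  exact Finset.sum_eq_zero fun j _ => Dm_zero_fun _

lemma ds2_sum {ι : Type*} (s : Finset ι) (f : ι → Fm d l) (k : Fin d) :
    ds2 (∑ i ∈ s, f i) k = ∑ i ∈ s, ds2 (f i) k := by
  classical
  induction s using Finset.induction_on with
  | empty => rw [Finset.sum_empty, Finset.sum_empty, ds2_zero]
  | insert a s ha ih => rw [Finset.sum_insert ha, Finset.sum_insert ha, ds2_add, ih]

lemma ds2_rc2' {x : St d l} {i j : Fin d} (hij : i ≠ j) (q : ℕ) (k : Fin d) :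
    ds2 (rc2 x i j q 1) k = (if k = j then dlt (x + q • eT i) - dlt x else 0) -
      (if k = i then sgI (x + eT j) i q - sgI x i q else 0) := by
  rw [ds2_rc2 hij, Dm_rcI, sgI_one, sgI_one, Dm_neg, rcI_swap x i j q 1, Dm_rcI, one_nsmul]
  by_cases h : k = i
  · rw [if_pos h, if_pos h]; abel
  · rw [if_neg h, if_neg h]; abel

lemma tele_fin {A : Type*} [AddCommGroup A] (k : Fin d) (F : ℕ → A) :
    (∑ j : Fin d, if j < k then F j - F (j + 1) else 0) = F 0 - F k := by
  have h1 : (∑ j : Fin d, if j < k then F j - F (j + 1) else 0) =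
      ∑ j ∈ Finset.range d, if j < k then F j - F (j + 1) else 0 := by
    rw [Finset.sum_range]
    refine Finset.sum_congr rfl fun j _ => ?_
    by_cases h : j < k
    · rw [if_pos h, if_pos (show (j : ℕ) < k from h)]
    · rw [if_neg h, if_neg (show ¬(j : ℕ) < k from h)]
  rw [h1, ← Finset.sum_filter]
  have h2 : (Finset.range d).filter (fun j => j < (k : ℕ)) = Finset.range k := by
    ext j
    simp only [Finset.mem_filter, Finset.mem_range]
    have := k.2
    omega
  rw [h2, Finset.sum_range_sub']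

/-- the boundary of the surface of one link -/
lemma ds2_hc {o x : Fin d → ℤ} (h : ∀ i, o i ≤ x i) (k k' : Fin d) :
    ds2 (hc l o x k) k' = dk1 l x k k' + cb l o x k' - cb l o (x + Pi.single k 1) k' := by
  unfold hc
  rw [ds2_sum]
  have h1 : ∀ j : Fin d, ds2 (if j < k then rc2 (zt l (cz o x (j + 1))) j k (nz o x j) 1
      else (0 : Fm d l)) k' = (if k' = k then (if j < k then
        (fun t : ℕ => dlt (zt l (cz o x t))) j - (fun t : ℕ => dlt (zt l (cz o x t))) (j + 1)
        else 0) else 0) -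
      (if j = k' then (if j < k then sgI (zt l (cz o x (j + 1)) + eT k) j (nz o x j) -
        sgI (zt l (cz o x (j + 1))) j (nz o x j) else 0) else (0 : St d l → ℝ)) := by
    intro j
    by_cases hj : j < k
    · rw [if_pos hj, ds2_rc2' hj.ne, if_pos hj, if_pos hj]
      have h2 : zt l (cz o x (j + 1)) + (nz o x j) • eT j = zt l (cz o x j) := by
        rw [cz_succ (h j), zt_nsmul]
      rw [h2]
      by_cases h3 : k' = j
      · subst h3
        simp
      · have h4 : ¬(j = k') := fun h => h3 h.symm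
        rw [if_neg h3, if_neg h4]
    · rw [if_neg hj, ds2_zero, if_neg hj, if_neg hj]
      simp
  rw [Finset.sum_congr rfl fun j _ => h1 j, Finset.sum_sub_distrib]
  have h5 : (∑ j : Fin d, if k' = k then (if j < k then
      (fun t : ℕ => dlt (zt l (cz o x t))) j - (fun t : ℕ => dlt (zt l (cz o x t))) (j + 1)
      else 0) else (0 : St d l → ℝ)) =
      if k' = k then dlt (zt l x) - dlt (zt l (cz o x k)) else 0 := by
    by_cases h6 : k' = k
    · simp only [if_pos h6]
      rw [tele_fin k (fun t : ℕ => dlt (zt l (cz o x t))), cz_zero]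
    · simp only [if_neg h6, Finset.sum_const_zero]
  rw [h5, Finset.sum_ite_eq' Finset.univ k', if_pos (Finset.mem_univ _)]
  unfold dk1 cb
  rcases lt_trichotomy k' k with h6 | h6 | h6
  · rw [if_neg h6.ne, if_pos h6, if_neg h6.ne, cz_add_lt (show (k' : ℕ) + 1 ≤ k from h6), zt_add,
      nz_add_ne h6.ne]
    abel
  · subst h6
    rw [if_pos rfl, if_pos rfl, if_neg (lt_irrefl _), cz_add_ge (Nat.lt_succ_self _),
      nz_add (h k'), sgI_succ]
    have h2 : zt l (cz o x (k' + 1)) + (nz o x k') • eT k' = zt l (cz o x k') := by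
      rw [cz_succ (h k'), zt_nsmul]
    rw [h2]
    abel
  · rw [if_neg h6.ne', if_neg (not_lt.2 h6.le), if_neg h6.ne',
      cz_add_ge (show (k : ℕ) < k' + 1 by have : (k : ℕ) < k' := h6; omega), nz_add_ne h6.ne']
    abel

variable (l) in
/-- the current of a path -/
def cu : (Fin d → ℤ) → List (Fin d × Bool) → Fin d → St d l → ℝ
  | _, [] => 0
  | x, (i, true) :: p => dk1 l x i + cu (x + Pi.single i 1) p
  | x, (i, false) :: p => -dk1 l (x - Pi.single i 1) i + cu (x - Pi.single i 1) p

variable (l) in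
/-- the surface of a path -/
def su (o : Fin d → ℤ) : (Fin d → ℤ) → List (Fin d × Bool) → Fm d l
  | _, [] => 0
  | x, (i, true) :: p => hc l o x i + su o (x + Pi.single i 1) p
  | x, (i, false) :: p => -hc l o (x - Pi.single i 1) i + su o (x - Pi.single i 1) p

/-- all the vertices of the path lie in the box -/
def InB (o : Fin d → ℤ) (B : ℕ) : (Fin d → ℤ) → List (Fin d × Bool) → Prop
  | x, [] => ∀ i, o i ≤ x i ∧ x i ≤ o i + B
  | x, (i, true) :: p => (∀ i, o i ≤ x i ∧ x i ≤ o i + B) ∧ InB o B (x + Pi.single i 1) p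
  | x, (i, false) :: p => (∀ i, o i ≤ x i ∧ x i ≤ o i + B) ∧ InB o B (x - Pi.single i 1) p

lemma InB.start {o : Fin d → ℤ} {B : ℕ} {x : Fin d → ℤ} {p : List (Fin d × Bool)}
    (h : InB o B x p) : ∀ i, o i ≤ x i ∧ x i ≤ o i + B := by
  cases p with
  | nil => exact h
  | cons s p =>
    obtain ⟨i, s⟩ := s
    cases s
    · exact h.1
    · exact h.1

/-- the boundary of the surface of a path -/
lemma ds2_su {o : Fin d → ℤ} {B : ℕ} (p : List (Fin d × Bool)) (x : Fin d → ℤ)
    (h : InB o B x p) (k' : Fin d) :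
    ds2 (su l o x p) k' = cu l x p k' + cb l o x k' - cb l o (dest x p) k' := by
  induction p generalizing x with
  | nil =>
    simp only [su, cu, dest]
    rw [ds2_zero, Pi.zero_apply]; abel
  | cons s p ih =>
    obtain ⟨i, s⟩ := s
    cases s with
    | true =>
      simp only [su, cu, dest]
      rw [ds2_add, ih _ h.2, ds2_hc fun i => (h.1 i).1, Pi.add_apply]
      abel
    | false =>
      simp only [su, cu, dest]
      have h1 := ds2_hc (l := l) (o := o) (x := x - Pi.single i 1) (fun i' => (h.2.start i').1) i k'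
      rw [sub_add_cancel] at h1
      rw [ds2_add, ih _ h.2, ds2_neg, h1, Pi.add_apply, Pi.neg_apply]
      abel

lemma asy_add {f g : Fm d l} (hf : Asy f) (hg : Asy g) : Asy (f + g) := fun j k => by
  show f j k + g j k = -(f k j + g k j)
  rw [hf j k, hg j k]; abel

lemma asy_neg {f : Fm d l} (hf : Asy f) : Asy (-f) := fun j k => by
  show -(f j k) = -(-(f k j))
  rw [hf j k]

lemma asy_zero : Asy (0 : Fm d l) := fun j k => by
  show (0 : St d l → ℝ) = -0
  rw [neg_zero]

lemma asy_sum {ι : Type*} (s : Finset ι) {f : ι → Fm d l} (hf : ∀ i, Asy (f i)) :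
    Asy (∑ i ∈ s, f i) := by
  classical
  induction s using Finset.induction_on with
  | empty => rw [Finset.sum_empty]; exact asy_zero
  | insert a s ha ih => rw [Finset.sum_insert ha]; exact asy_add (hf a) ih

lemma asy_hc (o x : Fin d → ℤ) (k : Fin d) : Asy (hc l o x k) := by
  unfold hc
  refine asy_sum _ fun j => ?_
  split_ifs
  · exact rc2_asy _ _ _ _ _
  · exact asy_zero

lemma asy_su (o : Fin d → ℤ) (p : List (Fin d × Bool)) (x : Fin d → ℤ) : Asy (su l o x p) := by
  induction p generalizing x with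
  | nil => exact asy_zero
  | cons s p ih =>
    obtain ⟨i, s⟩ := s
    cases s with
    | true => exact asy_add (asy_hc _ _ _) (ih _)
    | false => exact asy_add (asy_neg (asy_hc _ _ _)) (ih _)

/-- the norm of one form -/
def n1 (f : Fm d l) : ℝ := ∑ j, ∑ k, ∑ z, |f j k z|

lemma n1_nonneg (f : Fm d l) : 0 ≤ n1 f := by unfold n1; positivity

lemma n1_add (f g : Fm d l) : n1 (f + g) ≤ n1 f + n1 g := by
  unfold n1
  simp only [← Finset.sum_add_distrib]
  exact Finset.sum_le_sum fun j _ => Finset.sum_le_sum fun k _ => Finset.sum_le_sum fun z _ =>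
    abs_add_le _ _

lemma n1_neg (f : Fm d l) : n1 (-f) = n1 f := by
  unfold n1
  refine Finset.sum_congr rfl fun j _ => Finset.sum_congr rfl fun k _ =>
    Finset.sum_congr rfl fun z _ => ?_
  exact abs_neg _

lemma n1_zero : n1 (0 : Fm d l) = 0 := by
  unfold n1
  simp

lemma n1_sum {ι : Type*} (s : Finset ι) (f : ι → Fm d l) :
    n1 (∑ i ∈ s, f i) ≤ ∑ i ∈ s, n1 (f i) := by
  classical
  induction s using Finset.induction_on with
  | empty => rw [Finset.sum_empty, Finset.sum_empty, n1_zero]
  | insert a s ha ih =>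
    rw [Finset.sum_insert ha, Finset.sum_insert ha]
    exact (n1_add _ _).trans (add_le_add le_rfl ih)

lemma n1_rc2 (x : St d l) (i j : Fin d) (R T : ℕ) : n1 (rc2 x i j R T) ≤ 2 * ((R : ℝ) * T) := by
  unfold n1
  refine (Finset.sum_le_sum fun j' _ => Finset.sum_le_sum fun k' _ => Finset.sum_le_sum fun z _ =>
    rc2_abs x i j R T j' k' z).trans (le_of_eq ?_)
  have h3 : ∑ z, rcI x i j R T z = (R : ℝ) * T := by
    rw [← sum_rcI x i j R T]
    exact Finset.sum_congr rfl fun z _ => (abs_of_nonneg (rcI_nonneg _ _ _ _ _ _)).symm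
  have h4 : ∀ (u v : Fin d), ∑ j' : Fin d, ∑ k' : Fin d, ∑ z : St d l,
      (if j' = u ∧ k' = v then rcI x i j R T z else 0) = (R : ℝ) * T := by
    intro u v
    have e1 : ∀ j' k' : Fin d, ∑ z : St d l,
        (if j' = u ∧ k' = v then rcI x i j R T z else 0) =
        if j' = u then (if k' = v then (R : ℝ) * T else 0) else 0 := by
      intro j' k'
      by_cases a1 : j' = u
      · by_cases a2 : k' = v
        · simp only [a1, a2, and_self, if_true]; exact h3
        · simp [a2]
      · simp [a1]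
    simp only [e1]
    rw [Finset.sum_comm]
    simp
  simp only [Finset.sum_add_distrib]
  rw [h4, h4]; ring

lemma n1_hc {o x : Fin d → ℤ} {B : ℕ} (h : ∀ i, x i ≤ o i + B) (k : Fin d) :
    n1 (hc l o x k) ≤ 2 * (d * B) := by
  unfold hc
  refine (n1_sum _ _).trans ?_
  have h1 : ∀ j : Fin d, n1 (if j < k then rc2 (zt l (cz o x (j + 1))) j k (nz o x j) 1
      else (0 : Fm d l)) ≤ 2 * B := by
    intro j
    split_ifs
    · refine (n1_rc2 _ _ _ _ _).trans ?_
      have h2 : nz o x j ≤ B := by unfold nz; have := h j; omega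
      have h3 : (nz o x j : ℝ) ≤ B := by exact_mod_cast h2
      rw [Nat.cast_one, mul_one]
      linarith
    · rw [n1_zero]; positivity
  refine (Finset.sum_le_sum fun j _ => h1 j).trans (le_of_eq ?_)
  rw [Finset.sum_const, Finset.card_univ, Fintype.card_fin, nsmul_eq_mul]; ring

lemma n1_su {o : Fin d → ℤ} {B : ℕ} (p : List (Fin d × Bool)) (x : Fin d → ℤ)
    (h : InB o B x p) : n1 (su l o x p) ≤ p.length * (2 * (d * B)) := by
  induction p generalizing x with
  | nil =>
    show n1 (0 : Fm d l) ≤ _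
    rw [n1_zero]; simp
  | cons s p ih =>
    obtain ⟨i, s⟩ := s
    have hlen : ((((i, s) :: p).length : ℕ) : ℝ) = (p.length : ℝ) + 1 := by simp
    rw [hlen, add_mul, one_mul, add_comm]
    cases s with
    | true =>
      refine (n1_add _ _).trans (add_le_add (n1_hc (fun i => (h.1 i).2) i) (ih _ h.2))
    | false =>
      refine (n1_add _ _).trans (add_le_add ?_ (ih _ h.2))
      rw [n1_neg]
      exact n1_hc (fun i => (h.2.start i).2) _

end

end Pool.Agent.Run7.h630.L
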