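import Mathlib
import Pool.Agent.Run7.h630.L.Surf

/-!
# Holonomies to first order
-/

open MeasureTheory Matrix Filter
open scoped Matrix.Norms.Frobenius ContDiff Topology
open Pool.Agent.H906R3.YM hiding Pl
open Pool.Agent.W793.YM Pool.Agent.TH618.YM

namespace Pool.Agent.Run7.h630.L

set_option linter.unusedSectionVars false
set_option linter.unusedVariables false

noncomputable section

section supp

variable {d l : ℕ} [NeZero l]

lemma rc2_ne {x : St d l} {i j : Fin d} {q : ℕ} {j' k' : Fin d} {z : St d l}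
    (h : rc2 x i j q 1 j' k' z ≠ 0) : ∃ r < q, z = x + r • eT i := by
  have h1 : rcI x i j q 1 z ≠ 0 := by
    intro h0
    refine h ?_
    unfold rc2
    rw [Pi.sub_apply]
    split_ifs <;> simp [h0]
  unfold rcI at h1
  obtain ⟨r, hr, h2⟩ := Finset.exists_ne_zero_of_sum_ne_zero h1
  obtain ⟨s, hs, h3⟩ := Finset.exists_ne_zero_of_sum_ne_zero h2
  have hs0 : s = 0 := by
    have := Finset.mem_range.1 hs; omega
  refine ⟨r, Finset.mem_range.1 hr, ?_⟩
  by_contra h4
  refine h3 (if_neg fun h5 => h4 ?_)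
  rw [h5, hs0, zero_smul, add_zero]

lemma hc_supp {o x : Fin d → ℤ} {B : ℕ} (h : ∀ i, o i ≤ x i ∧ x i ≤ o i + B) {k : Fin d}
    {j' k' : Fin d} {z : St d l} (hz : hc l o x k j' k' z ≠ 0) :
    ∃ y : Fin d → ℤ, (∀ i, o i ≤ y i ∧ y i ≤ o i + B) ∧ z = zt l y := by
  unfold hc at hz
  rw [Finset.sum_apply, Finset.sum_apply, Finset.sum_apply] at hz
  obtain ⟨j, -, h1⟩ := Finset.exists_ne_zero_of_sum_ne_zero hz
  by_cases hj : j < k
  · rw [if_pos hj] at h1
    obtain ⟨r, hr, h2⟩ := rc2_ne h1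
    refine ⟨cz o x (j + 1) + Pi.single j (r : ℤ), fun i => ?_, by rw [h2, zt_nsmul]⟩
    have e1 : (nz o x j : ℤ) = x j - o j := by
      unfold nz; rw [Int.toNat_of_nonneg]; have := (h j).1; omega
    by_cases hi : i = j
    · subst hi
      have e2 : cz o x (i + 1) i = o i := by unfold cz; simp
      rw [Pi.add_apply, Pi.single_eq_same, e2]
      have e3 : (r : ℤ) < nz o x i := by exact_mod_cast hr
      have e4 := h i
      omega
    · rw [Pi.add_apply, Pi.single_eq_of_ne hi, add_zero]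
      unfold cz
      split_ifs
      · omega
      · exact h i
  · rw [if_neg hj] at h1
    exact absurd rfl h1

lemma su_supp {o : Fin d → ℤ} {B : ℕ} (p : List (Fin d × Bool)) (x : Fin d → ℤ)
    (h : InB o B x p) {j' k' : Fin d} {z : St d l} (hz : su l o x p j' k' z ≠ 0) :
    ∃ y : Fin d → ℤ, (∀ i, o i ≤ y i ∧ y i ≤ o i + B) ∧ z = zt l y := by
  induction p generalizing x with
  | nil => exact absurd rfl hz
  | cons s p ih =>
    obtain ⟨i, s⟩ := s
    cases s with
    | true =>
      have h1 : hc l o x i j' k' z + su l o (x + Pi.single i 1) p j' k' z ≠ 0 := hz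
      by_cases h2 : hc l o x i j' k' z = 0
      · rw [h2, zero_add] at h1
        exact ih _ h.2 h1
      · exact hc_supp h.1 h2
    | false =>
      have h1 : -hc l o (x - Pi.single i 1) i j' k' z +
        su l o (x - Pi.single i 1) p j' k' z ≠ 0 := hz
      by_cases h2 : hc l o (x - Pi.single i 1) i j' k' z = 0
      · rw [h2, neg_zero, zero_add] at h1
        exact ih _ h.2 h1
      · exact hc_supp h.2.start h2

/-- the surface of a path in a box is supported in the box -/
lemma su_SW {o : Fin d → ℤ} {B lo hi : ℕ} {p : List (Fin d × Bool)} {x : Fin d → ℤ}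
    (h : InB o B x p) (h1 : ∀ i, (lo : ℤ) ≤ o i) (h2 : ∀ i, o i + B < hi) (h3 : hi ≤ l)
    (j' k' : Fin d) : SW lo hi (su l o x p j' k') := by
  intro z hz i
  obtain ⟨y, hy, rfl⟩ := su_supp p x h hz
  have h4 := wv_zt (l := l) (z := y) (fun i => by
    have := hy i; have := h1 i; have := h2 i; omega) i
  have := hy i; have := h1 i; have := h2 i
  omega

end supp

section fir

variable {G : Type*} [Group G] [TopologicalSpace G] [IsTopologicalGroup G] [CompactSpace G]
  [SecondCountableTopology G] [MeasurableSpace G] [BorelSpace G] {N n : ℕ} {L : LD G N n}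
  {d l : ℕ} [NeZero l] {M : ℕ}

/-- the holonomy, transported to the corner of the comb -/
def hP (U : Ed d l → G) (x : Fin d → ℤ) (p : List (Fin d × Bool)) : G :=
  Pc U (zt l x) * hol (lf U) x p * (Pc U (zt l (dest x p)))⁻¹

lemma hP_nil (U : Ed d l → G) (x : Fin d → ℤ) : hP U x [] = 1 := by
  simp [hP, hol, dest]

lemma hP_true (U : Ed d l → G) (x : Fin d → ℤ) (i : Fin d) (p : List (Fin d × Bool)) :
    hP U x ((i, true) :: p) = tlT U (zt l x) i * hP U (x + Pi.single i 1) p := by
  have h5 : lf U (x, i) = U (zt l x, i) := rfl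
  unfold hP
  simp only [hol, dest]
  rw [h5, zt_add]
  unfold tlT
  group

lemma hP_false (U : Ed d l → G) (x : Fin d → ℤ) (i : Fin d) (p : List (Fin d × Bool)) :
    hP U x ((i, false) :: p) = (tlT U (zt l (x - Pi.single i 1)) i)⁻¹ *
      hP U (x - Pi.single i 1) p := by
  have h5 : lf U (x - Pi.single i 1, i) = U (zt l (x - Pi.single i 1), i) := rfl
  unfold hP
  simp only [hol, dest]
  rw [h5]
  unfold tlT
  rw [zt_sub]
  group

lemma ip2_dlt (y : St d l) (F : St d l → ℝ) : ip2 (dlt y) F = F y := by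
  unfold ip2 dlt
  simp

lemma ip2_zero_left (F : St d l → ℝ) : ip2 0 F = 0 := by
  unfold ip2; simp

lemma sum_dk1 (x : Fin d → ℤ) (i : Fin d) (A : Fin d → St d l → ℝ) :
    ∑ k, ip2 (dk1 l x i k) (A k) = A i (zt l x) := by
  have h : ∀ k, ip2 (dk1 l x i k) (A k) = if k = i then A i (zt l x) else 0 := by
    intro k
    unfold dk1
    split_ifs with hk
    · subst hk; exact ip2_dlt _ _
    · exact ip2_zero_left _
  rw [Finset.sum_congr rfl fun k _ => h k, Finset.sum_ite_eq' Finset.univ i,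
    if_pos (Finset.mem_univ _)]

lemma sum_ip2_add (J K : Fin d → St d l → ℝ) (A : Fin d → St d l → ℝ) :
    ∑ k, ip2 ((J + K) k) (A k) = ∑ k, ip2 (J k) (A k) + ∑ k, ip2 (K k) (A k) := by
  rw [← Finset.sum_add_distrib]
  exact Finset.sum_congr rfl fun k _ => ip2_add_left _ _ _

lemma sum_ip2_neg (J : Fin d → St d l → ℝ) (A : Fin d → St d l → ℝ) :
    ∑ k, ip2 ((-J) k) (A k) = -∑ k, ip2 (J k) (A k) := by
  rw [← Finset.sum_neg_distrib]
  exact Finset.sum_congr rfl fun k _ => ip2_neg_left _ _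

lemma tlT_box (U : Ed d l → G) (hMl : M < l) {x : Fin d → ℤ} (h0 : ∀ i, 0 ≤ x i)
    (h1 : ∀ i, x i + 1 < M) (i : Fin d) : dv L (tlT U (zt l x) i) ≤ d * M * sB L M U := by
  have hw : ∀ i', ((wv (zt l x) i' : ℕ) : ℤ) = x i' := wv_zt fun i' =>
    ⟨h0 i', by have := h1 i'; omega⟩
  refine dv_tlT U (fun i' => ?_) ?_
  · have e1 := hw i'; have e2 := h1 i'; omega
  · have e1 := hw i; have e2 := h1 i; omega

/-- holonomies to first order -/
lemma hP_fi (U : Ed d l → G) (hMl : M < l) {o : Fin d → ℤ} {B : ℕ} (ho : ∀ i, 0 ≤ o i)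
    (hB : ∀ i, o i + B + 1 < M) (p : List (Fin d × Bool)) (x : Fin d → ℤ) (h : InB o B x p) :
    dv L (hP U x p) ≤ p.length * (d * M * sB L M U) ∧
      ∀ a, |fi L a (hP U x p) - ∑ k, ip2 (cu l x p k) (at' L U a k)| ≤
        (p.length * (d * M * sB L M U)) ^ 2 := by
  obtain ⟨D, hD⟩ : ∃ D, D = d * M * sB L M U := ⟨_, rfl⟩
  have hs0 := sB_nonneg (L := L) M U
  have hD0 : 0 ≤ D := by rw [hD]; positivity
  rw [← hD]
  induction p generalizing x with
  | nil =>
    rw [hP_nil, dv_one]
    refine ⟨by simp, fun a => ?_⟩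
    rw [fi_one]
    have h1 : ∑ k, ip2 (cu l x [] k) (at' L U a k) = 0 :=
      Finset.sum_eq_zero fun k _ => ip2_zero_left _
    rw [h1]
    simp
  | cons s p ih =>
    obtain ⟨i, s⟩ := s
    have hlen : ((((i, s) :: p).length : ℕ) : ℝ) = (p.length : ℝ) + 1 := by simp
    have hp0 : (0 : ℝ) ≤ p.length := Nat.cast_nonneg _
    rw [hlen]
    have key : ∀ y : Fin d → ℤ, (∀ i, o i ≤ y i ∧ y i ≤ o i + B) →
        dv L (tlT U (zt l y) i) ≤ D := fun y hy => by
      rw [hD]
      exact tlT_box U hMl (fun i => by have := ho i; have := hy i; omega)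
        (fun i => by have := hB i; have := hy i; omega) i
    cases s with
    | true =>
      obtain ⟨i1, i2⟩ := ih _ h.2
      have k1 := key x h.1
      rw [hP_true]
      constructor
      · refine (dv_mul _ _).trans ?_
        linarith
      · intro a
        have f1 := fi_mul (L := L) a (tlT U (zt l x) i) (hP U (x + Pi.single i 1) p)
        have f2 := i2 a
        have e1 : ∑ k, ip2 (cu l x ((i, true) :: p) k) (at' L U a k) =
            fi L a (tlT U (zt l x) i) + ∑ k, ip2 (cu l (x + Pi.single i 1) p k) (at' L U a k) := by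
          show ∑ k, ip2 ((dk1 l x i + cu l (x + Pi.single i 1) p) k) (at' L U a k) = _
          rw [sum_ip2_add, sum_dk1]
          rfl
        rw [e1]
        have m1 : dv L (tlT U (zt l x) i) * dv L (hP U (x + Pi.single i 1) p) ≤
            D * (p.length * D) := mul_le_mul k1 i1 (dv_nonneg _) hD0
        rw [abs_le] at f1 f2 ⊢
        constructor <;> nlinarith [f1.1, f1.2, f2.1, f2.2, m1, sq_nonneg D,
          mul_nonneg hp0 (sq_nonneg D)]
    | false =>
      obtain ⟨i1, i2⟩ := ih _ h.2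
      have k1 := key (x - Pi.single i 1) h.2.start
      rw [hP_false]
      constructor
      · refine (dv_mul _ _).trans ?_
        rw [dv_inv]
        linarith
      · intro a
        have f1 := fi_mul (L := L) a (tlT U (zt l (x - Pi.single i 1)) i)⁻¹
          (hP U (x - Pi.single i 1) p)
        rw [fi_inv, dv_inv] at f1
        have f2 := i2 a
        have e1 : ∑ k, ip2 (cu l x ((i, false) :: p) k) (at' L U a k) =
            -fi L a (tlT U (zt l (x - Pi.single i 1)) i) +
              ∑ k, ip2 (cu l (x - Pi.single i 1) p k) (at' L U a k) := by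
          show ∑ k, ip2 ((-dk1 l (x - Pi.single i 1) i + cu l (x - Pi.single i 1) p) k)
            (at' L U a k) = _
          rw [sum_ip2_add, sum_ip2_neg, sum_dk1]
          rfl
        rw [e1]
        have m1 : dv L (tlT U (zt l (x - Pi.single i 1)) i) *
            dv L (hP U (x - Pi.single i 1) p) ≤
            D * (p.length * D) := mul_le_mul k1 i1 (dv_nonneg _) hD0
        rw [abs_le] at f1 f2 ⊢
        constructor <;> nlinarith [f1.1, f1.2, f2.1, f2.2, m1, sq_nonneg D,
          mul_nonneg hp0 (sq_nonneg D)]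

lemma ipF_n1 {f g : Fm d l} {e : ℝ} (h : ∀ j k z, f j k z ≠ 0 → |g j k z| ≤ e) :
    |ipF f g| ≤ n1 f * e := by
  unfold ipF n1 ip2
  rw [abs_mul, abs_of_nonneg (by norm_num : (0 : ℝ) ≤ 1 / 2)]
  have h1 : |∑ j, ∑ k, ∑ x, f j k x * g j k x| ≤ ∑ j, ∑ k, ∑ x, |f j k x| * e := by
    refine (Finset.abs_sum_le_sum_abs _ _).trans (Finset.sum_le_sum fun j _ => ?_)
    refine (Finset.abs_sum_le_sum_abs _ _).trans (Finset.sum_le_sum fun k _ => ?_)
    refine (Finset.abs_sum_le_sum_abs _ _).trans (Finset.sum_le_sum fun x _ => ?_)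
    rw [abs_mul]
    by_cases hx : f j k x = 0
    · rw [hx]; simp
    · exact mul_le_mul_of_nonneg_left (h j k x hx) (abs_nonneg _)
  have h2 : ∑ j, ∑ k, ∑ x, |f j k x| * e = (∑ j, ∑ k, ∑ x, |f j k x|) * e := by
    simp only [Finset.sum_mul]
  rw [h2] at h1
  have h3 := (abs_nonneg (∑ j, ∑ k, ∑ x, f j k x * g j k x)).trans h1
  linarith

/-- the holonomy of a closed path in terms of the curvature -/
theorem hP_Fz (U : Ed d l → G) (hMl : M < l) {o : Fin d → ℤ} {B : ℕ} (ho : ∀ i, 0 ≤ o i)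
    (hB : ∀ i, o i + B + 1 < M) {p : List (Fin d × Bool)} {x : Fin d → ℤ} (h : InB o B x p)
    (hcl : dest x p = x) (a : Fin n) :
    |fi L a (hP U x p) - ipF (su l o x p) (Fz L U a)| ≤
      (p.length ^ 2 + 12 * p.length * (d * B)) * (d * M * sB L M U) ^ 2 := by
  obtain ⟨-, h1⟩ := hP_fi (L := L) U hMl ho hB p x h
  have h2 := h1 a
  have h3 : ipF (su l o x p) (d1 (at' L U a)) = ∑ k, ip2 (cu l x p k) (at' L U a k) := by
    rw [ipF_ds (asy_su o p x)]
    refine Finset.sum_congr rfl fun k _ => ?_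
    rw [ds2_su p x h k, hcl]
    congr 1
    abel
  have h4 : |ipF (su l o x p) (Fz L U a - d1 (at' L U a))| ≤
      n1 (su l o x p) * (6 * (d * M * sB L M U) ^ 2) := by
    refine ipF_n1 fun j k z hz => ?_
    obtain ⟨y, hy, rfl⟩ := su_supp p x h hz
    have hw : ∀ i', ((wv (zt l y) i' : ℕ) : ℤ) = y i' := wv_zt fun i' =>
      ⟨by have := ho i'; have := hy i'; omega, by
        have := hB i'; have := hy i'; omega⟩
    exact Fz_closed (L := L) (fun i' => by
      have := hw i'; have := hB i'; have := hy i'; omega) hMl a j k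
  have h5 := n1_su (l := l) p x h
  have h6 : n1 (su l o x p) * (6 * (d * M * sB L M U) ^ 2) ≤
      p.length * (2 * (d * B)) * (6 * (d * M * sB L M U) ^ 2) :=
    mul_le_mul_of_nonneg_right h5 (by positivity)
  have h7 : ipF (su l o x p) (Fz L U a - d1 (at' L U a)) = ipF (su l o x p) (Fz L U a) -
      ∑ k, ip2 (cu l x p k) (at' L U a k) := by
    rw [← h3, ipF_comm, ipF_sub_left, ipF_comm, ipF_comm (d1 _)]
  rw [h7] at h4
  have h8 := h4.trans h6
  have h9 : (p.length * (d * M * sB L M U)) ^ 2 = (p.length : ℝ) ^ 2 * (d * M * sB L M U) ^ 2 := by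
    ring
  rw [h9] at h2
  rw [abs_le] at h2 h8 ⊢
  constructor <;> nlinarith [h2.1, h2.2, h8.1, h8.2]

end fir

end

end Pool.Agent.Run7.h630.L
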