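import Mathlib
import Pool.Agent.Run7.h630.L.Hol
import Pool.Agent.Run7.h630.L.Green

/-!
# The Gaussian limit for families of loops in finite volume
-/

open MeasureTheory Matrix Filter
open scoped Matrix.Norms.Frobenius ContDiff Topology
open Pool.Agent.H906R3.YM hiding Pl
open Pool.Agent.W793.YM hiding rs
open Pool.Agent.TH618.YM

namespace Pool.Agent.Run7.h630.L

set_option linter.unusedSectionVars false
set_option linter.unusedVariables false

noncomputable section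

section fourier

variable {d l : ℕ} [NeZero l]

lemma fh_add (f g : St d l → ℝ) (ξ : St d l) : fh (f + g) ξ = fh f ξ + fh g ξ := by
  unfold fh
  rw [← Finset.sum_add_distrib]
  refine Finset.sum_congr rfl fun x _ => ?_
  rw [Pi.add_apply]; push_cast; ring

lemma fh_smul (c : ℝ) (f : St d l → ℝ) (ξ : St d l) : fh (c • f) ξ = (c : ℂ) * fh f ξ := by
  unfold fh
  rw [Finset.mul_sum]
  refine Finset.sum_congr rfl fun x _ => ?_
  rw [Pi.smul_apply, smul_eq_mul]; push_cast; ring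

lemma fh_neg (f : St d l → ℝ) (ξ : St d l) : fh (-f) ξ = -fh f ξ := by
  have := fh_smul (-1) f ξ
  rw [neg_one_smul] at this
  rw [this]; push_cast; ring

lemma fh_zero (ξ : St d l) : fh (0 : St d l → ℝ) ξ = 0 := by
  unfold fh; simp

lemma fh_sum {ι : Type*} (s : Finset ι) (f : ι → St d l → ℝ) (ξ : St d l) :
    fh (∑ i ∈ s, f i) ξ = ∑ i ∈ s, fh (f i) ξ := by
  classical
  induction s using Finset.induction_on with
  | empty => rw [Finset.sum_empty, Finset.sum_empty, fh_zero]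
  | insert a s ha ih => rw [Finset.sum_insert ha, Finset.sum_insert ha, fh_add, ih]

lemma fh_dlt (y ξ : St d l) : fh (dlt y) ξ = ch ξ y := by
  unfold fh dlt
  rw [Finset.sum_eq_single y]
  · simp
  · intro z _ hz; simp [hz]
  · intro h; exact absurd (Finset.mem_univ _) h

/-- the frequencies -/
def fq (ξ : St d l) : Fin d → ℝ := fun i => ((ξ i).val : ℝ) / l

lemma fh_dk1 (x : Fin d → ℤ) (i k : Fin d) (ξ : St d l) :
    fh (dk1 l x i k) ξ = if k = i then ph x (fq ξ) else 0 := by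
  unfold dk1
  split_ifs
  · rw [fh_dlt, ch_zt]; rfl
  · exact fh_zero ξ

lemma fh_cu (x : Fin d → ℤ) (p : List (Fin d × Bool)) (k : Fin d) (ξ : St d l) :
    fh (cu l x p k) ξ = cF x p k (fq ξ) := by
  induction p generalizing x with
  | nil => exact fh_zero ξ
  | cons s p ih =>
    obtain ⟨i, s⟩ := s
    cases s with
    | true =>
      have h1 : cu l x ((i, true) :: p) k = dk1 l x i k + cu l (x + Pi.single i 1) p k := rfl
      rw [h1, fh_add, fh_dk1, ih]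
      rfl
    | false =>
      have h1 : cu l x ((i, false) :: p) k = -(dk1 l (x - Pi.single i 1) i k) +
        cu l (x - Pi.single i 1) p k := rfl
      rw [h1, fh_add, fh_neg, fh_dk1, ih]
      rfl

/-- the truncated energy of a current -/
lemma energy_rs (hd : 0 < d) (K : ℕ) (J : St d l → ℝ) :
    ip2 J (uK K J) - ip2 (Plk K J) (uK K J) =
      (1 / (l : ℝ) ^ d) * ∑ ξ : St d l, wK d K (lm ξ) * ‖fh J ξ‖ ^ 2 := by
  have h1 : ip2 (Plk K J) (uK K J) = ∑ k ∈ Finset.range K, (1 / (4 * d) : ℝ) *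
      ip2 J (Plk (K + k) J) := by
    unfold uK
    rw [ip2_smul_right, ip2_sum_right, Finset.mul_sum]
    refine Finset.sum_congr rfl fun k _ => ?_
    rw [← Plk_symm hd K (Plk k J) J, Plk_Plk]
  rw [ip2_uK hd, h1, ← Finset.sum_sub_distrib]
  have h2 : ∀ k ∈ Finset.range K, (1 / (4 * d) : ℝ) * ip2 J (Plk k J) -
      (1 / (4 * d) : ℝ) * ip2 J (Plk (K + k) J) =
      (1 / (l : ℝ) ^ d) * ∑ ξ : St d l, ((1 / (4 * d) : ℝ) * (lm ξ ^ k - lm ξ ^ (K + k))) *
        ‖fh J ξ‖ ^ 2 := by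
    intro k _
    rw [ip2_Plk_self hd, ip2_Plk_self hd, ← mul_sub, ← mul_sub, ← Finset.sum_sub_distrib,
      mul_left_comm, Finset.mul_sum]
    congr 1
    refine Finset.sum_congr rfl fun ξ _ => ?_
    ring
  rw [Finset.sum_congr rfl h2, ← Finset.mul_sum, Finset.sum_comm]
  congr 1
  refine Finset.sum_congr rfl fun ξ _ => ?_
  unfold wK
  rw [← Finset.sum_mul, Finset.mul_sum]

end fourier

section forms

variable {d n : ℕ} {ι : Type*} [Fintype ι]

/-- the spectral density of a combination of loops -/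
def SS (x : ι → Fin d → ℤ) (p : ι → List (Fin d × Bool)) (t : ι → ℝ) (u : Fin d → ℝ) : ℝ :=
  ∑ k, ‖∑ i, (t i : ℂ) * cF (x i) (p i) k u‖ ^ 2

lemma SS_cont (x : ι → Fin d → ℤ) (p : ι → List (Fin d × Bool)) (t : ι → ℝ) :
    Continuous (SS x p t) := by
  unfold SS
  exact continuous_finsetSum _ fun k _ => (continuous_finsetSum _ fun i _ =>
    continuous_const.mul (cF_cont _ _ _)).norm.pow 2

lemma SS_nonneg (x : ι → Fin d → ℤ) (p : ι → List (Fin d × Bool)) (t : ι → ℝ) (u : Fin d → ℝ) :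
    0 ≤ SS x p t u := by unfold SS; positivity

lemma SS_le {x : ι → Fin d → ℤ} {p : ι → List (Fin d × Bool)} {R : ℕ}
    (hp : ∀ i, (p i).length ≤ R) (t : ι → ℝ) (u : Fin d → ℝ) :
    SS x p t u ≤ ((∑ i, |t i|) * R) ^ 2 := by
  unfold SS
  have h1 : ∑ k, ‖∑ i, (t i : ℂ) * cF (x i) (p i) k u‖ ≤ (∑ i, |t i|) * R := by
    calc ∑ k, ‖∑ i, (t i : ℂ) * cF (x i) (p i) k u‖ ≤
        ∑ k, ∑ i, |t i| * ‖cF (x i) (p i) k u‖ := by
          refine Finset.sum_le_sum fun k _ => (norm_sum_le _ _).trans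
            (Finset.sum_le_sum fun i _ => ?_)
          rw [norm_mul, Complex.norm_real, Real.norm_eq_abs]
      _ = ∑ i, |t i| * ∑ k, ‖cF (x i) (p i) k u‖ := by
          rw [Finset.sum_comm]
          exact Finset.sum_congr rfl fun i _ => (Finset.mul_sum _ _ _).symm
      _ ≤ ∑ i, |t i| * R := by
          refine Finset.sum_le_sum fun i _ => mul_le_mul_of_nonneg_left ?_ (abs_nonneg _)
          exact (cF_norm _ _ _).trans (by exact_mod_cast hp i)
      _ = _ := by rw [Finset.sum_mul]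
  refine le_trans ?_ (pow_le_pow_left₀ (Finset.sum_nonneg fun k _ => norm_nonneg _) h1 2)
  exact Finset.sum_sq_le_sq_sum_of_nonneg fun k _ => norm_nonneg _

variable (l : ℕ) [NeZero l]

/-- the form of a combination of loops -/
def ff (o : Fin d → ℤ) (x : ι → Fin d → ℤ) (p : ι → List (Fin d × Bool)) (t : ι → Fin n → ℝ) :
    Fin n → Fm d l := fun a => ∑ i, t i a • su l o (x i) (p i)

lemma asy_smul {f : Fm d l} (c : ℝ) (hf : Asy f) : Asy (c • f) := fun j k => by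
  show c • f j k = -(c • f k j)
  rw [hf j k, smul_neg]

lemma asy_ff (o : Fin d → ℤ) (x : ι → Fin d → ℤ) (p : ι → List (Fin d × Bool))
    (t : ι → Fin n → ℝ) (a : Fin n) : Asy (ff l o x p t a) :=
  asy_sum _ fun i => asy_smul l _ (asy_su _ _ _)

lemma n1_smul (c : ℝ) (f : Fm d l) : n1 (c • f) = |c| * n1 f := by
  unfold n1
  simp only [Finset.mul_sum]
  refine Finset.sum_congr rfl fun j _ => Finset.sum_congr rfl fun k _ =>
    Finset.sum_congr rfl fun z _ => ?_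
  exact abs_mul _ _

lemma N1_ff {o : Fin d → ℤ} {B R : ℕ} {x : ι → Fin d → ℤ} {p : ι → List (Fin d × Bool)}
    (h : ∀ i, InB o B (x i) (p i)) (hB : B ≤ R) (hp : ∀ i, (p i).length ≤ R)
    (t : ι → Fin n → ℝ) :
    N1 (ff l o x p t) ≤ (∑ i, ∑ a, |t i a|) * (2 * d * R ^ 2) := by
  have h0 : N1 (ff l o x p t) = ∑ a, n1 (ff l o x p t a) := rfl
  rw [h0]
  have h1 : ∀ i, n1 (su l o (x i) (p i)) ≤ 2 * d * R ^ 2 := by
    intro i
    refine (n1_su _ _ (h i)).trans ?_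
    have e1 : ((p i).length : ℝ) ≤ R := by exact_mod_cast hp i
    have e2 : (B : ℝ) ≤ R := by exact_mod_cast hB
    calc ((p i).length : ℝ) * (2 * (d * B)) ≤ R * (2 * (d * R)) := by gcongr
      _ = _ := by ring
  calc ∑ a, n1 (ff l o x p t a) ≤ ∑ a, ∑ i, |t i a| * (2 * d * R ^ 2) := by
        refine Finset.sum_le_sum fun a _ => (n1_sum _ _).trans (Finset.sum_le_sum fun i _ => ?_)
        rw [n1_smul]
        exact mul_le_mul_of_nonneg_left (h1 i) (abs_nonneg _)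
    _ = _ := by
        rw [Finset.sum_comm, Finset.sum_mul]
        exact Finset.sum_congr rfl fun i _ => (Finset.sum_mul _ _ _).symm

lemma ds2_ff {o : Fin d → ℤ} {B : ℕ} {x : ι → Fin d → ℤ} {p : ι → List (Fin d × Bool)}
    (h : ∀ i, InB o B (x i) (p i)) (hcl : ∀ i, dest (x i) (p i) = x i)
    (t : ι → Fin n → ℝ) (a : Fin n) (k : Fin d) :
    ds2 (ff l o x p t a) k = ∑ i, t i a • cu l (x i) (p i) k := by
  unfold ff
  rw [ds2_sum]
  refine Finset.sum_congr rfl fun i _ => ?_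
  rw [ds2_smul, ds2_su _ _ (h i), hcl]
  congr 1
  abel

/-- the variance -/
lemma vK_ff (hd : 0 < d) {o : Fin d → ℤ} {B : ℕ} {x : ι → Fin d → ℤ}
    {p : ι → List (Fin d × Bool)} (h : ∀ i, InB o B (x i) (p i))
    (hcl : ∀ i, dest (x i) (p i) = x i) (t : ι → Fin n → ℝ) (K : ℕ) :
    vK K (ff l o x p t) = ∑ a, TH618.YM.rs l fun u => wK d K (pp u) * SS x p (fun i => t i a) u := by
  unfold vK
  refine Finset.sum_congr rfl fun a _ => ?_
  have h1 : AK K (ff l o x p t) a = ds2 fun j k => uK K (ff l o x p t a j k) := rfl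
  rw [h1, energy K (asy_ff l o x p t a), ← rs_sum]
  have h2 : ∀ k, ip2 (ds2 (ff l o x p t a) k) (uK K (ds2 (ff l o x p t a) k)) -
      ip2 (Plk K (ds2 (ff l o x p t a) k)) (uK K (ds2 (ff l o x p t a) k)) =
      (1 / (l : ℝ) ^ d) * ∑ ξ : St d l, wK d K (lm ξ) *
        ‖∑ i, (t i a : ℂ) * cF (x i) (p i) k (fq ξ)‖ ^ 2 := by
    intro k
    rw [energy_rs hd]
    congr 1
    refine Finset.sum_congr rfl fun ξ _ => ?_
    rw [ds2_ff l h hcl, fh_sum]
    congr 3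
    refine Finset.sum_congr rfl fun i _ => ?_
    rw [fh_smul, fh_cu]
  rw [Finset.sum_congr rfl fun k _ => h2 k, ← Finset.mul_sum, Finset.sum_comm]
  congr 1
  refine Finset.sum_congr rfl fun ξ _ => ?_
  rw [← Finset.mul_sum, lm_pp ξ hd]
  rfl

end forms

section gauss

variable {G : Type*} [Group G] [TopologicalSpace G] [IsTopologicalGroup G] [CompactSpace G]
  [SecondCountableTopology G] [MeasurableSpace G] [BorelSpace G] (μ : Measure G)
  [IsProbabilityMeasure μ] [μ.IsMulLeftInvariant] [μ.IsMulRightInvariant] [μ.IsInvInvariant]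
  {N n : ℕ} {L : LD G N n} {d : ℕ}

lemma hol_contT {l : ℕ} [NeZero l] (x : Fin d → ℤ) (p : List (Fin d × Bool)) :
    Continuous fun U : Ed d l → G => hol (lf U) x p := by
  have hl : Continuous fun U : Ed d l → G => lf U :=
    continuous_pi fun e => continuous_apply _
  exact (hol_cont x p).comp hl

lemma hP_cont {l : ℕ} [NeZero l] (x : Fin d → ℤ) (p : List (Fin d × Bool)) :
    Continuous fun U : Ed d l → G => hP U x p :=
  ((W793.YM.Pc_cont _).mul (hol_contT x p)).mul (W793.YM.Pc_cont _).inv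

variable (L) in
/-- the linear observable -/
def lin {ι : Type*} [Fintype ι] {l : ℕ} [NeZero l] (x : ι → Fin d → ℤ)
    (p : ι → List (Fin d × Bool)) (t : ι → Fin n → ℝ) (U : Ed d l → G) : ℝ :=
  ∑ i, ∑ a, t i a * fi L a (hP U (x i) (p i))

lemma lin_cont {ι : Type*} [Fintype ι] {l : ℕ} [NeZero l] (x : ι → Fin d → ℤ)
    (p : ι → List (Fin d × Bool)) (t : ι → Fin n → ℝ) :
    Continuous (lin L (l := l) x p t) := by
  unfold lin
  exact continuous_finsetSum _ fun i _ => continuous_finsetSum _ fun a _ =>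
    continuous_const.mul ((fi_cont a).comp (hP_cont _ _))

lemma Fs_ff {ι : Type*} [Fintype ι] {l : ℕ} [NeZero l] (o : Fin d → ℤ) (x : ι → Fin d → ℤ)
    (p : ι → List (Fin d × Bool)) (t : ι → Fin n → ℝ) (U : Ed d l → G) :
    Fs L (ff l o x p t) U = ∑ i, ∑ a, t i a * ipF (su l o (x i) (p i)) (Fz L U a) := by
  unfold Fs
  rw [Finset.sum_comm]
  refine Finset.sum_congr rfl fun a _ => ?_
  unfold ff
  rw [ipF_sum_left]
  exact Finset.sum_congr rfl fun i _ => ipF_smul_left _ _ _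

/-- the Gaussian limit for families of loops, finite volume -/
theorem gauss_tor (hd : 3 ≤ d) : ∃ C : ℝ, 0 < C ∧ ∀ (b : ℝ), 1 ≤ b → ∀ (m : ℕ) [NeZero m]
    (K R : ℕ), 1 ≤ R → R < K → 3 * K + 5 < 2 * m → ∀ (ι : Type) [Fintype ι]
    (x : ι → Fin d → ℤ) (p : ι → List (Fin d × Bool)),
    (∀ i, InB (fun _ => (K : ℤ) + 2) R (x i) (p i)) → (∀ i, dest (x i) (p i) = x i) →
    (∀ i, (p i).length ≤ R) → ∀ t : ι → Fin n → ℝ,
      |EX μ L (b ^ 4) (fun U : Ed d (2 * m) → G => Real.cos (b ^ 2 * lin L x p t U)) -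
        Real.exp (-((∑ a, TH618.YM.rs (2 * m) fun u => wK d K (pp u) *
          SS x p (fun i => t i a) u) / 2))| ≤
        C * ((1 + ∑ i, ∑ a, |t i a|) ^ 2 * (R : ℝ) ^ 4 *
          (1 / Real.sqrt (Real.sqrt K ^ (d - 2)) + (K : ℝ) ^ (2 * d + 3) / b)) := by
  have hd1 : 1 ≤ d := by omega
  obtain ⟨C1, hC1, h1⟩ := lattice μ (L := L) hd
  obtain ⟨C2, hC2, h2⟩ := sB_moms μ (L := L) hd1
  refine ⟨C1 * (1 + 2 * d) ^ 2 + C2 * (13 * d * (d * 8) ^ 2 * 9 ^ (2 * d)), by positivity,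
    fun b hb m _ K R hR hRK hKm ι _ x p hin hcl hlen t => ?_⟩
  have hb0 : 0 < b := by linarith
  have hm : 2 ≤ m := by omega
  have hK1 : (1 : ℝ) ≤ K := by
    have : 1 ≤ K := by omega
    exact_mod_cast this
  have hR1 : (1 : ℝ) ≤ R := by exact_mod_cast hR
  have hdr : (3 : ℝ) ≤ d := by exact_mod_cast hd
  obtain ⟨M, hM⟩ : ∃ M, M = 3 * K + 5 := ⟨_, rfl⟩
  have hMl : M < 2 * m := by omega
  have hM8 : (M : ℝ) ≤ 8 * K := by rw [hM]; push_cast; linarith
  have hM9 : (M : ℝ) + 1 ≤ 9 * K := by rw [hM]; push_cast; linarith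
  obtain ⟨o, ho⟩ : ∃ o : Fin d → ℤ, o = fun _ => (K : ℤ) + 2 := ⟨_, rfl⟩
  rw [← ho] at hin
  obtain ⟨T, hT⟩ : ∃ T, T = ∑ i, ∑ a, |t i a| := ⟨_, rfl⟩
  have hT0 : 0 ≤ T := by
    rw [hT]; exact Finset.sum_nonneg fun i _ => Finset.sum_nonneg fun a _ => abs_nonneg _
  obtain ⟨f, hf⟩ : ∃ f, f = ff (2 * m) o x p t := ⟨_, rfl⟩
  have hN : N1 f ≤ T * (2 * d * R ^ 2) := by
    rw [hf, hT]; exact N1_ff (2 * m) hin le_rfl hlen t
  have hN0 := N1_nonneg f
  have hK0 : (0 : ℝ) < K := by linarith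
  have hs0 : 0 < Real.sqrt (Real.sqrt K ^ (d - 2)) := by positivity
  -- the lattice estimate
  have e1 := (h1 b hb m K (by omega) hKm f (fun a => by rw [hf]; exact asy_ff _ _ _ _ _ _)
    (fun a j k => by
      rw [hf]
      unfold ff
      have h4 : (∑ i, t i a • su (2 * m) o (x i) (p i)) j k =
          ∑ i, t i a • su (2 * m) o (x i) (p i) j k := by
        rw [Finset.sum_apply, Finset.sum_apply]; rfl
      rw [h4]
      refine SW.sum _ fun i _ => SW.smul _ (su_SW (hin i) (fun i' => ?_) (fun i' => ?_) ?_ j k)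
      · rw [ho]; push_cast; omega
      · rw [ho]; push_cast; omega
      · omega)).1
  rw [hf, vK_ff (2 * m) (by omega) hin hcl t K, ← hf] at e1
  -- the difference
  have hY : ∀ U : Ed d (2 * m) → G, |b ^ 2 * lin L x p t U - b ^ 2 * Fs L f U| ≤
      b ^ 2 * (T * (13 * d * R ^ 2) * (d * (8 * K)) ^ 2) * sB L M U ^ 2 := by
    intro U
    have hsB := sB_nonneg (L := L) M U
    rw [← mul_sub, abs_mul, abs_of_pos (show 0 < b ^ 2 by positivity), mul_assoc (b ^ 2)]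
    refine mul_le_mul_of_nonneg_left ?_ (by positivity)
    rw [hf, Fs_ff]
    unfold lin
    rw [← Finset.sum_sub_distrib]
    simp only [← Finset.sum_sub_distrib, ← mul_sub]
    have hB : ∀ i' : Fin d, o i' + R + 1 < M := fun i' => by
      rw [ho, hM]; push_cast; omega
    have ho0 : ∀ i' : Fin d, 0 ≤ o i' := fun i' => by rw [ho]; positivity
    have h5 : ∀ i a, |t i a * (fi L a (hP U (x i) (p i)) -
        ipF (su (2 * m) o (x i) (p i)) (Fz L U a))| ≤
        |t i a| * (13 * d * R ^ 2 * (d * (8 * K)) ^ 2 * sB L M U ^ 2) := by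
      intro i a
      rw [abs_mul]
      refine mul_le_mul_of_nonneg_left ?_ (abs_nonneg _)
      refine (hP_Fz (L := L) U hMl ho0 hB (hin i) (hcl i) a).trans ?_
      have e2 : ((p i).length : ℝ) ≤ R := by exact_mod_cast hlen i
      have e3 : ((p i).length : ℝ) ^ 2 + 12 * (p i).length * (d * R) ≤ 13 * d * R ^ 2 := by
        have e4 : ((p i).length : ℝ) ^ 2 ≤ R ^ 2 := pow_le_pow_left₀ (Nat.cast_nonneg _) e2 2
        have e5 : 12 * ((p i).length : ℝ) * (d * R) ≤ 12 * R * (d * R) := by gcongr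
        nlinarith [sq_nonneg (R : ℝ)]
      have e6 : (d * M * sB L M U) ^ 2 ≤ (d * (8 * K)) ^ 2 * sB L M U ^ 2 := by
        rw [← mul_pow]
        refine pow_le_pow_left₀ (by positivity) ?_ 2
        gcongr
      calc _ ≤ 13 * d * R ^ 2 * ((d * (8 * K)) ^ 2 * sB L M U ^ 2) := by
            refine mul_le_mul e3 e6 (by positivity) (by positivity)
        _ = _ := by ring
    calc |∑ i, ∑ a, t i a * (fi L a (hP U (x i) (p i)) -
          ipF (su (2 * m) o (x i) (p i)) (Fz L U a))| ≤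
        ∑ i, ∑ a, |t i a| * (13 * d * R ^ 2 * (d * (8 * K)) ^ 2 * sB L M U ^ 2) := by
          refine (Finset.abs_sum_le_sum_abs _ _).trans (Finset.sum_le_sum fun i _ => ?_)
          exact (Finset.abs_sum_le_sum_abs _ _).trans (Finset.sum_le_sum fun a _ => h5 i a)
      _ = _ := by
          rw [hT]
          simp only [← Finset.sum_mul]
          ring
  have hE : EX μ L (b ^ 4) (fun U : Ed d (2 * m) → G => |b ^ 2 * lin L x p t U -
      b ^ 2 * Fs L f U|) ≤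
      C2 * (13 * d * (d * 8) ^ 2 * 9 ^ (2 * d)) * (T * R ^ 2 * (K : ℝ) ^ (2 * d + 3) / b) := by
    obtain ⟨-, e2, -⟩ := h2 b hb m hm M
    obtain ⟨E, hE⟩ : ∃ E, E = EX μ L (b ^ 4)
      (fun U : Ed d (2 * m) → G => sB L M U ^ 2) := ⟨_, rfl⟩
    have hE0 : 0 ≤ E := by rw [hE]; exact EX_nonneg μ fun U => by positivity
    rw [← hE] at e2
    have hFc : Continuous fun U : Ed d (2 * m) → G => b ^ 2 * Fs L f U := by
      refine continuous_const.mul ?_
      have : Fs L f = (FsS L f).1 := by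
        funext U; rw [FsS_apply]
      rw [this]
      exact Sm_cont _
    have e3 : EX μ L (b ^ 4) (fun U : Ed d (2 * m) → G => |b ^ 2 * lin L x p t U -
        b ^ 2 * Fs L f U|) ≤ b ^ 2 * (T * (13 * d * R ^ 2) * (d * (8 * K)) ^ 2) * E := by
      rw [hE, ← EX_smul]
      exact EX_mono μ ((continuous_const.mul (lin_cont x p t)).sub hFc).abs
        (continuous_const.mul ((sB_cont M).pow 2)) hY
    have e4 : b ^ 2 * E ≤ C2 * (9 * K) ^ (2 * d) / b := by
      rw [le_div_iff₀ hb0]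
      calc b ^ 2 * E * b = b ^ 3 * E := by ring
        _ ≤ C2 * ((M : ℝ) + 1) ^ (2 * d) := e2
        _ ≤ _ := by gcongr
    calc _ ≤ _ := e3
      _ = T * (13 * d * R ^ 2) * (d * (8 * K)) ^ 2 * (b ^ 2 * E) := by ring
      _ ≤ T * (13 * d * R ^ 2) * (d * (8 * K)) ^ 2 * (C2 * (9 * K) ^ (2 * d) / b) :=
          mul_le_mul_of_nonneg_left e4 (by positivity)
      _ = C2 * (13 * d * (d * 8) ^ 2 * 9 ^ (2 * d)) * (T * R ^ 2 * (K : ℝ) ^ (2 * d + 2) / b) := by
          rw [mul_pow (9 : ℝ), pow_add]; ring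
      _ ≤ _ := by
          have : (K : ℝ) ^ (2 * d + 2) ≤ (K : ℝ) ^ (2 * d + 3) :=
            pow_le_pow_right₀ hK1 (by omega)
          gcongr
  have hFc : Continuous fun U : Ed d (2 * m) → G => b ^ 2 * Fs L f U := by
    refine continuous_const.mul ?_
    have : Fs L f = (FsS L f).1 := by
      funext U; rw [FsS_apply]
    rw [this]
    exact Sm_cont _
  have key := EX_trig μ (L := L) (β := b ^ 4) (X := fun U : Ed d (2 * m) → G =>
    b ^ 2 * lin L x p t U) (Y := fun U => b ^ 2 * Fs L f U)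
    (continuous_const.mul (lin_cont x p t)) hFc Real.continuous_cos abs_cos_sub e1
  refine key.trans ?_
  obtain ⟨Q, hQ⟩ : ∃ Q : ℝ, Q = 1 / Real.sqrt (Real.sqrt K ^ (d - 2)) := ⟨_, rfl⟩
  obtain ⟨W, hW⟩ : ∃ W : ℝ, W = (K : ℝ) ^ (2 * d + 3) / b := ⟨_, rfl⟩
  have hQ0 : 0 ≤ Q := by rw [hQ]; positivity
  have hW0 : 0 ≤ W := by rw [hW]; positivity
  have hR4 : (R : ℝ) ^ 2 ≤ R ^ 4 := pow_le_pow_right₀ hR1 (by norm_num)
  have hRR : (1 : ℝ) ≤ R ^ 2 := one_le_pow₀ hR1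
  have hN2 : N1 f ≤ (1 + 2 * d) ^ 2 * ((1 + T) ^ 2 * R ^ 4) := by
    calc N1 f ≤ T * (2 * d * R ^ 2) := hN
      _ ≤ (1 + T) ^ 2 * ((1 + 2 * d) ^ 2 * R ^ 4) := by
          refine mul_le_mul (by nlinarith) ?_ (by positivity) (by positivity)
          refine mul_le_mul (by nlinarith) hR4 (by positivity) (by positivity)
      _ = _ := by ring
  have hN3 : (1 + N1 f) ^ 2 ≤ (1 + 2 * d) ^ 2 * ((1 + T) ^ 2 * R ^ 4) := by
    have h6 : 1 + N1 f ≤ (1 + 2 * d) * ((1 + T) * R ^ 2) := by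
      have h7 : T * (2 * d * R ^ 2) ≤ 2 * d * ((1 + T) * R ^ 2) := by nlinarith
      have h8 : 1 ≤ (1 + T) * (R : ℝ) ^ 2 := by nlinarith
      linarith
    calc (1 + N1 f) ^ 2 ≤ ((1 + 2 * d) * ((1 + T) * R ^ 2)) ^ 2 :=
          pow_le_pow_left₀ (by positivity) h6 2
      _ = _ := by ring
  have hT2 : T * (R : ℝ) ^ 2 ≤ (1 + T) ^ 2 * R ^ 4 :=
    mul_le_mul (by nlinarith) hR4 (by positivity) (by positivity)
  have f1 : N1 f / Real.sqrt (Real.sqrt K ^ (d - 2)) ≤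
      (1 + 2 * d) ^ 2 * ((1 + T) ^ 2 * R ^ 4 * Q) := by
    rw [hQ]
    calc N1 f / Real.sqrt (Real.sqrt K ^ (d - 2)) = N1 f * (1 / Real.sqrt (Real.sqrt K ^ (d - 2))) :=
          by ring
      _ ≤ (1 + 2 * d) ^ 2 * ((1 + T) ^ 2 * R ^ 4) * (1 / Real.sqrt (Real.sqrt K ^ (d - 2))) :=
          mul_le_mul_of_nonneg_right hN2 (by positivity)
      _ = _ := by ring
  have f2 : (K : ℝ) ^ (2 * d + 3) * (1 + N1 f) ^ 2 / b ≤
      (1 + 2 * d) ^ 2 * ((1 + T) ^ 2 * R ^ 4 * W) := by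
    rw [hW]
    calc (K : ℝ) ^ (2 * d + 3) * (1 + N1 f) ^ 2 / b =
        (1 + N1 f) ^ 2 * ((K : ℝ) ^ (2 * d + 3) / b) := by ring
      _ ≤ (1 + 2 * d) ^ 2 * ((1 + T) ^ 2 * R ^ 4) * ((K : ℝ) ^ (2 * d + 3) / b) :=
          mul_le_mul_of_nonneg_right hN3 (by positivity)
      _ = _ := by ring
  have f3 : T * (R : ℝ) ^ 2 * (K : ℝ) ^ (2 * d + 3) / b ≤ (1 + T) ^ 2 * R ^ 4 * W := by
    rw [hW]
    calc T * (R : ℝ) ^ 2 * (K : ℝ) ^ (2 * d + 3) / b =
        T * (R : ℝ) ^ 2 * ((K : ℝ) ^ (2 * d + 3) / b) := by ring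
      _ ≤ _ := mul_le_mul_of_nonneg_right hT2 (by positivity)
  rw [← hT, ← hQ, ← hW]
  have g1 := mul_le_mul_of_nonneg_left (add_le_add f1 f2) hC1.le
  have hC20 : 0 ≤ C2 * (13 * d * (d * 8) ^ 2 * 9 ^ (2 * d)) := by positivity
  have g2 := mul_le_mul_of_nonneg_left f3 hC20
  have hnn : 0 ≤ (1 + T) ^ 2 * (R : ℝ) ^ 4 * Q := by positivity
  have g3 := mul_nonneg hC20 hnn
  calc _ ≤ C2 * (13 * d * (d * 8) ^ 2 * 9 ^ (2 * d)) * (T * R ^ 2 * (K : ℝ) ^ (2 * d + 3) / b) +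
        C1 * (N1 f / Real.sqrt (Real.sqrt K ^ (d - 2)) +
          (K : ℝ) ^ (2 * d + 3) * (1 + N1 f) ^ 2 / b) := add_le_add hE le_rfl
    _ ≤ C2 * (13 * d * (d * 8) ^ 2 * 9 ^ (2 * d)) * ((1 + T) ^ 2 * R ^ 4 * W) +
        C1 * ((1 + 2 * d) ^ 2 * ((1 + T) ^ 2 * R ^ 4 * Q) +
          (1 + 2 * d) ^ 2 * ((1 + T) ^ 2 * R ^ 4 * W)) := add_le_add g2 g1
    _ ≤ _ := by
        have e7 : (C1 * (1 + 2 * d) ^ 2 + C2 * (13 * d * (d * 8) ^ 2 * 9 ^ (2 * d))) *
            ((1 + T) ^ 2 * (R : ℝ) ^ 4 * (Q + W)) =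
            C2 * (13 * d * (d * 8) ^ 2 * 9 ^ (2 * d)) * ((1 + T) ^ 2 * R ^ 4 * W) +
            C1 * ((1 + 2 * d) ^ 2 * ((1 + T) ^ 2 * R ^ 4 * Q) +
            (1 + 2 * d) ^ 2 * ((1 + T) ^ 2 * R ^ 4 * W)) +
            C2 * (13 * d * (d * 8) ^ 2 * 9 ^ (2 * d)) * ((1 + T) ^ 2 * R ^ 4 * Q) := by ring
        rw [e7]
        linarith

end gauss

end

end Pool.Agent.Run7.h630.L
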