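import Mathlib

/-!
# Gaussian integrals
-/

open MeasureTheory Matrix Filter ProbabilityTheory
open scoped Topology RealInnerProductSpace Kronecker

namespace Pool.Agent.Run7.h630.L

set_option linter.unusedSectionVars false
set_option linter.unusedVariables false

noncomputable section

/-- the standard Gaussian measure -/
def gm (E : Type*) [Fintype E] : Measure (E → ℝ) := Measure.pi fun _ => gaussianReal 0 1

instance (E : Type*) [Fintype E] : IsProbabilityMeasure (gm E) := by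
  unfold gm; infer_instance

lemma gau_cexp {E : Type*} [Fintype E] (y : E → ℝ) :
    ∫ g : E → ℝ, Complex.exp (((∑ e, g e * y e : ℝ) : ℂ) * Complex.I) ∂(gm E) =
      ((Real.exp (-((∑ e, y e ^ 2) / 2)) : ℝ) : ℂ) := by
  unfold gm
  have h1 : ∀ g : E → ℝ, Complex.exp (((∑ e, g e * y e : ℝ) : ℂ) * Complex.I) =
      ∏ e, Complex.exp ((y e : ℂ) * (g e : ℂ) * Complex.I) := by
    intro g
    rw [← Complex.exp_sum]
    congr 1
    push_cast
    rw [Finset.sum_mul]
    exact Finset.sum_congr rfl fun e _ => by ring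
  simp only [h1]
  rw [integral_fintype_prod_eq_prod (fun e (v : ℝ) => Complex.exp ((y e : ℂ) * (v : ℂ) * Complex.I))]
  have h2 : ∀ e, ∫ v, Complex.exp ((y e : ℂ) * (v : ℂ) * Complex.I) ∂(gaussianReal 0 1) =
      Complex.exp (-((y e : ℂ) ^ 2 / 2)) := by
    intro e
    rw [← charFun_apply_real, charFun_gaussianReal]
    congr 1
    push_cast
    ring
  simp only [h2]
  rw [← Complex.exp_sum, Complex.ofReal_exp]
  congr 1
  push_cast
  rw [Finset.sum_div, Finset.sum_neg_distrib]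

/-- the characteristic function -/
lemma gau_cos {E : Type*} [Fintype E] (y : E → ℝ) :
    ∫ g : E → ℝ, Real.cos (∑ e, g e * y e) ∂(gm E) = Real.exp (-((∑ e, y e ^ 2) / 2)) := by
  have h1 := gau_cexp y
  have h2 : Integrable (fun g : E → ℝ =>
      Complex.exp (((∑ e, g e * y e : ℝ) : ℂ) * Complex.I)) (gm E) := by
    refine Integrable.of_bound (C := 1) ?_ (Filter.Eventually.of_forall fun g => ?_)
    · refine Continuous.aestronglyMeasurable ?_
      fun_prop
    · rw [Complex.norm_exp_ofReal_mul_I]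
  have h3 := congrArg Complex.re h1
  rw [Complex.ofReal_re] at h3
  rw [← h3]
  have h4 : (∫ g : E → ℝ, Complex.exp (((∑ e, g e * y e : ℝ) : ℂ) * Complex.I) ∂(gm E)).re =
      ∫ g : E → ℝ, (Complex.exp (((∑ e, g e * y e : ℝ) : ℂ) * Complex.I)).re ∂(gm E) :=
    (integral_re h2).symm
  rw [h4]
  refine integral_congr_ae (Filter.Eventually.of_forall fun g => ?_)
  simp only [Complex.exp_ofReal_mul_I_re]

lemma gau_one {c : ℝ} (hc : 0 ≤ c) :
    ∫ v, Real.exp (-(c * v ^ 2 / 2)) ∂(gaussianReal 0 1) = 1 / Real.sqrt (1 + c) := by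
  rw [integral_gaussianReal_eq_integral_smul (by norm_num)]
  unfold gaussianPDFReal
  have h1 : ∀ v : ℝ, ((Real.sqrt (2 * Real.pi * ((1 : NNReal) : ℝ)))⁻¹ *
      Real.exp (-(v - 0) ^ 2 / (2 * ((1 : NNReal) : ℝ)))) • Real.exp (-(c * v ^ 2 / 2)) =
      (Real.sqrt (2 * Real.pi))⁻¹ * Real.exp (-((1 + c) / 2) * v ^ 2) := by
    intro v
    rw [smul_eq_mul, mul_assoc, ← Real.exp_add]
    simp only [NNReal.coe_one, mul_one, sub_zero]
    congr 2
    ring
  simp only [h1]
  rw [integral_const_mul, integral_gaussian]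
  have hp := Real.pi_pos
  have h2 : Real.pi / ((1 + c) / 2) = 2 * Real.pi / (1 + c) := by
    field_simp
  rw [h2, Real.sqrt_div (by positivity)]
  have h3 : Real.sqrt (2 * Real.pi) ≠ 0 := by positivity
  field_simp

/-- the determinant and the eigenvalues -/
lemma det_one_add {ι : Type*} [Fintype ι] [DecidableEq ι] {A : Matrix ι ι ℝ}
    (hA : A.IsHermitian) : det (1 + A) = ∏ i, (1 + hA.eigenvalues i) := by
  have h1 := hA.charpoly_eq
  have h2 := congrArg (Polynomial.eval (-1 : ℝ)) h1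
  rw [Matrix.eval_charpoly, Polynomial.eval_prod] at h2
  simp only [Polynomial.eval_sub, Polynomial.eval_X, Polynomial.eval_C] at h2
  have h3 : (Matrix.scalar ι) (-1 : ℝ) - A = -(1 + A) := by
    rw [map_neg, map_one]; abel
  rw [h3, Matrix.det_neg] at h2
  have h4 : ∏ i, (-1 - ((hA.eigenvalues i : ℝ) : ℝ)) =
      (-1) ^ Fintype.card ι * ∏ i, (1 + hA.eigenvalues i) := by
    rw [← Finset.card_univ, ← Finset.prod_const, ← Finset.prod_mul_distrib]
    exact Finset.prod_congr rfl fun i _ => by ring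
  have h5 : ∏ i, (-1 - ((hA.eigenvalues i : ℝ) : ℝ)) = (-1) ^ Fintype.card ι * det (1 + A) := by
    rw [h2]; rfl
  rw [h4] at h5
  have h6 : ((-1 : ℝ)) ^ Fintype.card ι ≠ 0 := pow_ne_zero _ (by norm_num)
  exact (mul_left_cancel₀ h6 h5).symm

/-- the Gaussian integral of a quadratic form -/
lemma gau_det {ι : Type*} [Fintype ι] [DecidableEq ι] {A : Matrix ι ι ℝ} (hA : A.PosSemidef) :
    ∫ g : ι → ℝ, Real.exp (-((g ⬝ᵥ A *ᵥ g) / 2)) ∂(gm ι) = 1 / Real.sqrt (det (1 + A)) := by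
  obtain ⟨b, hb⟩ : ∃ b, b = hA.isHermitian.eigenvectorBasis := ⟨_, rfl⟩
  obtain ⟨ev, hev⟩ : ∃ ev, ev = hA.isHermitian.eigenvalues := ⟨_, rfl⟩
  have hev0 : ∀ i, 0 ≤ ev i := fun i => by rw [hev]; exact hA.eigenvalues_nonneg i
  obtain ⟨F, hF⟩ : ∃ F : EuclideanSpace ℝ ι → ℝ, F = fun v =>
    Real.exp (-((v.ofLp ⬝ᵥ A *ᵥ v.ofLp) / 2)) := ⟨_, rfl⟩
  have hFc : Continuous F := by
    rw [hF]
    have : Continuous fun v : EuclideanSpace ℝ ι => v.ofLp ⬝ᵥ A *ᵥ v.ofLp := by
      unfold dotProduct mulVec dotProduct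
      fun_prop
    fun_prop
  have h1 : ∫ g : ι → ℝ, Real.exp (-((g ⬝ᵥ A *ᵥ g) / 2)) ∂(gm ι) =
      ∫ v, F v ∂(stdGaussian (EuclideanSpace ℝ ι)) := by
    rw [← map_pi_eq_stdGaussian, integral_map (by fun_prop) hFc.aestronglyMeasurable, hF]
    rfl
  have h2 : ∫ v, F v ∂(stdGaussian (EuclideanSpace ℝ ι)) =
      ∫ x : ι → ℝ, F (∑ i, x i • b i) ∂(gm ι) := by
    rw [stdGaussian_eq_map_pi_orthonormalBasis b,
      integral_map (Measurable.aemeasurable (by fun_prop)) hFc.aestronglyMeasurable]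
    rfl
  have h3 : ∀ x : ι → ℝ, F (∑ i, x i • b i) = ∏ i, Real.exp (-(ev i * x i ^ 2 / 2)) := by
    intro x
    rw [hF, ← Real.exp_sum]
    simp only
    congr 1
    rw [Finset.sum_neg_distrib, ← Finset.sum_div]
    congr 2
    have e1 : A *ᵥ (∑ i, x i • b i).ofLp = (∑ i, (x i * ev i) • b i).ofLp := by
      have e2 : (∑ i, x i • b i).ofLp = ∑ i, x i • (b i).ofLp := by
        rw [WithLp.ofLp_sum]
        rfl
      have e3 : (∑ i, (x i * ev i) • b i).ofLp = ∑ i, (x i * ev i) • (b i).ofLp := by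
        rw [WithLp.ofLp_sum]
        rfl
      rw [e2, e3, Matrix.mulVec_sum]
      refine Finset.sum_congr rfl fun i _ => ?_
      rw [Matrix.mulVec_smul, mul_smul]
      congr 1
      rw [hb, hev]
      exact hA.isHermitian.mulVec_eigenvectorBasis i
    rw [e1]
    have e4 : ∀ v w : EuclideanSpace ℝ ι, v.ofLp ⬝ᵥ w.ofLp = ⟪v, w⟫ := by
      intro v w
      rw [EuclideanSpace.inner_eq_star_dotProduct, star_trivial, dotProduct_comm]
    rw [e4, sum_inner]
    refine Finset.sum_congr rfl fun i _ => ?_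
    rw [inner_smul_left, inner_sum]
    have e5 : ∀ j, ⟪b i, (x j * ev j) • b j⟫ = if i = j then x j * ev j else 0 := by
      intro j
      rw [inner_smul_right, orthonormal_iff_ite.1 b.orthonormal i j]
      split_ifs <;> simp
    rw [Finset.sum_congr rfl fun j _ => e5 j, Finset.sum_ite_eq, if_pos (Finset.mem_univ _)]
    simp only [conj_trivial]
    ring
  rw [h1, h2]
  simp only [h3]
  unfold gm
  rw [integral_fintype_prod_eq_prod (fun i (v : ℝ) => Real.exp (-(ev i * v ^ 2 / 2)))]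
  simp only [gau_one (hev0 _)]
  rw [det_one_add hA.isHermitian, ← hev, Finset.prod_div_distrib, Finset.prod_const_one]
  congr 1
  rw [Real.sqrt_prod _ fun i _ => by have := hev0 i; linarith]

end

end Pool.Agent.Run7.h630.L
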