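import Mathlib
import Pool.Agent.Run7.h630.L.Gau
import Pool.Agent.Run7.h630.L.Gs

/-!
# The Laplace functional in finite volume
-/

open MeasureTheory Matrix Filter ProbabilityTheory
open scoped Matrix.Norms.Frobenius ContDiff Topology Kronecker
open Pool.Agent.H906R3.YM hiding Pl
open Pool.Agent.W793.YM hiding rs
open Pool.Agent.TH618.YM

namespace Pool.Agent.Run7.h630.L

set_option linter.unusedSectionVars false
set_option linter.unusedVariables false

noncomputable section

/-- several colours -/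
lemma gau_detn {ι : Type*} [Fintype ι] [DecidableEq ι] {A : Matrix ι ι ℝ} (hA : A.PosSemidef)
    (n : ℕ) :
    ∫ g : ι × Fin n → ℝ, Real.exp (-((∑ a, ∑ i, ∑ j, g (i, a) * (A i j * g (j, a))) / 2))
      ∂(gm (ι × Fin n)) = 1 / Real.sqrt (det (1 + A) ^ n) := by
  have h1 : (A ⊗ₖ (1 : Matrix (Fin n) (Fin n) ℝ)).PosSemidef := hA.kronecker Matrix.PosSemidef.one
  have h2 := gau_det h1
  have h3 : det (1 + A ⊗ₖ (1 : Matrix (Fin n) (Fin n) ℝ)) = det (1 + A) ^ n := by
    have e1 : (1 : Matrix (ι × Fin n) (ι × Fin n) ℝ) + A ⊗ₖ (1 : Matrix (Fin n) (Fin n) ℝ) =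
        (1 + A) ⊗ₖ (1 : Matrix (Fin n) (Fin n) ℝ) := by
      rw [Matrix.add_kronecker, Matrix.one_kronecker_one]
    rw [e1, Matrix.det_kronecker, det_one, one_pow, mul_one, Fintype.card_fin]
  rw [h3] at h2
  rw [← h2]
  refine integral_congr_ae (Filter.Eventually.of_forall fun g => ?_)
  simp only
  congr 3
  unfold dotProduct mulVec dotProduct
  simp only [Matrix.kroneckerMap_apply, Fintype.sum_prod_type]
  rw [Finset.sum_comm]
  refine Finset.sum_congr rfl fun i _ => Finset.sum_congr rfl fun a _ => ?_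
  rw [Finset.mul_sum]
  refine Finset.sum_congr rfl fun j _ => ?_
  rw [Finset.sum_eq_single a]
  · rw [Matrix.one_apply_eq]; ring
  · intro b _ hb
    rw [Matrix.one_apply_ne hb.symm]; ring
  · intro h; exact absurd (Finset.mem_univ _) h

lemma gau_int_sq : Integrable (fun v : ℝ => v ^ 2) (gaussianReal 0 1) ∧
    ∫ v, v ^ 2 ∂(gaussianReal 0 1) = 1 := by
  have h1 : MemLp id 2 (gaussianReal 0 1) := memLp_id_gaussianReal 2
  have h2 : Integrable (fun v : ℝ => v ^ 2) (gaussianReal 0 1) := h1.integrable_sq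
  refine ⟨h2, ?_⟩
  have h3 := variance_fun_id_gaussianReal (μ := 0) (v := 1)
  rw [variance_eq_integral measurable_id'.aemeasurable] at h3
  simpa using h3

lemma gm_int_sq {E : Type*} [Fintype E] (e : E) :
    Integrable (fun g : E → ℝ => g e ^ 2) (gm E) ∧ ∫ g : E → ℝ, g e ^ 2 ∂(gm E) = 1 := by
  unfold gm
  have hmp := measurePreserving_eval (fun _ : E => gaussianReal 0 1) e
  have h1 := gau_int_sq
  constructor
  · exact hmp.integrable_comp_of_integrable h1.1
  · have h2 := integral_map (μ := Measure.pi fun _ : E => gaussianReal 0 1)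
      (φ := Function.eval e) (measurable_pi_apply e).aemeasurable
      (f := fun v : ℝ => v ^ 2) (by fun_prop)
    rw [hmp.map_eq, h1.2] at h2
    exact h2.symm

section swap

variable {G : Type*} [Group G] [TopologicalSpace G] [IsTopologicalGroup G] [CompactSpace G]
  [SecondCountableTopology G] [MeasurableSpace G] [BorelSpace G] (μ : Measure G)
  [IsProbabilityMeasure μ] [μ.IsMulLeftInvariant] [μ.IsMulRightInvariant] [μ.IsInvInvariant]
  {N n : ℕ} {L : LD G N n} {d : ℕ}

lemma EX_swap {l : ℕ} [NeZero l] {β : ℝ} {E : Type*} [Fintype E]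
    {y : (Ed d l → G) → E → ℝ} (hy : ∀ e, Continuous fun U => y U e) :
    EX μ L β (fun U => Real.exp (-((∑ e, y U e ^ 2) / 2))) =
      ∫ g : E → ℝ, EX μ L β (fun U => Real.cos (∑ e, g e * y U e)) ∂(gm E) := by
  unfold EX Zt
  rw [integral_div]
  congr 1
  have h1 : ∀ U : Ed d l → G, Real.exp (-((∑ e, y U e ^ 2) / 2)) * Real.exp (-(β * act L U)) =
      ∫ g : E → ℝ, Real.cos (∑ e, g e * y U e) * Real.exp (-(β * act L U)) ∂(gm E) := by
    intro U
    rw [← gau_cos, integral_mul_const]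
  simp only [h1]
  rw [integral_integral_swap]
  have hw := wt_contT (L := L) (d := d) (l := l) β
  obtain ⟨c, hc⟩ := (isCompact_range hw).isBounded.exists_norm_le
  have hc' : ∀ U : Ed d l → G, |Real.exp (-(β * act L U))| ≤ c := fun U => by
    have := hc _ (Set.mem_range_self U)
    rwa [Real.norm_eq_abs] at this
  refine Integrable.of_bound (C := c) ?_ (Filter.Eventually.of_forall fun p => ?_)
  · have hcont : Continuous fun p : (Ed d l → G) × (E → ℝ) =>
        Real.cos (∑ e, p.2 e * y p.1 e) * Real.exp (-(β * act L p.1)) := by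
      refine (Real.continuous_cos.comp (continuous_finsetSum _ fun e _ => ?_)).mul
        (hw.comp continuous_fst)
      exact ((continuous_apply e).comp continuous_snd).mul ((hy e).comp continuous_fst)
    exact hcont.aestronglyMeasurable
  · simp only [Function.uncurry]
    rw [Real.norm_eq_abs, abs_mul]
    have h2 := Real.abs_cos_le_one (∑ e, p.2 e * y p.1 e)
    have h3 := hc' p.1
    have h4 := abs_nonneg (Real.exp (-(β * act L p.1)))
    calc _ ≤ 1 * |Real.exp (-(β * act L p.1))| := mul_le_mul_of_nonneg_right h2 h4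
      _ ≤ c := by rw [one_mul]; exact h3

lemma fi_sq_le (g : G) : ∑ a, fi L a g ^ 2 ≤ dv L g ^ 2 := by
  have h := norm_perp (X := L.X) (fun a b => ip_X (L := L) a b) (L.rho g - 1)
  have h1 : ∀ a, ip (L.X a) (L.rho g - 1) ^ 2 = fi L a g ^ 2 := by
    intro a
    have h3 : fi L a g = -ip (L.X a) (L.rho g - 1) := by
      have e1 : fi L a g = trX L a (L.rho g - 1) := by
        rw [map_sub, trX_one, sub_zero]; rfl
      rw [e1]
      unfold trX
      rw [ip_apply, ip_apply, conjTranspose_conjTranspose]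
      have e2 : (L.X a)ᴴ = -L.X a := skew (L := L) a
      rw [e2, neg_mul, trace_neg, Complex.neg_re, neg_neg]
    rw [h3]; ring
  simp only [h1] at h
  have h2 : 0 ≤ ‖L.rho g - 1 - ∑ a, ip (L.X a) (L.rho g - 1) • L.X a‖ ^ 2 := sq_nonneg _
  rw [h] at h2
  unfold dv
  linarith

lemma exp_neg_close {x y : ℝ} (hx : 0 ≤ x) (hy : 0 ≤ y) :
    |Real.exp (-x) - Real.exp (-y)| ≤ |x - y| := by
  have h1 : ∀ u v : ℝ, 0 ≤ u → 0 ≤ v → Real.exp (-u) - Real.exp (-v) ≤ |u - v| := by
    intro u v hu hv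
    have e1 : Real.exp (-u) ≤ 1 := Real.exp_le_one_iff.2 (by linarith)
    have e2 := Real.add_one_le_exp (u - v)
    have e3 : Real.exp (-v) = Real.exp (-u) * Real.exp (u - v) := by
      rw [← Real.exp_add]; congr 1; ring
    rw [e3]
    have e4 := Real.exp_pos (-u)
    have e5 := neg_abs_le (u - v)
    have e6 := abs_nonneg (u - v)
    nlinarith
  rw [abs_le]
  constructor
  · have := h1 y x hy hx
    rw [abs_sub_comm] at this
    linarith
  · exact h1 x y hx hy

/-- the scaled Gaussian variables -/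
def tg {ι : Type*} {n : ℕ} (s : ι → ℝ) (g : ι × Fin n → ℝ) : ι → Fin n → ℝ :=
  fun i a => Real.sqrt (s i) * g (i, a)

lemma tg_sq {ι : Type*} [Fintype ι] {n : ℕ} {s : ι → ℝ} (hs : ∀ i, 0 ≤ s i)
    (g : ι × Fin n → ℝ) : (1 + ∑ i, ∑ a, |tg s g i a|) ^ 2 ≤
      2 + 2 * (Fintype.card ι * n) * ∑ i, ∑ a, s i * g (i, a) ^ 2 := by
  have h1 : (∑ i, ∑ a, |tg s g i a|) ^ 2 ≤ (Fintype.card ι * n) *
      ∑ i, ∑ a, s i * g (i, a) ^ 2 := by
    have e1 := sq_sum_le_card_mul_sum_sq (s := (Finset.univ : Finset (ι × Fin n)))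
      (f := fun q => |tg s g q.1 q.2|)
    rw [Finset.card_univ, Fintype.card_prod, Fintype.card_fin, Fintype.sum_prod_type,
      Fintype.sum_prod_type] at e1
    push_cast at e1
    refine e1.trans (le_of_eq ?_)
    congr 1
    refine Finset.sum_congr rfl fun i _ => Finset.sum_congr rfl fun a _ => ?_
    rw [sq_abs]
    unfold tg
    rw [mul_pow, Real.sq_sqrt (hs i)]
  nlinarith [sq_nonneg ((∑ i, ∑ a, |tg s g i a|) - 1)]

lemma tg_int {ι : Type*} [Fintype ι] {n : ℕ} (s : ι → ℝ) :
    Integrable (fun g : ι × Fin n → ℝ => ∑ i, ∑ a, s i * g (i, a) ^ 2) (gm (ι × Fin n)) ∧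
      ∫ g : ι × Fin n → ℝ, ∑ i, ∑ a, s i * g (i, a) ^ 2 ∂(gm (ι × Fin n)) = n * ∑ i, s i := by
  have h1 : ∀ i : ι, ∀ a : Fin n, Integrable (fun g : ι × Fin n → ℝ => s i * g (i, a) ^ 2)
      (gm (ι × Fin n)) := fun i a => (gm_int_sq (i, a)).1.const_mul _
  constructor
  · exact integrable_finsetSum _ fun i _ => integrable_finsetSum _ fun a _ => h1 i a
  · rw [integral_finsetSum _ fun i _ => integrable_finsetSum _ fun a _ => h1 i a]
    have h2 : ∀ i : ι, ∫ g : ι × Fin n → ℝ, ∑ a, s i * g (i, a) ^ 2 ∂(gm (ι × Fin n)) =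
        n * s i := by
      intro i
      rw [integral_finsetSum _ fun a _ => h1 i a]
      have h3 : ∀ a : Fin n, ∫ g : ι × Fin n → ℝ, s i * g (i, a) ^ 2 ∂(gm (ι × Fin n)) = s i := by
        intro a
        rw [integral_const_mul, (gm_int_sq (i, a)).2, mul_one]
      simp only [h3]
      simp
    simp only [h2]
    rw [Finset.mul_sum]

end swap

end

end Pool.Agent.Run7.h630.L
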