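import Mathlib
import Pool.Agent.Run7.h630.L.Hs

/-!
# The Laplace functional of loops in finite volume
-/

open MeasureTheory Matrix Filter ProbabilityTheory
open scoped Matrix.Norms.Frobenius ContDiff Topology Kronecker
open Pool.Agent.H906R3.YM hiding Pl
open Pool.Agent.W793.YM hiding rs
open Pool.Agent.TH618.YM

namespace Pool.Agent.Run7.h630.L

set_option linter.unusedSectionVars false
set_option linter.unusedVariables false

noncomputable section

variable {G : Type*} [Group G] [TopologicalSpace G] [IsTopologicalGroup G] [CompactSpace G]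
  [SecondCountableTopology G] [MeasurableSpace G] [BorelSpace G] (μ : Measure G)
  [IsProbabilityMeasure μ] [μ.IsMulLeftInvariant] [μ.IsMulRightInvariant] [μ.IsInvInvariant]
  {N n : ℕ} {L : LD G N n} {d : ℕ}

variable (d n) in
/-- the Gaussian side, in finite volume -/
def DT {ι : Type} [Fintype ι] (l : ℕ) (K : ℕ) (x : ι → Fin d → ℤ)
    (p : ι → List (Fin d × Bool)) (s : ι → ℝ) : ℝ :=
  ∫ g : ι × Fin n → ℝ, Real.exp (-((∑ a, TH618.YM.rs l fun u => wK d K (pp u) *
    SS x p (fun i => tg s g i a) u) / 2)) ∂(gm (ι × Fin n))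

lemma SS_tcont {ι : Type} [Fintype ι] (x : ι → Fin d → ℤ) (p : ι → List (Fin d × Bool))
    (s : ι → ℝ) (a : Fin n) (u : Fin d → ℝ) :
    Continuous fun g : ι × Fin n → ℝ => SS x p (fun i => tg s g i a) u := by
  unfold SS tg
  refine continuous_finsetSum _ fun k _ => ((continuous_finsetSum _ fun i _ => ?_).norm.pow 2)
  refine Continuous.mul ?_ continuous_const
  refine Complex.continuous_ofReal.comp ?_
  exact continuous_const.mul (continuous_apply (i, a))

lemma rs_tcont {ι : Type} [Fintype ι] (l K : ℕ) (x : ι → Fin d → ℤ)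
    (p : ι → List (Fin d × Bool)) (s : ι → ℝ) (a : Fin n) :
    Continuous fun g : ι × Fin n → ℝ => TH618.YM.rs l fun u => wK d K (pp u) *
      SS x p (fun i => tg s g i a) u := by
  unfold TH618.YM.rs
  exact continuous_const.mul (continuous_finsetSum _ fun ξ _ =>
    continuous_const.mul (SS_tcont x p s a _))

lemma DT_int {ι : Type} [Fintype ι] (hd : 0 < d) (l K : ℕ) (x : ι → Fin d → ℤ)
    (p : ι → List (Fin d × Bool)) (s : ι → ℝ) :
    Integrable (fun g : ι × Fin n → ℝ => Real.exp (-((∑ a, TH618.YM.rs l fun u => wK d K (pp u) *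
      SS x p (fun i => tg s g i a) u) / 2))) (gm (ι × Fin n)) := by
  refine Integrable.of_bound (C := 1) ?_ (Filter.Eventually.of_forall fun g => ?_)
  · refine Continuous.aestronglyMeasurable ?_
    exact Real.continuous_exp.comp ((continuous_finsetSum _ fun a _ =>
      rs_tcont l K x p s a).div_const 2).neg
  · rw [Real.norm_eq_abs, abs_of_pos (Real.exp_pos _), Real.exp_le_one_iff, neg_nonpos]
    refine div_nonneg (Finset.sum_nonneg fun a _ => ?_) (by norm_num)
    unfold TH618.YM.rs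
    refine mul_nonneg (by positivity) (Finset.sum_nonneg fun ξ _ => ?_)
    exact mul_nonneg (wK_bd hd K _).1 (SS_nonneg _ _ _ _)

/-- the loops as functions on the periodic lattice -/
def wl (L : LD G N n) {l : ℕ} (x : Fin d → ℤ) (p : List (Fin d × Bool))
    (U : Ed d l → G) : ℝ := we L (hol (lf U) x p)

lemma wl_cont {l : ℕ} [NeZero l] (x : Fin d → ℤ) (p : List (Fin d × Bool)) :
    Continuous (wl L (l := l) x p) := we_cont.comp (hol_contT x p)

/-- The Laplace functional of the loops, finite volume. -/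
theorem loops_tor (hd : 3 ≤ d) {C0 : ℝ} (hC0 : 0 < C0)
    (hcar : ∀ g : G, dv L g ^ 2 ≤ ∑ a, fi L a g ^ 2 + C0 * dv L g ^ 4) :
    ∃ C : ℝ, 0 < C ∧ ∀ (b : ℝ), 1 ≤ b → ∀ (m : ℕ) [NeZero m]
    (K R : ℕ), 1 ≤ R → R < K → 3 * K + 5 < 2 * m → ∀ (ι : Type) [Fintype ι]
    (x : ι → Fin d → ℤ) (p : ι → List (Fin d × Bool)),
    (∀ i, InB (fun _ => (K : ℤ) + 2) R (x i) (p i)) → (∀ i, dest (x i) (p i) = x i) →
    (∀ i, (p i).length ≤ R) → ∀ s : ι → ℝ, (∀ i, 0 ≤ s i) →
      |EX μ L (b ^ 4) (fun U : Ed d (2 * m) → G => Real.exp (-(b ^ 4 * ∑ i, s i *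
          wl L (x i) (p i) U))) - DT n d (2 * m) K x p s| ≤
        C * ((1 + Fintype.card ι) * (1 + ∑ i, s i) * (R : ℝ) ^ 4 *
          (1 / Real.sqrt (Real.sqrt K ^ (d - 2)) + (K : ℝ) ^ (2 * d + 3) / b +
            (K : ℝ) ^ (4 * d + 4) / b ^ 2)) := by
  have hd1 : 1 ≤ d := by omega
  obtain ⟨C1, hC1, h1⟩ := gauss_tor μ (L := L) hd
  obtain ⟨C2, hC2, h2⟩ := sB_moms μ (L := L) hd1
  refine ⟨C1 * (2 * (1 + n ^ 2)) + C0 * C2 * (d * 8) ^ 4 * 9 ^ (4 * d), by positivity,
    fun b hb m _ K R hR hRK hKm ι _ x p hin hcl hlen s hs => ?_⟩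
  have hb0 : 0 < b := by linarith
  have hm : 2 ≤ m := by omega
  have hK1 : (1 : ℝ) ≤ K := by
    have : 1 ≤ K := by omega
    exact_mod_cast this
  have hR1 : (1 : ℝ) ≤ R := by exact_mod_cast hR
  obtain ⟨M, hM⟩ : ∃ M, M = 3 * K + 5 := ⟨_, rfl⟩
  have hMl : M < 2 * m := by omega
  have hM8 : (M : ℝ) ≤ 8 * K := by rw [hM]; push_cast; linarith
  have hM9 : (M : ℝ) + 1 ≤ 9 * K := by rw [hM]; push_cast; linarith
  obtain ⟨S, hS⟩ : ∃ S, S = ∑ i, s i := ⟨_, rfl⟩
  have hS0 : 0 ≤ S := by rw [hS]; exact Finset.sum_nonneg fun i _ => hs i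
  obtain ⟨Q, hQ⟩ : ∃ Q : ℝ, Q = 1 / Real.sqrt (Real.sqrt K ^ (d - 2)) := ⟨_, rfl⟩
  obtain ⟨W, hW⟩ : ∃ W : ℝ, W = (K : ℝ) ^ (2 * d + 3) / b := ⟨_, rfl⟩
  obtain ⟨V, hV⟩ : ∃ V : ℝ, V = (K : ℝ) ^ (4 * d + 4) / b ^ 2 := ⟨_, rfl⟩
  have hQ0 : 0 ≤ Q := by rw [hQ]; positivity
  have hW0 : 0 ≤ W := by rw [hW]; positivity
  have hV0 : 0 ≤ V := by rw [hV]; positivity
  -- the Gaussian variables
  obtain ⟨y, hy⟩ : ∃ y : (Ed d (2 * m) → G) → ι × Fin n → ℝ, y = fun U e =>
    b ^ 2 * (Real.sqrt (s e.1) * fi L e.2 (hP U (x e.1) (p e.1))) := ⟨_, rfl⟩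
  have hyc : ∀ e, Continuous fun U => y U e := fun e => by
    rw [hy]
    exact continuous_const.mul (continuous_const.mul ((fi_cont _).comp (hP_cont _ _)))
  have hlin : ∀ (g : ι × Fin n → ℝ) (U : Ed d (2 * m) → G), ∑ e, g e * y U e =
      b ^ 2 * lin L x p (tg s g) U := by
    intro g U
    rw [hy, Fintype.sum_prod_type]
    unfold lin tg
    simp only [Finset.mul_sum]
    refine Finset.sum_congr rfl fun i _ => Finset.sum_congr rfl fun a _ => ?_
    ring
  have hsq : ∀ U : Ed d (2 * m) → G, ∑ e, y U e ^ 2 =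
      b ^ 4 * ∑ i, s i * ∑ a, fi L a (hP U (x i) (p i)) ^ 2 := by
    intro U
    rw [hy, Fintype.sum_prod_type]
    simp only [Finset.mul_sum]
    refine Finset.sum_congr rfl fun i _ => Finset.sum_congr rfl fun a _ => ?_
    rw [mul_pow, mul_pow, Real.sq_sqrt (hs i)]; ring
  -- step one
  have e1 : |EX μ L (b ^ 4) (fun U : Ed d (2 * m) → G => Real.exp (-((∑ e, y U e ^ 2) / 2))) -
      DT n d (2 * m) K x p s| ≤ C1 * (2 * (1 + n ^ 2)) * ((1 + Fintype.card ι) * (1 + S) *
        (R : ℝ) ^ 4 * (Q + W)) := by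
    rw [EX_swap μ hyc]
    unfold DT
    have hint : Integrable (fun g : ι × Fin n → ℝ => EX μ L (b ^ 4) (fun U : Ed d (2 * m) → G =>
        Real.cos (∑ e, g e * y U e))) (gm (ι × Fin n)) := by
      refine Integrable.of_bound (C := 1) ?_ (Filter.Eventually.of_forall fun g => ?_)
      · refine Continuous.aestronglyMeasurable ?_
        unfold EX Zt
        refine Continuous.div_const ?_ _
        have hcc : Continuous fun q : (ι × Fin n → ℝ) × (Ed d (2 * m) → G) =>
            Real.cos (∑ e, q.1 e * y q.2 e) * Real.exp (-(b ^ 4 * act L q.2)) := by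
          refine (Real.continuous_cos.comp (continuous_finsetSum _ fun e _ => ?_)).mul
            ((wt_contT (L := L) (b ^ 4)).comp continuous_snd)
          exact ((continuous_apply e).comp continuous_fst).mul ((hyc e).comp continuous_snd)
        have e6 := continuous_parametric_integral_of_continuous (μ := ME μ (Ed d (2 * m)))
          (f := fun (g : ι × Fin n → ℝ) (U : Ed d (2 * m) → G) =>
            Real.cos (∑ e, g e * y U e) * Real.exp (-(b ^ 4 * act L U))) hcc isCompact_univ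
        simpa only [Measure.restrict_univ] using e6
      · rw [Real.norm_eq_abs]
        have hc : Continuous fun U : Ed d (2 * m) → G => Real.cos (∑ e, g e * y U e) :=
          Real.continuous_cos.comp (continuous_finsetSum _ fun e _ =>
            continuous_const.mul (hyc e))
        refine (EX_abs μ hc).trans ?_
        refine (EX_mono μ hc.abs (continuous_const (y := (1 : ℝ)))
          fun U => Real.abs_cos_le_one _).trans ?_
        rw [EX_const]
    rw [← integral_sub hint (DT_int (by omega) (2 * m) K x p s)]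
    obtain ⟨H, hH⟩ : ∃ H : ℝ, H = C1 * ((R : ℝ) ^ 4 * (Q + W)) := ⟨_, rfl⟩
    have hH0 : 0 ≤ H := by rw [hH]; positivity
    have hi := tg_int (n := n) s
    have hpt : ∀ g : ι × Fin n → ℝ, |EX μ L (b ^ 4) (fun U : Ed d (2 * m) → G =>
        Real.cos (∑ e, g e * y U e)) - Real.exp (-((∑ a, TH618.YM.rs (2 * m) fun u =>
          wK d K (pp u) * SS x p (fun i => tg s g i a) u) / 2))| ≤
        H * (2 + 2 * (Fintype.card ι * n) * ∑ i, ∑ a, s i * g (i, a) ^ 2) := by
      intro g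
      have f1 := h1 b hb m K R hR hRK hKm ι x p hin hcl hlen (tg s g)
      simp only [hlin]
      refine f1.trans ?_
      rw [← hQ, ← hW]
      have f2 := tg_sq hs g
      calc _ = H * (1 + ∑ i, ∑ a, |tg s g i a|) ^ 2 := by rw [hH]; ring
        _ ≤ _ := mul_le_mul_of_nonneg_left f2 hH0
    have hbig : Integrable (fun g : ι × Fin n → ℝ => H * (2 + 2 * (Fintype.card ι * n) *
        ∑ i, ∑ a, s i * g (i, a) ^ 2)) (gm (ι × Fin n)) :=
      ((integrable_const _).add (hi.1.const_mul _)).const_mul _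
    have hfin : ∫ g : ι × Fin n → ℝ, H * (2 + 2 * (Fintype.card ι * n) *
        ∑ i, ∑ a, s i * g (i, a) ^ 2) ∂(gm (ι × Fin n)) =
        H * (2 + 2 * (Fintype.card ι * n) * (n * S)) := by
      rw [integral_const_mul, integral_add (integrable_const _) (hi.1.const_mul _),
        integral_const_mul, hi.2, hS]
      simp
    refine (abs_integral_le_integral_abs).trans ?_
    refine (integral_mono_of_nonneg (Filter.Eventually.of_forall fun g => abs_nonneg _) hbig
      (Filter.Eventually.of_forall hpt)).trans ?_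
    rw [hfin, hH]
    have hcard : (0 : ℝ) ≤ Fintype.card ι := Nat.cast_nonneg _
    have hn0 : (0 : ℝ) ≤ n := Nat.cast_nonneg _
    have f3 : 2 + 2 * (Fintype.card ι * n) * (n * S) ≤
        2 * (1 + n ^ 2) * ((1 + Fintype.card ι) * (1 + S)) := by
      have g1 : 0 ≤ (n : ℝ) ^ 2 := by positivity
      have g2 : 0 ≤ (Fintype.card ι : ℝ) * S := by positivity
      nlinarith [mul_nonneg hcard hS0, mul_nonneg g1 hcard, mul_nonneg g1 hS0, mul_nonneg g1 g2]
    calc C1 * ((R : ℝ) ^ 4 * (Q + W)) * (2 + 2 * (Fintype.card ι * n) * (n * S)) ≤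
        C1 * ((R : ℝ) ^ 4 * (Q + W)) * (2 * (1 + n ^ 2) * ((1 + Fintype.card ι) * (1 + S))) :=
          mul_le_mul_of_nonneg_left f3 (by positivity)
      _ = _ := by ring
  -- step two
  have e2 : |EX μ L (b ^ 4) (fun U : Ed d (2 * m) → G => Real.exp (-(b ^ 4 * ∑ i, s i *
      wl L (x i) (p i) U))) -
      EX μ L (b ^ 4) (fun U : Ed d (2 * m) → G => Real.exp (-((∑ e, y U e ^ 2) / 2)))| ≤
      C0 * C2 * (d * 8) ^ 4 * 9 ^ (4 * d) * ((1 + S) * (R : ℝ) ^ 4 * V) := by
    have c1 : Continuous fun U : Ed d (2 * m) → G => Real.exp (-(b ^ 4 * ∑ i, s i *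
        wl L (x i) (p i) U)) :=
      Real.continuous_exp.comp (continuous_const.mul (continuous_finsetSum _ fun i _ =>
        continuous_const.mul (wl_cont _ _))).neg
    have c2 : Continuous fun U : Ed d (2 * m) → G => Real.exp (-((∑ e, y U e ^ 2) / 2)) :=
      Real.continuous_exp.comp ((continuous_finsetSum _ fun e _ => (hyc e).pow 2).div_const 2).neg
    refine (EX_close μ c1 c2).trans ?_
    have hpt : ∀ U : Ed d (2 * m) → G, |Real.exp (-(b ^ 4 * ∑ i, s i *
        wl L (x i) (p i) U)) - Real.exp (-((∑ e, y U e ^ 2) / 2))| ≤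
        b ^ 4 * (S * (C0 * (R * (d * (8 * K))) ^ 4)) * sB L M U ^ 4 := by
      intro U
      have hsB := sB_nonneg (L := L) M U
      have hwe : ∀ i, wl L (x i) (p i) U = dv L (hP U (x i) (p i)) ^ 2 / 2 := by
        intro i
        have g1 : dv L (hP U (x i) (p i)) = dv L (hol (lf U) (x i) (p i)) := by
          unfold hP
          rw [hcl i, dv_conj]
        rw [g1, dv_sq]
        unfold wl
        ring
      have hwl0 : ∀ i, 0 ≤ wl L (x i) (p i) U := fun i => by rw [hwe]; positivity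
      refine (exp_neg_close (mul_nonneg (by positivity) (Finset.sum_nonneg fun i _ =>
        mul_nonneg (hs i) (hwl0 i))) (div_nonneg (Finset.sum_nonneg fun e _ => sq_nonneg _)
          (by norm_num))).trans ?_
      rw [hsq, mul_div_assoc, ← mul_sub, abs_mul, abs_of_pos (show 0 < b ^ 4 by positivity),
        mul_assoc (b ^ 4)]
      refine mul_le_mul_of_nonneg_left ?_ (by positivity)
      rw [Finset.sum_div, ← Finset.sum_sub_distrib, hS]
      refine (Finset.abs_sum_le_sum_abs _ _).trans ?_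
      rw [Finset.sum_mul, Finset.sum_mul]
      refine Finset.sum_le_sum fun i _ => ?_
      rw [mul_div_assoc, ← mul_sub, abs_mul, abs_of_nonneg (hs i), mul_assoc (s i)]
      refine mul_le_mul_of_nonneg_left ?_ (hs i)
      rw [hwe]
      have g1 := fi_sq_le (L := L) (hP U (x i) (p i))
      have g2 := hcar (hP U (x i) (p i))
      have hB : ∀ i' : Fin d, (fun _ : Fin d => (K : ℤ) + 2) i' + R + 1 < M := fun i' => by
        show (K : ℤ) + 2 + R + 1 < M
        rw [hM]; push_cast; omega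
      have g3 := (hP_fi (L := L) U hMl (o := fun _ => (K : ℤ) + 2) (B := R)
        (fun i' => by positivity) hB (p i) (x i) (hin i)).1
      have g4 : dv L (hP U (x i) (p i)) ≤ R * (d * (8 * K)) * sB L M U := by
        refine g3.trans ?_
        have g5 : ((p i).length : ℝ) ≤ R := by exact_mod_cast hlen i
        calc ((p i).length : ℝ) * (d * M * sB L M U) ≤ R * (d * (8 * K) * sB L M U) := by gcongr
          _ = _ := by ring
      have g5 : dv L (hP U (x i) (p i)) ^ 4 ≤ (R * (d * (8 * K))) ^ 4 * sB L M U ^ 4 := by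
        rw [← mul_pow]
        exact pow_le_pow_left₀ (dv_nonneg _) g4 4
      have g6 := mul_le_mul_of_nonneg_left g5 hC0.le
      have g7 : 0 ≤ C0 * dv L (hP U (x i) (p i)) ^ 4 := by
        have := dv_nonneg (L := L) (hP U (x i) (p i)); positivity
      rw [abs_le]
      constructor <;> linarith
    obtain ⟨e2, -, -⟩ := h2 b hb m hm M
    obtain ⟨E, hE⟩ : ∃ E, E = EX μ L (b ^ 4)
      (fun U : Ed d (2 * m) → G => sB L M U ^ 4) := ⟨_, rfl⟩
    have hE0 : 0 ≤ E := by rw [hE]; exact EX_nonneg μ fun U => by positivity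
    rw [← hE] at e2
    have e4 : b ^ 4 * E ≤ C2 * (9 * K) ^ (4 * d) / b ^ 2 := by
      rw [le_div_iff₀ (by positivity)]
      calc b ^ 4 * E * b ^ 2 = b ^ 6 * E := by ring
        _ ≤ C2 * ((M : ℝ) + 1) ^ (4 * d) := e2
        _ ≤ _ := by gcongr
    have hmono : EX μ L (b ^ 4) (fun U : Ed d (2 * m) → G => |Real.exp (-(b ^ 4 * ∑ i, s i *
        wl L (x i) (p i) U)) - Real.exp (-((∑ e, y U e ^ 2) / 2))|) ≤
        EX μ L (b ^ 4) (fun U : Ed d (2 * m) → G =>
          b ^ 4 * (S * (C0 * (R * (d * (8 * K))) ^ 4)) * sB L M U ^ 4) :=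
      EX_mono μ (c1.sub c2).abs (continuous_const.mul ((sB_cont M).pow 4)) hpt
    refine hmono.trans ?_
    rw [EX_smul, ← hE]
    calc b ^ 4 * (S * (C0 * (R * (d * (8 * K))) ^ 4)) * E =
        S * (C0 * (R * (d * (8 * K))) ^ 4) * (b ^ 4 * E) := by ring
      _ ≤ S * (C0 * (R * (d * (8 * K))) ^ 4) * (C2 * (9 * K) ^ (4 * d) / b ^ 2) :=
          mul_le_mul_of_nonneg_left e4 (by positivity)
      _ = C0 * C2 * (d * 8) ^ 4 * 9 ^ (4 * d) * (S * (R : ℝ) ^ 4 * V) := by
          rw [hV, mul_pow (9 : ℝ), pow_add]; ring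
      _ ≤ _ := by
          refine mul_le_mul_of_nonneg_left ?_ (by positivity)
          refine mul_le_mul_of_nonneg_right ?_ hV0
          refine mul_le_mul_of_nonneg_right (by linarith) (by positivity)
  have e3 : |EX μ L (b ^ 4) (fun U : Ed d (2 * m) → G => Real.exp (-(b ^ 4 * ∑ i, s i *
      wl L (x i) (p i) U))) - DT n d (2 * m) K x p s| ≤
      C0 * C2 * (d * 8) ^ 4 * 9 ^ (4 * d) * ((1 + S) * (R : ℝ) ^ 4 * V) +
      C1 * (2 * (1 + n ^ 2)) * ((1 + Fintype.card ι) * (1 + S) * (R : ℝ) ^ 4 * (Q + W)) := by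
    refine le_trans ?_ (add_le_add e2 e1)
    exact abs_sub_le _ _ _
  refine e3.trans ?_
  rw [← hQ, ← hW, ← hV, ← hS]
  have hcard : (0 : ℝ) ≤ Fintype.card ι := Nat.cast_nonneg _
  have f1 : (1 + S) * (R : ℝ) ^ 4 * V ≤ (1 + Fintype.card ι) * (1 + S) * (R : ℝ) ^ 4 * (Q + W + V) := by
    have g1 : 0 ≤ (1 + S) * (R : ℝ) ^ 4 := by positivity
    calc (1 + S) * (R : ℝ) ^ 4 * V ≤ (1 + S) * (R : ℝ) ^ 4 * (Q + W + V) :=
          mul_le_mul_of_nonneg_left (by linarith) g1
      _ = 1 * ((1 + S) * (R : ℝ) ^ 4 * (Q + W + V)) := by ring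
      _ ≤ (1 + Fintype.card ι) * ((1 + S) * (R : ℝ) ^ 4 * (Q + W + V)) :=
          mul_le_mul_of_nonneg_right (by linarith) (by positivity)
      _ = _ := by ring
  have f2 : (1 + Fintype.card ι) * (1 + S) * (R : ℝ) ^ 4 * (Q + W) ≤
      (1 + Fintype.card ι) * (1 + S) * (R : ℝ) ^ 4 * (Q + W + V) :=
    mul_le_mul_of_nonneg_left (by linarith) (by positivity)
  have g1 := mul_le_mul_of_nonneg_left f1
    (show 0 ≤ C0 * C2 * (d * 8) ^ 4 * 9 ^ (4 * d) by positivity)
  have g2 := mul_le_mul_of_nonneg_left f2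
    (show 0 ≤ C1 * (2 * (1 + (n : ℝ) ^ 2)) by positivity)
  calc _ ≤ _ := add_le_add g1 g2
    _ = _ := by ring

end

end Pool.Agent.Run7.h630.L
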