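import Mathlib
import Pool.Agent.Run7.h630.L.Tor

/-!
# The Gaussian side in infinite volume
-/

open MeasureTheory Matrix Filter ProbabilityTheory
open scoped Matrix.Norms.Frobenius ContDiff Topology Kronecker
open Pool.Agent.H906R3.YM hiding Pl
open Pool.Agent.W793.YM hiding rs
open Pool.Agent.TH618.YM

namespace Pool.Agent.Run7.h630.L

set_option linter.unusedSectionVars false
set_option linter.unusedVariables false

noncomputable section

variable {d n : ℕ}

lemma ph_add (z w : Fin d → ℤ) (u : Fin d → ℝ) : ph (z + w) u = ph z u * ph w u := by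
  unfold ph
  rw [← Complex.exp_add]
  congr 1
  rw [← add_mul]
  congr 1
  have h : ∑ i, ((z + w) i : ℝ) * u i = ∑ i, (z i : ℝ) * u i + ∑ i, (w i : ℝ) * u i := by
    rw [← Finset.sum_add_distrib]
    refine Finset.sum_congr rfl fun i _ => ?_
    rw [Pi.add_apply]; push_cast; ring
  rw [h]
  push_cast
  ring

lemma cF_add (x w : Fin d → ℤ) (p : List (Fin d × Bool)) (k : Fin d) (u : Fin d → ℝ) :
    cF (x + w) p k u = cF x p k u * ph w u := by
  induction p generalizing x with
  | nil => simp [cF]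
  | cons s p ih =>
    obtain ⟨i, s⟩ := s
    cases s with
    | true =>
      simp only [cF]
      rw [add_right_comm, ih, ph_add]
      split_ifs <;> ring
    | false =>
      simp only [cF]
      rw [add_sub_right_comm, ih, ph_add]
      split_ifs <;> ring

section lims

variable {ι : Type} [Fintype ι]

lemma SS_add (x : ι → Fin d → ℤ) (w : Fin d → ℤ) (p : ι → List (Fin d × Bool)) (t : ι → ℝ)
    (u : Fin d → ℝ) : SS (fun i => x i + w) p t u = SS x p t u := by
  unfold SS
  refine Finset.sum_congr rfl fun k _ => ?_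
  have h : ∑ i, (t i : ℂ) * cF (x i + w) (p i) k u =
      (∑ i, (t i : ℂ) * cF (x i) (p i) k u) * ph w u := by
    rw [Finset.sum_mul]
    exact Finset.sum_congr rfl fun i _ => by rw [cF_add]; ring
  rw [h, norm_mul, ph_norm, mul_one]

lemma DT_add (l K : ℕ) (x : ι → Fin d → ℤ) (w : Fin d → ℤ) (p : ι → List (Fin d × Bool))
    (s : ι → ℝ) : DT n d l K (fun i => x i + w) p s = DT n d l K x p s := by
  unfold DT
  simp only [SS_add]

variable (d n) in
/-- the Gaussian side with the truncated Green function -/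
def DK (K : ℕ) (x : ι → Fin d → ℤ) (p : ι → List (Fin d × Bool)) (s : ι → ℝ) : ℝ :=
  ∫ g : ι × Fin n → ℝ, Real.exp (-((∑ a, ∫ u, wK d K (pp u) *
    SS x p (fun i => tg s g i a) u ∂(mu1 d)) / 2)) ∂(gm (ι × Fin n))

variable (d n) in
/-- the Gaussian side -/
def DD (x : ι → Fin d → ℤ) (p : ι → List (Fin d × Bool)) (s : ι → ℝ) : ℝ :=
  ∫ g : ι × Fin n → ℝ, Real.exp (-((∑ a, ∫ u, SS x p (fun i => tg s g i a) u / om u
    ∂(mu1 d)) / 2)) ∂(gm (ι × Fin n))

lemma rs_lim (hd : 0 < d) (K : ℕ) {x : ι → Fin d → ℤ} {p : ι → List (Fin d × Bool)} {R : ℕ}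
    (hp : ∀ i, (p i).length ≤ R) (t : ι → ℝ) :
    Tendsto (fun l => TH618.YM.rs l fun u => wK d K (pp u) * SS x p t u) atTop
      (𝓝 (∫ u, wK d K (pp u) * SS x p t u ∂(mu1 d))) := by
  have hc : Continuous fun u : Fin d → ℝ => wK d K (pp u) * SS x p t u :=
    ((wK_cont K).comp pp_cont).mul (SS_cont x p t)
  refine rs_tendsto hc.measurable (B := K * ((∑ i, |t i|) * R) ^ 2) (fun u => ?_)
    (Filter.Eventually.of_forall fun u => hc.continuousAt)
  have h1 := wK_bd hd K u
  have h2 := SS_le (x := x) hp t u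
  have h3 := SS_nonneg x p t u
  rw [abs_of_nonneg (mul_nonneg h1.1 h3)]
  exact mul_le_mul h1.2 h2 h3 (Nat.cast_nonneg _)

lemma DT_lim (hd : 0 < d) (K : ℕ) {x : ι → Fin d → ℤ} {p : ι → List (Fin d × Bool)} {R : ℕ}
    (hp : ∀ i, (p i).length ≤ R) (s : ι → ℝ) {φ : ℕ → ℕ} (hφ : Tendsto φ atTop atTop) :
    Tendsto (fun j => DT n d (φ j) K x p s) atTop (𝓝 (DK d n K x p s)) := by
  unfold DT DK
  refine tendsto_integral_of_dominated_convergence (fun _ => (1 : ℝ)) (fun j => ?_)
    (integrable_const _) (fun j => ?_) ?_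
  · exact (DT_int hd (φ j) K x p s).aestronglyMeasurable
  · refine Filter.Eventually.of_forall fun g => ?_
    rw [Real.norm_eq_abs, abs_of_pos (Real.exp_pos _), Real.exp_le_one_iff, neg_nonpos]
    refine div_nonneg (Finset.sum_nonneg fun a _ => ?_) (by norm_num)
    unfold TH618.YM.rs
    refine mul_nonneg (by positivity) (Finset.sum_nonneg fun ξ _ => ?_)
    exact mul_nonneg (wK_bd hd K _).1 (SS_nonneg _ _ _ _)
  · refine Filter.Eventually.of_forall fun g => ?_
    refine (Real.continuous_exp.tendsto _).comp (Tendsto.neg (Tendsto.div_const ?_ 2))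
    exact tendsto_finsetSum _ fun a _ => (rs_lim hd K hp _).comp hφ

lemma SS_om_int (hd : 3 ≤ d) {x : ι → Fin d → ℤ} {p : ι → List (Fin d × Bool)} {R : ℕ}
    (hp : ∀ i, (p i).length ≤ R) (t : ι → ℝ) :
    Integrable (fun u => SS x p t u / om u) (mu1 d) := by
  have h1 := (inv_int hd).const_mul (((∑ i, |t i|) * R) ^ 2)
  refine h1.mono' ((SS_cont x p t).measurable.div om_cont.measurable).aestronglyMeasurable
    (Filter.Eventually.of_forall fun u => ?_)
  have h2 := SS_le (x := x) hp t u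
  have h3 := SS_nonneg x p t u
  have h4 := om_nonneg u
  rw [Real.norm_eq_abs, abs_of_nonneg (div_nonneg h3 h4), div_eq_mul_one_div]
  exact mul_le_mul_of_nonneg_right h2 (by positivity)

lemma wK_int (hd : 0 < d) (K : ℕ) {x : ι → Fin d → ℤ} {p : ι → List (Fin d × Bool)} {R : ℕ}
    (hp : ∀ i, (p i).length ≤ R) (t : ι → ℝ) :
    Integrable (fun u => wK d K (pp u) * SS x p t u) (mu1 d) := by
  have hc : Continuous fun u : Fin d → ℝ => wK d K (pp u) * SS x p t u :=
    ((wK_cont K).comp pp_cont).mul (SS_cont x p t)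
  refine Integrable.of_bound (C := K * ((∑ i, |t i|) * R) ^ 2) hc.aestronglyMeasurable
    (Filter.Eventually.of_forall fun u => ?_)
  have h1 := wK_bd hd K u
  have h2 := SS_le (x := x) hp t u
  have h3 := SS_nonneg x p t u
  rw [Real.norm_eq_abs, abs_of_nonneg (mul_nonneg h1.1 h3)]
  exact mul_le_mul h1.2 h2 h3 (Nat.cast_nonneg _)

lemma wK_om_diff (hd : 3 ≤ d) {K : ℕ} (hK : 1 ≤ K) {x : ι → Fin d → ℤ}
    {p : ι → List (Fin d × Bool)} {R : ℕ} (hp : ∀ i, (p i).length ≤ R) (t : ι → ℝ) :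
    |(∫ u, wK d K (pp u) * SS x p t u ∂(mu1 d)) - ∫ u, SS x p t u / om u ∂(mu1 d)| ≤
      ((∑ i, |t i|) * R) ^ 2 * (4 * ch0 d / Real.sqrt K) := by
  have hd0 : 0 < d := by omega
  rw [← integral_sub (wK_int hd0 K hp t) (SS_om_int hd hp t)]
  refine (abs_integral_le_integral_abs).trans ?_
  have h1 := (tail_int hd hK)
  have h2 : ∫ u, |wK d K (pp u) * SS x p t u - SS x p t u / om u| ∂(mu1 d) ≤
      ∫ u, (((∑ i, |t i|) * R) ^ 2 * 2) * (pp u ^ K / om u) ∂(mu1 d) := by
    refine integral_mono_ae ((wK_int hd0 K hp t).sub (SS_om_int hd hp t)).abs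
      (h1.1.const_mul _) ?_
    filter_upwards [om_pos_ae (d := d) hd0] with u hu
    have h3 := wK_diff hd0 K hu
    have h4 := SS_le (x := x) hp t u
    have h5 := SS_nonneg x p t u
    have h6 := tail_nonneg K u
    have e1 : wK d K (pp u) * SS x p t u - SS x p t u / om u =
        SS x p t u * (wK d K (pp u) - 1 / om u) := by ring
    rw [e1, abs_mul, abs_of_nonneg h5]
    calc SS x p t u * |wK d K (pp u) - 1 / om u| ≤
        ((∑ i, |t i|) * R) ^ 2 * (2 * (pp u ^ K / om u)) :=
          mul_le_mul h4 h3 (abs_nonneg _) (by positivity)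
      _ = _ := by ring
  refine h2.trans ?_
  rw [integral_const_mul]
  have h3 := mul_le_mul_of_nonneg_left h1.2
    (show 0 ≤ ((∑ i, |t i|) * (R : ℝ)) ^ 2 * 2 by positivity)
  refine h3.trans (le_of_eq (by ring))

lemma tg_sum_sq {s : ι → ℝ} (hs : ∀ i, 0 ≤ s i) (g : ι × Fin n → ℝ) :
    ∑ a, (∑ i, |tg s g i a|) ^ 2 ≤ Fintype.card ι * ∑ i, ∑ a, s i * g (i, a) ^ 2 := by
  rw [Finset.sum_comm (f := fun i a => s i * g (i, a) ^ 2), Finset.mul_sum]
  refine Finset.sum_le_sum fun a _ => ?_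
  have e1 := sq_sum_le_card_mul_sum_sq (s := (Finset.univ : Finset ι))
    (f := fun i => |tg s g i a|)
  rw [Finset.card_univ] at e1
  refine e1.trans (le_of_eq ?_)
  congr 1
  refine Finset.sum_congr rfl fun i _ => ?_
  rw [sq_abs]
  unfold tg
  rw [mul_pow, Real.sq_sqrt (hs i)]

/-- the quadratic form is continuous in the Gaussian variables -/
lemma quad_meas (hd : 3 ≤ d) (x : ι → Fin d → ℤ) (p : ι → List (Fin d × Bool)) (s : ι → ℝ)
    (a : Fin n) : Continuous fun g : ι × Fin n → ℝ =>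
      ∫ u, SS x p (fun i => tg s g i a) u / om u ∂(mu1 d) := by
  obtain ⟨R, hR⟩ : ∃ R : ℕ, ∀ i, (p i).length ≤ R :=
    ⟨∑ i, (p i).length, fun i => Finset.single_le_sum (f := fun i => (p i).length)
      (fun _ _ => Nat.zero_le _) (Finset.mem_univ i)⟩
  rw [continuous_iff_continuousAt]
  intro g0
  obtain ⟨r, hr⟩ : ∃ r : ℝ, r = (∑ i, |tg s g0 i a|) + 1 := ⟨_, rfl⟩
  have hcont : Continuous fun g : ι × Fin n → ℝ => ∑ i, |tg s g i a| := by
    unfold tg
    exact continuous_finsetSum _ fun i _ => (continuous_const.mul (continuous_apply (i, a))).abs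
  have hev : ∀ᶠ g in 𝓝 g0, ∑ i, |tg s g i a| ≤ r := by
    have h1 := (hcont.tendsto g0).eventually (Iio_mem_nhds
      (show ∑ i, |tg s g0 i a| < r by rw [hr]; linarith))
    exact h1.mono fun g hg => (show ∑ i, |tg s g i a| < r from hg).le
  refine continuousAt_of_dominated (bound := fun u => (r * R) ^ 2 * (1 / om u)) ?_ ?_ ?_ ?_
  · exact Filter.Eventually.of_forall fun g => (SS_om_int hd hR _).aestronglyMeasurable
  · filter_upwards [hev] with g hg
    refine Filter.Eventually.of_forall fun u => ?_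
    have h2 := SS_le (x := x) hR (fun i => tg s g i a) u
    have h3 := SS_nonneg x p (fun i => tg s g i a) u
    have h4 := om_nonneg u
    rw [Real.norm_eq_abs, abs_of_nonneg (div_nonneg h3 h4), div_eq_mul_one_div]
    refine mul_le_mul_of_nonneg_right (h2.trans ?_) (by positivity)
    refine pow_le_pow_left₀ (mul_nonneg (Finset.sum_nonneg fun i _ => abs_nonneg _)
      (Nat.cast_nonneg _)) (mul_le_mul_of_nonneg_right hg (Nat.cast_nonneg _)) 2
  · exact (inv_int hd).const_mul _
  · exact Filter.Eventually.of_forall fun u =>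
      ((SS_tcont x p s a u).div_const _).continuousAt

/-- removal of the truncation -/
lemma DK_DD (hd : 3 ≤ d) {K : ℕ} (hK : 1 ≤ K) {x : ι → Fin d → ℤ}
    {p : ι → List (Fin d × Bool)} {R : ℕ} (hp : ∀ i, (p i).length ≤ R) {s : ι → ℝ}
    (hs : ∀ i, 0 ≤ s i) :
    |DK d n K x p s - DD d n x p s| ≤
      Fintype.card ι * (n * ∑ i, s i) * (R : ℝ) ^ 2 * (2 * ch0 d / Real.sqrt K) := by
  have hd0 : 0 < d := by omega
  have hc0 := ch0_pos d
  have iK : Integrable (fun g : ι × Fin n → ℝ => Real.exp (-((∑ a, ∫ u, wK d K (pp u) *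
      SS x p (fun i => tg s g i a) u ∂(mu1 d)) / 2))) (gm (ι × Fin n)) := by
    refine Integrable.of_bound (C := 1) ?_ (Filter.Eventually.of_forall fun g => ?_)
    · refine aestronglyMeasurable_of_tendsto_ae atTop
        (f := fun (l : ℕ) (g : ι × Fin n → ℝ) => Real.exp (-((∑ a, TH618.YM.rs l fun u =>
          wK d K (pp u) * SS x p (fun i => tg s g i a) u) / 2)))
        (fun l => (DT_int hd0 l K x p s).aestronglyMeasurable)
        (Filter.Eventually.of_forall fun g => ?_)
      refine (Real.continuous_exp.tendsto _).comp (Tendsto.neg (Tendsto.div_const ?_ 2))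
      exact tendsto_finsetSum _ fun a _ => rs_lim hd0 K hp _
    · rw [Real.norm_eq_abs, abs_of_pos (Real.exp_pos _), Real.exp_le_one_iff, neg_nonpos]
      refine div_nonneg (Finset.sum_nonneg fun a _ => ?_) (by norm_num)
      exact integral_nonneg fun u => mul_nonneg (wK_bd hd0 K _).1 (SS_nonneg _ _ _ _)
  have iD : Integrable (fun g : ι × Fin n → ℝ => Real.exp (-((∑ a, ∫ u,
      SS x p (fun i => tg s g i a) u / om u ∂(mu1 d)) / 2))) (gm (ι × Fin n)) := by
    refine Integrable.of_bound (C := 1) ?_ (Filter.Eventually.of_forall fun g => ?_)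
    · refine Continuous.aestronglyMeasurable ?_
      exact Real.continuous_exp.comp ((continuous_finsetSum _ fun a _ =>
        quad_meas hd x p s a).div_const 2).neg
    · rw [Real.norm_eq_abs, abs_of_pos (Real.exp_pos _), Real.exp_le_one_iff, neg_nonpos]
      refine div_nonneg (Finset.sum_nonneg fun a _ => ?_) (by norm_num)
      exact integral_nonneg fun u => div_nonneg (SS_nonneg _ _ _ _) (om_nonneg u)
  unfold DK DD
  rw [← integral_sub iK iD]
  refine (abs_integral_le_integral_abs).trans ?_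
  have hi := tg_int (n := n) s
  have hpt : ∀ g : ι × Fin n → ℝ, |Real.exp (-((∑ a, ∫ u, wK d K (pp u) *
      SS x p (fun i => tg s g i a) u ∂(mu1 d)) / 2)) - Real.exp (-((∑ a, ∫ u,
      SS x p (fun i => tg s g i a) u / om u ∂(mu1 d)) / 2))| ≤
      (Fintype.card ι * (R : ℝ) ^ 2 * (2 * ch0 d / Real.sqrt K)) *
        ∑ i, ∑ a, s i * g (i, a) ^ 2 := by
    intro g
    refine (exp_neg_close (div_nonneg (Finset.sum_nonneg fun a _ =>
      integral_nonneg fun u => mul_nonneg (wK_bd hd0 K _).1 (SS_nonneg _ _ _ _)) (by norm_num))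
      (div_nonneg (Finset.sum_nonneg fun a _ =>
      integral_nonneg fun u => div_nonneg (SS_nonneg _ _ _ _) (om_nonneg u)) (by norm_num))).trans ?_
    rw [← sub_div, ← Finset.sum_sub_distrib, abs_div, abs_of_pos (by norm_num : (0 : ℝ) < 2)]
    have h1 : |∑ a, ((∫ u, wK d K (pp u) * SS x p (fun i => tg s g i a) u ∂(mu1 d)) -
        ∫ u, SS x p (fun i => tg s g i a) u / om u ∂(mu1 d))| ≤
        ∑ a, ((∑ i, |tg s g i a|) ^ 2 * ((R : ℝ) ^ 2 * (4 * ch0 d / Real.sqrt K))) := by
      refine (Finset.abs_sum_le_sum_abs _ _).trans (Finset.sum_le_sum fun a _ => ?_)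
      refine (wK_om_diff hd hK hp _).trans (le_of_eq ?_)
      ring
    rw [← Finset.sum_mul] at h1
    have h2 := tg_sum_sq hs g
    have h3 : (0 : ℝ) ≤ (R : ℝ) ^ 2 * (4 * ch0 d / Real.sqrt K) := by positivity
    have h4 := mul_le_mul_of_nonneg_right h2 h3
    have h5 := h1.trans h4
    calc _ ≤ Fintype.card ι * (∑ i, ∑ a, s i * g (i, a) ^ 2) *
          ((R : ℝ) ^ 2 * (4 * ch0 d / Real.sqrt K)) / 2 :=
          div_le_div_of_nonneg_right h5 (by norm_num)
      _ = _ := by ring
  refine (integral_mono_of_nonneg (Filter.Eventually.of_forall fun g => abs_nonneg _)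
    (hi.1.const_mul _) (Filter.Eventually.of_forall hpt)).trans (le_of_eq ?_)
  rw [integral_const_mul, hi.2]
  ring

end lims

end

end Pool.Agent.Run7.h630.L
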