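import Mathlib
import Pool.Agent.Run7.h630.L.Lim

/-!
# The determinant formula and the inductance matrix
-/

open MeasureTheory Matrix Filter ProbabilityTheory
open scoped Matrix.Norms.Frobenius ContDiff Topology Kronecker
open Pool.Agent.H906R3.YM hiding Pl
open Pool.Agent.W793.YM hiding rs
open Pool.Agent.TH618.YM

namespace Pool.Agent.Run7.h630.L

set_option linter.unusedSectionVars false
set_option linter.unusedVariables false

noncomputable section

variable {d n : ℕ}

/-- the spectral density of two loops -/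
def kk (x1 : Fin d → ℤ) (p1 : List (Fin d × Bool)) (x2 : Fin d → ℤ) (p2 : List (Fin d × Bool))
    (u : Fin d → ℝ) : ℝ := ∑ k, (cF x1 p1 k u * (starRingEnd ℂ) (cF x2 p2 k u)).re

lemma kk_cont (x1 : Fin d → ℤ) (p1 : List (Fin d × Bool)) (x2 : Fin d → ℤ)
    (p2 : List (Fin d × Bool)) : Continuous (kk x1 p1 x2 p2) := by
  unfold kk
  exact continuous_finsetSum _ fun k _ => Complex.continuous_re.comp
    ((cF_cont _ _ _).mul (Complex.continuous_conj.comp (cF_cont _ _ _)))

lemma kk_symm (x1 : Fin d → ℤ) (p1 : List (Fin d × Bool)) (x2 : Fin d → ℤ)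
    (p2 : List (Fin d × Bool)) (u : Fin d → ℝ) : kk x1 p1 x2 p2 u = kk x2 p2 x1 p1 u := by
  unfold kk
  refine Finset.sum_congr rfl fun k _ => ?_
  simp only [Complex.mul_re, Complex.conj_re, Complex.conj_im]
  ring

lemma kk_le (x1 : Fin d → ℤ) (p1 : List (Fin d × Bool)) (x2 : Fin d → ℤ)
    (p2 : List (Fin d × Bool)) (u : Fin d → ℝ) :
    |kk x1 p1 x2 p2 u| ≤ p1.length * p2.length := by
  unfold kk
  have h1 : ∀ k : Fin d, |(cF x1 p1 k u * (starRingEnd ℂ) (cF x2 p2 k u)).re| ≤
      ‖cF x1 p1 k u‖ * ‖cF x2 p2 k u‖ := fun k => by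
    refine (Complex.abs_re_le_norm _).trans (le_of_eq ?_)
    rw [norm_mul, RCLike.norm_conj]
  have h2 : ∑ k, ‖cF x1 p1 k u‖ * ‖cF x2 p2 k u‖ ≤
      (∑ k, ‖cF x1 p1 k u‖) * ∑ k, ‖cF x2 p2 k u‖ := by
    rw [Finset.sum_mul]
    refine Finset.sum_le_sum fun k _ => mul_le_mul_of_nonneg_left ?_ (norm_nonneg _)
    exact Finset.single_le_sum (f := fun k => ‖cF x2 p2 k u‖) (fun _ _ => norm_nonneg _)
      (Finset.mem_univ k)
  refine (Finset.abs_sum_le_sum_abs _ _).trans ((Finset.sum_le_sum fun k _ => h1 k).trans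
    (h2.trans ?_))
  exact mul_le_mul (cF_norm _ _ _) (cF_norm _ _ _) (Finset.sum_nonneg fun _ _ => norm_nonneg _)
    (Nat.cast_nonneg _)

lemma kk_int (hd : 3 ≤ d) (x1 : Fin d → ℤ) (p1 : List (Fin d × Bool)) (x2 : Fin d → ℤ)
    (p2 : List (Fin d × Bool)) : Integrable (fun u => kk x1 p1 x2 p2 u / om u) (mu1 d) := by
  have h1 := (inv_int hd).const_mul ((p1.length : ℝ) * p2.length)
  refine h1.mono' ((kk_cont x1 p1 x2 p2).measurable.div om_cont.measurable).aestronglyMeasurable
    (Filter.Eventually.of_forall fun u => ?_)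
  have h2 := kk_le x1 p1 x2 p2 u
  have h4 := om_nonneg u
  rw [Real.norm_eq_abs, abs_div, abs_of_nonneg h4, div_eq_mul_one_div]
  exact mul_le_mul_of_nonneg_right h2 (by positivity)

/-- the inductance -/
def kij (x1 : Fin d → ℤ) (p1 : List (Fin d × Bool)) (x2 : Fin d → ℤ)
    (p2 : List (Fin d × Bool)) : ℝ := ∫ u, kk x1 p1 x2 p2 u / om u ∂(mu1 d)

lemma kij_symm (x1 : Fin d → ℤ) (p1 : List (Fin d × Bool)) (x2 : Fin d → ℤ)
    (p2 : List (Fin d × Bool)) : kij x1 p1 x2 p2 = kij x2 p2 x1 p1 := by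
  unfold kij
  simp only [kk_symm x1 p1 x2 p2]

section quad

variable {ι : Type} [Fintype ι]

lemma SS_kk (x : ι → Fin d → ℤ) (p : ι → List (Fin d × Bool)) (t : ι → ℝ) (u : Fin d → ℝ) :
    SS x p t u = ∑ i, ∑ j, t i * t j * kk (x i) (p i) (x j) (p j) u := by
  unfold SS kk
  have h1 : ∀ k : Fin d, ‖∑ i, (t i : ℂ) * cF (x i) (p i) k u‖ ^ 2 =
      ∑ i, ∑ j, t i * t j * (cF (x i) (p i) k u * (starRingEnd ℂ) (cF (x j) (p j) k u)).re := by
    intro k
    have e1 : ((‖∑ i, (t i : ℂ) * cF (x i) (p i) k u‖ ^ 2 : ℝ) : ℂ) =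
        (∑ i, (t i : ℂ) * cF (x i) (p i) k u) *
          (starRingEnd ℂ) (∑ i, (t i : ℂ) * cF (x i) (p i) k u) := by
      rw [Complex.mul_conj, Complex.normSq_eq_norm_sq]
    have e2 := congrArg Complex.re e1
    rw [Complex.ofReal_re] at e2
    rw [e2, map_sum, Finset.sum_mul, Complex.re_sum]
    refine Finset.sum_congr rfl fun i _ => ?_
    rw [Finset.mul_sum, Complex.re_sum]
    refine Finset.sum_congr rfl fun j _ => ?_
    rw [map_mul, Complex.conj_ofReal]
    have e3 : (t i : ℂ) * cF (x i) (p i) k u * ((t j : ℂ) * (starRingEnd ℂ) (cF (x j) (p j) k u)) =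
        ((t i * t j : ℝ) : ℂ) * (cF (x i) (p i) k u * (starRingEnd ℂ) (cF (x j) (p j) k u)) := by
      push_cast; ring
    rw [e3, Complex.re_ofReal_mul]
  rw [Finset.sum_congr rfl fun k _ => h1 k, Finset.sum_comm]
  refine Finset.sum_congr rfl fun i _ => ?_
  rw [Finset.sum_comm]
  refine Finset.sum_congr rfl fun j _ => ?_
  rw [Finset.mul_sum]

lemma SS_quad (hd : 3 ≤ d) (x : ι → Fin d → ℤ) (p : ι → List (Fin d × Bool)) (t : ι → ℝ) :
    ∫ u, SS x p t u / om u ∂(mu1 d) = ∑ i, ∑ j, t i * t j * kij (x i) (p i) (x j) (p j) := by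
  have h1 : ∀ u, SS x p t u / om u =
      ∑ i, ∑ j, t i * t j * (kk (x i) (p i) (x j) (p j) u / om u) := by
    intro u
    rw [SS_kk, Finset.sum_div]
    refine Finset.sum_congr rfl fun i _ => ?_
    rw [Finset.sum_div]
    exact Finset.sum_congr rfl fun j _ => mul_div_assoc _ _ _
  have h2 : ∀ i j, Integrable (fun u => t i * t j * (kk (x i) (p i) (x j) (p j) u / om u))
      (mu1 d) := fun i j => (kk_int hd _ _ _ _).const_mul _
  simp only [h1]
  rw [integral_finsetSum _ fun i _ => integrable_finsetSum _ fun j _ => h2 i j]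
  refine Finset.sum_congr rfl fun i _ => ?_
  rw [integral_finsetSum _ fun j _ => h2 i j]
  refine Finset.sum_congr rfl fun j _ => ?_
  rw [integral_const_mul]
  rfl

variable [DecidableEq ι]

/-- the inductance matrix with the weights -/
def Am (x : ι → Fin d → ℤ) (p : ι → List (Fin d × Bool)) (s : ι → ℝ) : Matrix ι ι ℝ :=
  Matrix.of fun i j => Real.sqrt (s i) * kij (x i) (p i) (x j) (p j) * Real.sqrt (s j)

lemma Am_psd (hd : 3 ≤ d) (x : ι → Fin d → ℤ) (p : ι → List (Fin d × Bool)) (s : ι → ℝ) :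
    (Am x p s).PosSemidef := by
  refine Matrix.PosSemidef.of_dotProduct_mulVec_nonneg ?_ fun v => ?_
  · refine Matrix.IsHermitian.ext fun i j => ?_
    unfold Am
    simp only [Matrix.of_apply, star_trivial]
    rw [kij_symm]; ring
  · have h1 := SS_quad hd x p (fun i => v i * Real.sqrt (s i))
    have h2 : (0 : ℝ) ≤ ∫ u, SS x p (fun i => v i * Real.sqrt (s i)) u / om u ∂(mu1 d) :=
      integral_nonneg fun u => div_nonneg (SS_nonneg _ _ _ _) (om_nonneg u)
    rw [h1] at h2
    refine le_trans h2 (le_of_eq ?_)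
    unfold dotProduct mulVec dotProduct Am
    refine Finset.sum_congr rfl fun i _ => ?_
    rw [Finset.mul_sum]
    refine Finset.sum_congr rfl fun j _ => ?_
    simp only [Pi.star_apply, star_trivial, Matrix.of_apply]
    ring

lemma det_Am {s : ι → ℝ} (hs : ∀ i, 0 ≤ s i) (x : ι → Fin d → ℤ) (p : ι → List (Fin d × Bool)) :
    det (1 + Am x p s) = det (1 + Matrix.of fun i j => s i * kij (x i) (p i) (x j) (p j)) := by
  have h1 : Am x p s = (Matrix.diagonal (fun i => Real.sqrt (s i)) *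
      Matrix.of fun i j => kij (x i) (p i) (x j) (p j)) *
        Matrix.diagonal (fun i => Real.sqrt (s i)) := by
    ext i j
    rw [Matrix.mul_diagonal, Matrix.diagonal_mul]
    rfl
  rw [h1, Matrix.det_one_add_mul_comm]
  congr 2
  ext i j
  rw [← Matrix.mul_assoc, Matrix.diagonal_mul_diagonal, Matrix.diagonal_mul]
  simp only [Matrix.of_apply]
  rw [Real.mul_self_sqrt (hs i)]

/-- the Gaussian side is a power of a determinant -/
theorem DD_det (hd : 3 ≤ d) {s : ι → ℝ} (hs : ∀ i, 0 ≤ s i) (x : ι → Fin d → ℤ)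
    (p : ι → List (Fin d × Bool)) :
    0 < det (1 + Matrix.of fun i j => s i * kij (x i) (p i) (x j) (p j)) ∧
    DD d n x p s =
      (det (1 + Matrix.of fun i j => s i * kij (x i) (p i) (x j) (p j))) ^ (-(n : ℝ) / 2) := by
  have h0 := Am_psd hd x p s
  have hpos : 0 < det (1 + Am x p s) := by
    rw [det_one_add h0.isHermitian]
    exact Finset.prod_pos fun i _ => by have := h0.eigenvalues_nonneg i; linarith
  have h1 : DD d n x p s = 1 / Real.sqrt (det (1 + Am x p s) ^ n) := by
    rw [← gau_detn h0 n]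
    unfold DD
    refine integral_congr_ae (Filter.Eventually.of_forall fun g => ?_)
    simp only
    congr 3
    refine Finset.sum_congr rfl fun a _ => ?_
    rw [SS_quad hd]
    refine Finset.sum_congr rfl fun i _ => Finset.sum_congr rfl fun j _ => ?_
    unfold tg Am
    rw [Matrix.of_apply]
    ring
  rw [← det_Am hs]
  refine ⟨hpos, ?_⟩
  rw [h1]
  obtain ⟨D, hD⟩ : ∃ D, D = det (1 + Am x p s) := ⟨_, rfl⟩
  rw [← hD] at hpos ⊢
  rw [Real.sqrt_eq_rpow, ← Real.rpow_natCast, ← Real.rpow_mul hpos.le, one_div,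
    ← Real.rpow_neg hpos.le]
  congr 1
  ring

end quad

/-! ### the formula of Neumann -/

/-- the steps of a path: base point, direction and sense -/
def steps : (Fin d → ℤ) → List (Fin d × Bool) → List ((Fin d → ℤ) × Fin d × ℤ)
  | _, [] => []
  | x, (i, true) :: p => (x, i, 1) :: steps (x + Pi.single i 1) p
  | x, (i, false) :: p => (x - Pi.single i 1, i, -1) :: steps (x - Pi.single i 1) p

/-- the Green function -/
def green (z : Fin d → ℤ) : ℝ :=
  ∫ u, Real.cos (2 * Real.pi * ∑ i, (z i : ℝ) * u i) / om u ∂(mu1 d)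

lemma cF_steps (x : Fin d → ℤ) (p : List (Fin d × Bool)) (k : Fin d) (u : Fin d → ℝ) :
    cF x p k u = ((steps x p).map fun e => if k = e.2.1 then (e.2.2 : ℂ) * ph e.1 u else 0).sum := by
  induction p generalizing x with
  | nil => rfl
  | cons s p ih =>
    obtain ⟨i, s⟩ := s
    cases s with
    | true =>
      simp only [cF, steps, List.map_cons, List.sum_cons]
      rw [ih]
      simp
    | false =>
      simp only [cF, steps, List.map_cons, List.sum_cons]
      rw [ih]
      split_ifs <;> simp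

lemma ph_re (z w : Fin d → ℤ) (u : Fin d → ℝ) :
    (ph z u * (starRingEnd ℂ) (ph w u)).re =
      Real.cos (2 * Real.pi * ∑ i, ((z - w) i : ℝ) * u i) := by
  unfold ph
  rw [← Complex.exp_conj, ← Complex.exp_add]
  have h1 : ((2 * Real.pi * ∑ i, (z i : ℝ) * u i : ℝ) : ℂ) * Complex.I +
      (starRingEnd ℂ) (((2 * Real.pi * ∑ i, (w i : ℝ) * u i : ℝ) : ℂ) * Complex.I) =
      ((2 * Real.pi * ∑ i, ((z - w) i : ℝ) * u i : ℝ) : ℂ) * Complex.I := by
    rw [map_mul, Complex.conj_I, Complex.conj_ofReal]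
    have h2 : ∑ i, ((z - w) i : ℝ) * u i = ∑ i, (z i : ℝ) * u i - ∑ i, (w i : ℝ) * u i := by
      rw [← Finset.sum_sub_distrib]
      refine Finset.sum_congr rfl fun i _ => ?_
      rw [Pi.sub_apply]; push_cast; ring
    rw [h2]
    push_cast
    ring
  rw [h1, Complex.exp_ofReal_mul_I_re]

lemma kk_steps (x1 : Fin d → ℤ) (p1 : List (Fin d × Bool)) (x2 : Fin d → ℤ)
    (p2 : List (Fin d × Bool)) (u : Fin d → ℝ) :
    kk x1 p1 x2 p2 u = ((steps x1 p1).map fun e => ((steps x2 p2).map fun e' =>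
      if e.2.1 = e'.2.1 then ((e.2.2 * e'.2.2 : ℤ) : ℝ) *
        Real.cos (2 * Real.pi * ∑ i, ((e.1 - e'.1) i : ℝ) * u i) else 0).sum).sum := by
  unfold kk
  simp only [cF_steps]
  generalize steps x1 p1 = l1
  generalize steps x2 p2 = l2
  induction l1 with
  | nil => simp
  | cons e l1 ih =>
    simp only [List.map_cons, List.sum_cons, add_mul, Complex.add_re, Finset.sum_add_distrib]
    rw [ih]
    congr 1
    clear ih
    induction l2 with
    | nil => simp
    | cons e' l2 ih =>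
      simp only [List.map_cons, List.sum_cons, map_add, mul_add, Complex.add_re,
        Finset.sum_add_distrib]
      rw [ih]
      congr 1
      by_cases h : e.2.1 = e'.2.1
      · rw [if_pos h, Finset.sum_eq_single e.2.1]
        · rw [if_pos rfl, if_pos h, map_mul, ← ph_re]
          have h2 : (starRingEnd ℂ) ((e'.2.2 : ℤ) : ℂ) = ((e'.2.2 : ℤ) : ℂ) :=
            map_intCast (starRingEnd ℂ) _
          rw [h2]
          have h3 : ((e.2.2 : ℤ) : ℂ) * ph e.1 u * (((e'.2.2 : ℤ) : ℂ) *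
              (starRingEnd ℂ) (ph e'.1 u)) = (((e.2.2 * e'.2.2 : ℤ) : ℝ) : ℂ) *
              (ph e.1 u * (starRingEnd ℂ) (ph e'.1 u)) := by
            push_cast; ring
          rw [h3, Complex.re_ofReal_mul]
        · intro k _ hk
          rw [if_neg hk]; simp
        · intro h'; exact absurd (Finset.mem_univ _) h'
      · rw [if_neg h]
        refine Finset.sum_eq_zero fun k _ => ?_
        by_cases h1 : k = e.2.1
        · rw [if_neg (fun h2 : k = e'.2.1 => h (h1.symm.trans h2))]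
          simp
        · rw [if_neg h1]; simp

lemma list_int {α : Type*} (l : List α) (F : α → (Fin d → ℝ) → ℝ)
    (hF : ∀ a ∈ l, Integrable (F a) (mu1 d)) :
    Integrable (fun u => (l.map fun a => F a u).sum) (mu1 d) ∧
      ∫ u, (l.map fun a => F a u).sum ∂(mu1 d) = (l.map fun a => ∫ u, F a u ∂(mu1 d)).sum := by
  induction l with
  | nil => simp
  | cons a l ih =>
    simp only [List.map_cons, List.sum_cons]
    obtain ⟨i1, i2⟩ := ih fun b hb => hF b (List.mem_cons_of_mem _ hb)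
    have h1 := hF a List.mem_cons_self
    refine ⟨h1.add i1, ?_⟩
    rw [integral_add h1 i1, i2]

lemma cos_om_int (hd : 3 ≤ d) (z : Fin d → ℤ) : Integrable (fun u : Fin d → ℝ =>
    Real.cos (2 * Real.pi * ∑ i, (z i : ℝ) * u i) / om u) (mu1 d) := by
  have h1 := inv_int hd
  have hc : Continuous fun u : Fin d → ℝ => Real.cos (2 * Real.pi * ∑ i, (z i : ℝ) * u i) :=
    Real.continuous_cos.comp (continuous_const.mul (continuous_finsetSum _ fun i _ =>
      continuous_const.mul (continuous_apply i)))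
  refine h1.mono' (hc.measurable.div om_cont.measurable).aestronglyMeasurable
    (Filter.Eventually.of_forall fun u => ?_)
  rw [Real.norm_eq_abs, abs_div, abs_of_nonneg (om_nonneg u)]
  exact div_le_div_of_nonneg_right (Real.abs_cos_le_one _) (om_nonneg u)

/-- the formula of Neumann for the inductance -/
theorem kij_eq (hd : 3 ≤ d) (x1 : Fin d → ℤ) (p1 : List (Fin d × Bool)) (x2 : Fin d → ℤ)
    (p2 : List (Fin d × Bool)) :
    kij x1 p1 x2 p2 = ((steps x1 p1).map fun e => ((steps x2 p2).map fun e' =>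
      if e.2.1 = e'.2.1 then ((e.2.2 * e'.2.2 : ℤ) : ℝ) * green (e.1 - e'.1) else 0).sum).sum := by
  unfold kij
  obtain ⟨F, hF⟩ : ∃ F : ((Fin d → ℤ) × Fin d × ℤ) → ((Fin d → ℤ) × Fin d × ℤ) →
      (Fin d → ℝ) → ℝ, F = fun e e' u => (if e.2.1 = e'.2.1 then ((e.2.2 * e'.2.2 : ℤ) : ℝ) *
        Real.cos (2 * Real.pi * ∑ i, ((e.1 - e'.1) i : ℝ) * u i) else 0) / om u := ⟨_, rfl⟩
  have hI : ∀ e e', Integrable (F e e') (mu1 d) ∧ ∫ u, F e e' u ∂(mu1 d) =
      if e.2.1 = e'.2.1 then ((e.2.2 * e'.2.2 : ℤ) : ℝ) * green (e.1 - e'.1) else 0 := by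
    intro e e'
    rw [hF]
    by_cases h : e.2.1 = e'.2.1
    · simp only [if_pos h, mul_div_assoc]
      refine ⟨(cos_om_int hd _).const_mul _, ?_⟩
      rw [integral_const_mul]
      rfl
    · simp only [if_neg h, zero_div]
      simp
  have h1 : ∀ u, kk x1 p1 x2 p2 u / om u = ((steps x1 p1).map fun e =>
      ((steps x2 p2).map fun e' => F e e' u).sum).sum := by
    intro u
    rw [kk_steps, hF, div_eq_mul_inv, ← List.sum_map_mul_right]
    congr 1
    refine List.map_congr_left fun e _ => ?_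
    rw [← List.sum_map_mul_right]
    congr 1
  simp only [h1]
  have h2 := list_int (steps x1 p1) (fun e u => ((steps x2 p2).map fun e' => F e e' u).sum)
    (fun e _ => (list_int (steps x2 p2) (F e) fun e' _ => (hI e e').1).1)
  rw [h2.2]
  congr 1
  refine List.map_congr_left fun e _ => ?_
  rw [(list_int (steps x2 p2) (F e) fun e' _ => (hI e e').1).2]
  congr 1
  exact List.map_congr_left fun e' _ => (hI e e').2

end

end Pool.Agent.Run7.h630.L
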