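import Mathlib
import Pool.Agent.Run7.h630.L.Det
import Pool.Agent.Run7.h630.Tile
import Pool.Agent.Run7.h630.Dbl

/-!
# Moments of the loops
-/

open MeasureTheory Matrix Filter
open scoped Matrix.Norms.Frobenius ContDiff Topology Nat
open Pool.Agent.H906R3.YM hiding Pl
open Pool.Agent.W793.YM hiding rs
open Pool.Agent.TH618.YM

namespace Pool.Agent.Run7.h630.L

set_option linter.unusedSectionVars false
set_option linter.unusedVariables false

noncomputable section

variable {G : Type*} [Group G] [TopologicalSpace G] [IsTopologicalGroup G] [CompactSpace G]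
  [SecondCountableTopology G] [MeasurableSpace G] [BorelSpace G] (μ : Measure G)
  [IsProbabilityMeasure μ] [μ.IsMulLeftInvariant] [μ.IsMulRightInvariant] [μ.IsInvInvariant]
  {N n : ℕ} (L : LD G N n) {d l : ℕ} [NeZero l]

/-- the sum of the deviations of a list of plaquettes -/
def pls (ls : List (St d l × Fin d × Fin d)) (U : Ed d l → G) : ℝ :=
  (ls.map fun e => dv L (plqT U e.1 e.2.1 e.2.2)).sum

/-- domination by the deviations of plaquettes -/
def Dom (F : (Ed d l → G) → ℝ) (c : ℕ) : Prop :=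
  ∃ ls : List (St d l × Fin d × Fin d), (∀ e ∈ ls, e.2.1 ≠ e.2.2) ∧ ls.length ≤ c ∧
    ∀ U, F U ≤ pls L ls U

variable {L}

lemma pls_nonneg (ls : List (St d l × Fin d × Fin d)) (U : Ed d l → G) : 0 ≤ pls L ls U := by
  unfold pls
  refine List.sum_nonneg fun x hx => ?_
  obtain ⟨e, -, rfl⟩ := List.mem_map.1 hx
  exact dv_nonneg _

lemma Dom.mono {F H : (Ed d l → G) → ℝ} {a b : ℕ} (hH : Dom L H a) (h : ∀ U, F U ≤ H U)
    (hab : a ≤ b) : Dom L F b := by
  obtain ⟨ls, h1, h2, h3⟩ := hH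
  exact ⟨ls, h1, h2.trans hab, fun U => (h U).trans (h3 U)⟩

lemma Dom.zero {F : (Ed d l → G) → ℝ} (h : ∀ U, F U ≤ 0) : Dom L F 0 :=
  ⟨[], by simp, le_rfl, fun U => by simpa [pls] using h U⟩

lemma Dom.add {F H : (Ed d l → G) → ℝ} {a b : ℕ} (hF : Dom L F a) (hH : Dom L H b) :
    Dom L (fun U => F U + H U) (a + b) := by
  obtain ⟨ls, h1, h2, h3⟩ := hF
  obtain ⟨lt, k1, k2, k3⟩ := hH
  refine ⟨ls ++ lt, fun e he => ?_, ?_, fun U => ?_⟩
  · rcases List.mem_append.1 he with h | h
    · exact h1 e h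
    · exact k1 e h
  · rw [List.length_append]; omega
  · have h4 : pls L (ls ++ lt) U = pls L ls U + pls L lt U := by
      unfold pls; rw [List.map_append, List.sum_append]
    rw [h4]
    exact add_le_add (h3 U) (k3 U)

lemma Dom.plq {x : St d l} {j k : Fin d} (h : j ≠ k) :
    Dom L (fun U : Ed d l → G => dv L (plqT U x j k)) 1 :=
  ⟨[(x, j, k)], by simpa using h, by simp, fun U => by simp [pls]⟩

lemma Dom.sum {ι : Type*} (s : Finset ι) {F : ι → (Ed d l → G) → ℝ} {a : ℕ}
    (h : ∀ i ∈ s, Dom L (F i) a) : Dom L (fun U => ∑ i ∈ s, F i U) (s.card * a) := by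
  classical
  induction s using Finset.induction_on with
  | empty =>
    have h0 : Dom L (fun U : Ed d l → G => ∑ i ∈ (∅ : Finset ι), F i U) 0 :=
      Dom.zero fun U => by rw [Finset.sum_empty]
    exact h0.mono (fun U => le_rfl) (Nat.zero_le _)
  | insert i s hi ih =>
    have h1 := (h i (Finset.mem_insert_self i s)).add
      (ih fun j hj => h j (Finset.mem_insert_of_mem hj))
    refine h1.mono (fun U => by rw [Finset.sum_insert hi]) ?_
    rw [Finset.card_insert_of_notMem hi, add_mul, one_mul, add_comm]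

lemma rp_step (u : Pt d → Fin d → G) (v : Pt d) (j k : Fin d) (q : ℕ) :
    YM.rp u v j k (q + 1) = u v j * YM.rp u (v + es j) j k q * (u v j)⁻¹ * plq u v j k := by
  unfold YM.rp plq
  have e1 : v + (q + 1) • es j = v + es j + q • es j := by
    rw [succ_nsmul', add_assoc]
  have e2 : YM.lnp u j (q + 1) (v + es k) =
      u (v + es k) j * YM.lnp u j q (v + es j + es k) := by
    show u (v + es k) j * YM.lnp u j q (v + es k + es j) = _
    rw [add_right_comm v (es k) (es j)]
  have e3 : YM.lnp u j (q + 1) v = u v j * YM.lnp u j q (v + es j) := rfl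
  rw [e1, e2, e3]
  group

lemma Dom_rp (j k : Fin d) (hjk : j ≠ k) (q : ℕ) (v : Pt d) :
    Dom L (fun U : Ed d l → G => dv L (YM.rp (uu U) v j k q)) q := by
  induction q generalizing v with
  | zero =>
    refine Dom.zero fun U => ?_
    have : YM.rp (uu U) v j k 0 = 1 := by
      unfold YM.rp YM.lnp
      simp
    rw [this, dv_one]
  | succ q ih =>
    refine ((ih (v + es j)).add (Dom.plq (x := ct l v) hjk)).mono (fun U => ?_) le_rfl
    rw [rp_step]
    refine (dv_mul _ _).trans ?_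
    rw [dv_conj, plq_uu]

lemma Dom_tlT {x : Fin d → ℤ} {B : ℕ} (h : ∀ i, 0 ≤ x i ∧ x i ≤ B) (hB : B + 1 < l) (k : Fin d) :
    Dom L (fun U : Ed d l → G => dv L (tlT U (zt l x) k)) (d * B) := by
  have hw : ∀ i', ((wv (zt l x) i' : ℕ) : ℤ) = x i' := wv_zt fun i' =>
    ⟨(h i').1, by have := h i'; omega⟩
  have hwB : ∀ i', wv (zt l x) i' ≤ B := fun i' => by have := hw i'; have := h i'; omega
  have h1 : Dom L (fun U : Ed d l → G => ∑ j : Fin d, if j < k then
      dv L (YM.rp (uu U) (YM.ctb (wv (zt l x)) (j + 1)) j k (wv (zt l x) j)) else 0)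
      ((Finset.univ : Finset (Fin d)).card * B) := by
    refine Dom.sum Finset.univ fun j _ => ?_
    by_cases hj : j < k
    · simp only [if_pos hj]
      exact (Dom_rp j k hj.ne _ _).mono (fun U => le_rfl) (hwB j)
    · simp only [if_neg hj]
      exact (Dom.zero fun U => le_rfl).mono (fun U => le_rfl) (Nat.zero_le _)
  rw [Finset.card_univ, Fintype.card_fin] at h1
  refine h1.mono (fun U => ?_) le_rfl
  rw [tlT_eq U (by have := hwB k; omega)]
  exact YM.dv_tl_strips (uu U) _ k

/-- the holonomies are dominated by few plaquettes -/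
lemma Dom_hP {B : ℕ} (hB : B + 1 < l) (p : List (Fin d × Bool)) (x : Fin d → ℤ)
    (h : InB 0 B x p) :
    Dom L (fun U : Ed d l → G => dv L (hP U x p)) (p.length * (d * B)) := by
  induction p generalizing x with
  | nil =>
    refine (Dom.zero fun U => ?_).mono (fun U => le_rfl) (Nat.zero_le _)
    rw [hP_nil, dv_one]
  | cons s p ih =>
    obtain ⟨i, s⟩ := s
    have hlen : (((i, s) :: p).length * (d * B)) = d * B + p.length * (d * B) := by
      rw [List.length_cons]; ring
    rw [hlen]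
    cases s with
    | true =>
      have h1 := (Dom_tlT (L := L) (fun i => by simpa using h.1 i) hB i).add (ih _ h.2)
      refine h1.mono (fun U => ?_) le_rfl
      rw [hP_true]
      exact dv_mul _ _
    | false =>
      have h0 : ∀ i', 0 ≤ (x - (Pi.single i 1 : Fin d → ℤ)) i' ∧
          (x - (Pi.single i 1 : Fin d → ℤ)) i' ≤ B := fun i' => by
        have := h.2.start i'
        rwa [Pi.zero_apply, zero_add] at this
      have h1 := (Dom_tlT (L := L) h0 hB i).add (ih _ h.2)
      refine h1.mono (fun U => ?_) le_rfl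
      rw [hP_false]
      refine (dv_mul _ _).trans ?_
      rw [dv_inv]

section mom

variable {m : ℕ} [NeZero m]

/-- the moments of a plaquette -/
lemma plq_mom (hm : 2 ≤ m) {β : ℝ} (hβ : 0 < β) {i j : Fin d} (hij : i ≠ j)
    (x : Fin d → ZMod (2 * m)) (k : ℕ) :
    EX μ L β (fun U : Ed d (2 * m) → G => dv L (plqT U x i j) ^ (2 * k)) ≤
      (4 / β) ^ k * k ! * YM.DD N ^ 2 := by
  have hwc : Continuous fun U : Ed d (2 * m) → G => we L (plqT U x i j) :=
    we_cont.comp (plqT_cont x i j)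
  have h1 : ∀ U : Ed d (2 * m) → G, dv L (plqT U x i j) ^ (2 * k) ≤
      ((4 / β) ^ k * k !) * Real.exp (β / 2 * we L (plqT U x i j)) := by
    intro U
    have h3 : 0 ≤ β / 2 * we L (plqT U x i j) := mul_nonneg (by positivity) (we_nonneg _)
    have h4 := Real.pow_div_factorial_le_exp (β / 2 * we L (plqT U x i j)) h3 k
    have h5 : (0 : ℝ) < (k ! : ℝ) := by exact_mod_cast Nat.factorial_pos k
    rw [div_le_iff₀ h5] at h4
    rw [pow_mul, dv_sq]
    calc (2 * we L (plqT U x i j)) ^ k = (4 / β) ^ k * (β / 2 * we L (plqT U x i j)) ^ k := by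
          rw [← mul_pow]; congr 1; field_simp; ring
      _ ≤ (4 / β) ^ k * (Real.exp (β / 2 * we L (plqT U x i j)) * k !) :=
          mul_le_mul_of_nonneg_left h4 (by positivity)
      _ = _ := by ring
  have h2 := EX_mono μ (L := L) (β := β) (F := fun U : Ed d (2 * m) → G =>
    dv L (plqT U x i j) ^ (2 * k)) (H := fun U => ((4 / β) ^ k * k !) *
      Real.exp (β / 2 * we L (plqT U x i j))) ((dv_cont.comp (plqT_cont x i j)).pow (2 * k))
    (continuous_const.mul (Real.continuous_exp.comp (continuous_const.mul hwc))) h1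
  refine h2.trans ?_
  rw [EX_smul]
  exact mul_le_mul_of_nonneg_left (YM.plaq_exp μ hm hβ hij x) (by positivity)

/-- the moments of dominated functions -/
lemma Dom_mom (hm : 2 ≤ m) {β : ℝ} (hβ : 0 < β) {F : (Ed d (2 * m) → G) → ℝ} {c : ℕ}
    (hF : Dom L F c) (hc : Continuous F) (h0 : ∀ U, 0 ≤ F U) (k : ℕ) :
    EX μ L β (fun U => F U ^ (2 * (k + 1))) ≤
      (c : ℝ) ^ (2 * (k + 1)) * ((4 / β) ^ (k + 1) * (k + 1)! * YM.DD N ^ 2) := by
  obtain ⟨ls, h1, h2, h3⟩ := hF
  obtain ⟨Q, hQ⟩ : ∃ Q : ℝ, Q = (4 / β) ^ (k + 1) * (k + 1)! * YM.DD N ^ 2 := ⟨_, rfl⟩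
  have hQ0 : 0 ≤ Q := by rw [hQ]; positivity
  have hcl : (ls.length : ℝ) ≤ c := by exact_mod_cast h2
  have hpt : ∀ U, F U ^ (2 * (k + 1)) ≤ (c : ℝ) ^ (2 * k + 1) * ∑ i : Fin ls.length,
      dv L (plqT U ls[i].1 ls[i].2.1 ls[i].2.2) ^ (2 * (k + 1)) := by
    intro U
    have e1 : pls L ls U = ∑ i : Fin ls.length, dv L (plqT U ls[i].1 ls[i].2.1 ls[i].2.2) := by
      unfold pls
      exact (Fin.sum_univ_fun_getElem ls fun e => dv L (plqT U e.1 e.2.1 e.2.2)).symm
    have e2 := pow_le_pow_left₀ (h0 U) (h3 U) (2 * k + 1 + 1)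
    rw [e1] at e2
    rcases Nat.eq_zero_or_pos ls.length with hz | hz
    · have : ls = [] := List.eq_nil_of_length_eq_zero hz
      subst this
      simp only [List.length_nil, Finset.univ_eq_empty, Finset.sum_empty] at e2 ⊢
      refine (le_of_eq (by ring_nf)).trans (e2.trans (by simp))
    · have e3 := pow_sum_div_card_le_sum_pow (s := (Finset.univ : Finset (Fin ls.length)))
        (f := fun i => dv L (plqT U ls[i].1 ls[i].2.1 ls[i].2.2)) (fun i _ => dv_nonneg _)
        (2 * k + 1)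
      rw [Finset.card_univ, Fintype.card_fin] at e3
      have e4 : (0 : ℝ) < (ls.length : ℝ) ^ (2 * k + 1) := by
        have : (0 : ℝ) < ls.length := by exact_mod_cast hz
        positivity
      rw [div_le_iff₀ e4] at e3
      have e5 : (ls.length : ℝ) ^ (2 * k + 1) ≤ (c : ℝ) ^ (2 * k + 1) :=
        pow_le_pow_left₀ (Nat.cast_nonneg _) hcl _
      have e6 : 0 ≤ ∑ i : Fin ls.length,
          dv L (plqT U ls[i].1 ls[i].2.1 ls[i].2.2) ^ (2 * k + 1 + 1) :=
        Finset.sum_nonneg fun i _ => pow_nonneg (dv_nonneg _) _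
      have e7 : 2 * (k + 1) = 2 * k + 1 + 1 := by ring
      rw [e7]
      refine (e2.trans e3).trans ?_
      rw [mul_comm]
      exact mul_le_mul_of_nonneg_right e5 e6
  have hcont : ∀ i : Fin ls.length, Continuous fun U : Ed d (2 * m) → G =>
      dv L (plqT U ls[i].1 ls[i].2.1 ls[i].2.2) ^ (2 * (k + 1)) :=
    fun i => (dv_cont.comp (plqT_cont _ _ _)).pow _
  have h4 := EX_mono μ (L := L) (β := β) (F := fun U => F U ^ (2 * (k + 1)))
    (H := fun U => (c : ℝ) ^ (2 * k + 1) * ∑ i : Fin ls.length,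
      dv L (plqT U ls[i].1 ls[i].2.1 ls[i].2.2) ^ (2 * (k + 1))) (hc.pow _)
    (continuous_const.mul (continuous_finsetSum _ fun i _ => hcont i)) hpt
  refine h4.trans ?_
  rw [EX_smul, EX_sum μ _ fun i _ => hcont i, ← hQ]
  have h5 : ∑ i : Fin ls.length, EX μ L β (fun U : Ed d (2 * m) → G =>
      dv L (plqT U ls[i].1 ls[i].2.1 ls[i].2.2) ^ (2 * (k + 1))) ≤
      ∑ _i : Fin ls.length, Q := by
    refine Finset.sum_le_sum fun i _ => ?_
    rw [hQ]
    exact plq_mom μ hm hβ (h1 _ (List.getElem_mem _)) _ _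
  rw [Finset.sum_const, Finset.card_univ, Fintype.card_fin, nsmul_eq_mul] at h5
  have h6 : (ls.length : ℝ) * Q ≤ c * Q := mul_le_mul_of_nonneg_right hcl hQ0
  calc _ ≤ (c : ℝ) ^ (2 * k + 1) * (c * Q) :=
        mul_le_mul_of_nonneg_left (h5.trans h6) (by positivity)
    _ = _ := by ring

/-- the moments of the loops -/
theorem wl_mom (hm : 2 ≤ m) {β : ℝ} (hβ : 0 < β) {B : ℕ} (hB : B + 1 < 2 * m)
    {p : List (Fin d × Bool)} {x : Fin d → ℤ} (h : InB 0 B x p) (hcl : dest x p = x) (k : ℕ) :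
    EX μ L β (fun U : Ed d (2 * m) → G => (β * wl L x p U) ^ (k + 1)) ≤
      (2 * (p.length * (d * B)) ^ 2 : ℝ) ^ (k + 1) * ((k + 1)! * YM.DD N ^ 2) := by
  have h1 := Dom_mom μ hm hβ (Dom_hP (L := L) hB p x h) (dv_cont.comp (hP_cont x p))
    (fun U => dv_nonneg _) k
  have h2 : (fun U : Ed d (2 * m) → G => (β * wl L x p U) ^ (k + 1)) = fun U =>
      (β / 2) ^ (k + 1) * dv L (hP U x p) ^ (2 * (k + 1)) := by
    funext U
    have g1 : dv L (hP U x p) = dv L (hol (lf U) x p) := by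
      unfold hP
      rw [hcl, dv_conj]
    rw [g1, pow_mul, dv_sq, ← mul_pow]
    unfold wl
    congr 1
    ring
  rw [h2, EX_smul]
  refine (mul_le_mul_of_nonneg_left h1 (by positivity)).trans (le_of_eq ?_)
  push_cast
  rw [pow_mul, ← mul_assoc, ← mul_assoc, ← mul_assoc, ← mul_pow, ← mul_pow]
  rw [mul_assoc]
  congr 2
  field_simp
  ring

end mom

end

end Pool.Agent.Run7.h630.L
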