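import Mathlib
import Pool.Agent.Run7.h630.L.Mom

/-!
# The Laplace functional of the loops in infinite volume
-/

open MeasureTheory Matrix Filter
open scoped Matrix.Norms.Frobenius ContDiff Topology
open Pool.Agent.H906R3.YM hiding Pl
open Pool.Agent.W793.YM hiding rs
open Pool.Agent.TH618.YM

namespace Pool.Agent.Run7.h630.L

set_option linter.unusedSectionVars false
set_option linter.unusedVariables false

noncomputable section

lemma InB_of {d : ℕ} {o : Fin d → ℤ} {B : ℕ} (p : List (Fin d × Bool)) (x : Fin d → ℤ)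
    (h : ∀ k, o k + p.length ≤ x k ∧ x k + p.length ≤ o k + B) : InB o B x p := by
  induction p generalizing x with
  | nil => exact fun i => by simpa using h i
  | cons s p ih =>
    obtain ⟨i, s⟩ := s
    have hl : ((((i, s) :: p).length : ℕ) : ℤ) = (p.length : ℤ) + 1 := by simp
    rw [hl] at h
    have h1 : ∀ k, o k ≤ x k ∧ x k ≤ o k + B := fun k => by have := h k; omega
    have h2 : ∀ k, -1 ≤ (Pi.single i 1 : Fin d → ℤ) k ∧ (Pi.single i 1 : Fin d → ℤ) k ≤ 1 := by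
      intro k
      by_cases hk : k = i
      · subst hk; simp
      · rw [Pi.single_eq_of_ne hk]; omega
    cases s with
    | true =>
      refine ⟨h1, ih _ fun k => ?_⟩
      rw [Pi.add_apply]
      have := h k; have := h2 k; omega
    | false =>
      refine ⟨h1, ih _ fun k => ?_⟩
      rw [Pi.sub_apply]
      have := h k; have := h2 k; omega

variable {G : Type*} [Group G] [TopologicalSpace G] [IsTopologicalGroup G] [CompactSpace G]
  [SecondCountableTopology G] [MeasurableSpace G] [BorelSpace G] (μ : Measure G)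
  [IsProbabilityMeasure μ] [μ.IsMulLeftInvariant] [μ.IsMulRightInvariant] [μ.IsInvInvariant]
  {N n : ℕ} {L : LD G N n} {d : ℕ}

lemma lf_tr {l : ℕ} [NeZero l] (w : Fin d → ℤ) (U : Ed d l → G) :
    lf (tr (zt l w) U) = fun e => lf U (e.1 + w, e.2) := by
  funext e
  unfold lf tr zt
  simp only
  congr 1
  refine Prod.ext ?_ rfl
  funext i
  simp

lemma wl_tr {l : ℕ} [NeZero l] (w : Fin d → ℤ) (x : Fin d → ℤ) (p : List (Fin d × Bool))
    (U : Ed d l → G) : wl L x p (tr (zt l w) U) = wl L (x + w) p U := by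
  unfold wl
  rw [lf_tr, hol_trans]

/-- The Laplace functional of the loops in infinite volume. -/
theorem loops_inf (hd : 3 ≤ d) {C0 : ℝ} (hC0 : 0 < C0)
    (hcar : ∀ g : G, dv L g ^ 2 ≤ ∑ a, fi L a g ^ 2 + C0 * dv L g ^ 4) :
    ∃ C : ℝ, 0 < C ∧ ∀ t : ℝ, 1 ≤ t → ∀ φ : ℕ → ℕ, Tendsto φ atTop atTop →
    ∀ Λ : ℕ, 1 ≤ Λ → ∀ (ι : Type) [Fintype ι] [DecidableEq ι] (o : Fin d → ℤ)
    (x : ι → Fin d → ℤ) (p : ι → List (Fin d × Bool)),
    (∀ i k, |x i k - o k| ≤ Λ) → (∀ i, (p i).length ≤ Λ) → (∀ i, dest (x i) (p i) = x i) →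
    ∀ s : ι → ℝ, (∀ i, 0 ≤ s i) → ∀ ℓ : ℝ,
    Tendsto (fun j => EX μ L (t ^ (32 * (d + 2))) (fun U : Ed d (2 * (φ j + 1)) → G =>
      Real.exp (-(t ^ (32 * (d + 2)) * ∑ i, s i * wl L (x i) (p i) U)))) atTop (𝓝 ℓ) →
      |ℓ - (det (1 + Matrix.of fun i j => s i * kij (x i) (p i) (x j) (p j))) ^
        (-(n : ℝ) / 2)| ≤
        C * ((1 + Fintype.card ι) * (1 + ∑ i, s i) * (Λ : ℝ) ^ 4 / t) := by
  obtain ⟨C1, hC1, h1⟩ := loops_tor μ (L := L) hd hC0 hcar
  have hc0 := ch0_pos d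
  refine ⟨4096 + 2 * (3 * C1 * 256 + n * 16 * (2 * ch0 d)), by positivity,
    fun t ht φ hφ Λ hΛ ι _ _ o x p hx hlen hcl s hs ℓ hℓ => ?_⟩
  obtain ⟨κ, hκ⟩ : ∃ κ, κ = 32 * (d + 2) := ⟨_, rfl⟩
  rw [← hκ] at hℓ
  have ht0 : 0 < t := by linarith
  have hβ0 : 0 < t ^ κ := by positivity
  obtain ⟨S, hS⟩ : ∃ S, S = ∑ i, s i := ⟨_, rfl⟩
  have hS0 : 0 ≤ S := by rw [hS]; exact Finset.sum_nonneg fun i _ => hs i
  have hΛ1 : (1 : ℝ) ≤ Λ := by exact_mod_cast hΛ
  have hcard : (0 : ℝ) ≤ Fintype.card ι := Nat.cast_nonneg _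
  obtain ⟨K, hK⟩ : ∃ K : ℕ, K = ⌊t ^ 4⌋₊ := ⟨_, rfl⟩
  have hK1 : 1 ≤ K := by
    rw [hK, Nat.one_le_floor_iff]
    exact one_le_pow₀ ht
  have hK1' : (1 : ℝ) ≤ K := by exact_mod_cast hK1
  have hKy : (K : ℝ) ≤ t ^ 4 := by rw [hK]; exact Nat.floor_le (by positivity)
  have hyK : t ^ 4 ≤ 2 * K := by
    have := (Nat.lt_floor_add_one (t ^ 4)).le
    rw [← hK] at this
    linarith
  obtain ⟨hdet, hDD⟩ := DD_det (n := n) hd hs x p
  rw [← hDD]
  have hDD01 : 0 ≤ DD d n x p s ∧ DD d n x p s ≤ 1 := by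
    rw [hDD]
    refine ⟨(Real.rpow_pos_of_pos hdet _).le, ?_⟩
    rw [← hDD]
    unfold DD
    have hint : ∀ g : ι × Fin n → ℝ, Real.exp (-((∑ a, ∫ u, SS x p (fun i => tg s g i a) u /
        om u ∂(mu1 d)) / 2)) ≤ 1 := fun g => by
      rw [Real.exp_le_one_iff, neg_nonpos]
      refine div_nonneg (Finset.sum_nonneg fun a _ => ?_) (by norm_num)
      exact integral_nonneg fun u => div_nonneg (SS_nonneg _ _ _ _) (om_nonneg u)
    calc _ ≤ ∫ g : ι × Fin n → ℝ, (1 : ℝ) ∂(gm (ι × Fin n)) :=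
          integral_mono_of_nonneg (Filter.Eventually.of_forall fun g => (Real.exp_pos _).le)
            (integrable_const _) (Filter.Eventually.of_forall hint)
      _ = 1 := by simp
  have hwl0 : ∀ (l : ℕ) (x : Fin d → ℤ) (p : List (Fin d × Bool)) (U : Ed d l → G),
      0 ≤ wl L x p U := fun l x p U => we_nonneg _
  have hcF : ∀ (l : ℕ) [NeZero l] (x : ι → Fin d → ℤ), Continuous fun U : Ed d l → G =>
      Real.exp (-(t ^ κ * ∑ i, s i * wl L (x i) (p i) U)) := fun l _ x =>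
    Real.continuous_exp.comp (continuous_const.mul (continuous_finsetSum _ fun i _ =>
        continuous_const.mul (wl_cont _ _))).neg
  have hℓ01 : 0 ≤ ℓ ∧ ℓ ≤ 1 := by
    constructor
    · exact ge_of_tendsto hℓ (Filter.Eventually.of_forall fun j =>
        EX_nonneg μ fun U => (Real.exp_pos _).le)
    · refine le_of_tendsto hℓ (Filter.Eventually.of_forall fun j => ?_)
      refine (EX_mono μ (hcF _ x) (continuous_const (y := (1 : ℝ))) fun U => ?_).trans
        (le_of_eq (EX_const μ 1))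
      rw [Real.exp_le_one_iff, neg_nonpos]
      exact mul_nonneg hβ0.le (Finset.sum_nonneg fun i _ => mul_nonneg (hs i) (hwl0 _ _ _ _))
  rw [← hS]
  have hmain : 0 ≤ (1 + Fintype.card ι) * (1 + S) * (Λ : ℝ) ^ 4 / t := by positivity
  rcases le_or_gt K (4 * Λ) with hKR | hRK
  · -- trivial case
    have e1 : |ℓ - DD d n x p s| ≤ 1 := by
      rw [abs_le]; constructor <;> linarith [hℓ01.1, hℓ01.2, hDD01.1, hDD01.2]
    have e2 : t ^ 4 ≤ 8 * Λ := by
      have : (K : ℝ) ≤ 4 * Λ := by exact_mod_cast hKR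
      linarith
    have e3 : t ≤ 4096 * (Λ : ℝ) ^ 4 := by
      have f1 : t ≤ t ^ 4 := le_self_pow₀ ht (by norm_num)
      have f2 : (Λ : ℝ) ≤ (Λ : ℝ) ^ 4 := le_self_pow₀ hΛ1 (by norm_num)
      linarith
    have e4 : 1 ≤ 4096 * ((1 + Fintype.card ι) * (1 + S) * (Λ : ℝ) ^ 4 / t) := by
      rw [mul_div_assoc', le_div_iff₀ ht0, one_mul]
      refine e3.trans ?_
      have f1 : (1 : ℝ) ≤ (1 + Fintype.card ι) * (1 + S) := by nlinarith
      have f2 : 0 ≤ (Λ : ℝ) ^ 4 := by positivity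
      nlinarith
    have e5 : 0 ≤ 2 * (3 * C1 * 256 + n * 16 * (2 * ch0 d)) := by positivity
    nlinarith [mul_nonneg e5 hmain]
  · -- main case
    obtain ⟨b, hb⟩ : ∃ b : ℝ, b = t ^ (8 * (d + 2)) := ⟨_, rfl⟩
    have hb1 : 1 ≤ b := by rw [hb]; exact one_le_pow₀ ht
    have hb0 : 0 < b := by linarith
    have hb4 : b ^ 4 = t ^ κ := by rw [hb, hκ, ← pow_mul]; congr 1; ring
    have hKb : (K : ℝ) ^ (2 * d + 4) ≤ b := by
      calc (K : ℝ) ^ (2 * d + 4) ≤ (t ^ 4) ^ (2 * d + 4) := pow_le_pow_left₀ (by positivity) hKy _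
        _ = b := by rw [hb, ← pow_mul]; congr 1; ring
    obtain ⟨w, hw⟩ : ∃ w : Fin d → ℤ, w = fun k => (K : ℤ) + 2 + 2 * Λ - o k := ⟨_, rfl⟩
    obtain ⟨q, hq⟩ : ∃ q : ℝ, q = 1 / Real.sqrt (Real.sqrt K) := ⟨_, rfl⟩
    have hsK : 1 ≤ Real.sqrt K := Real.one_le_sqrt.2 hK1'
    have hssK : 1 ≤ Real.sqrt (Real.sqrt K) := Real.one_le_sqrt.2 hsK
    have hssK' : Real.sqrt (Real.sqrt K) ≤ Real.sqrt K := by
      refine Real.sqrt_le_iff.2 ⟨by linarith, ?_⟩
      nlinarith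
    have hsK' : Real.sqrt K ≤ K := by
      refine Real.sqrt_le_iff.2 ⟨by linarith, ?_⟩
      nlinarith
    have hq0 : 0 ≤ q := by rw [hq]; positivity
    have hqt : q ≤ 2 / t := by
      rw [hq, div_le_div_iff₀ (by positivity) ht0, one_mul]
      have f1 : t ^ 4 ≤ (2 * Real.sqrt (Real.sqrt K)) ^ 4 := by
        have g1 : Real.sqrt (Real.sqrt K) ^ 4 = K := by
          rw [show (4 : ℕ) = 2 * 2 by norm_num, pow_mul, Real.sq_sqrt (Real.sqrt_nonneg _),
            Real.sq_sqrt (Nat.cast_nonneg _)]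
        rw [mul_pow, g1]
        linarith
      exact le_of_pow_le_pow_left₀ (by norm_num) (by positivity) f1
    have b1 : 1 / Real.sqrt (Real.sqrt K ^ (d - 2)) ≤ q := by
      rw [hq]
      refine one_div_le_one_div_of_le (by positivity) (Real.sqrt_le_sqrt ?_)
      exact le_self_pow₀ hsK (by omega)
    have b2 : (K : ℝ) ^ (2 * d + 3) / b ≤ q := by
      rw [hq, div_le_div_iff₀ hb0 (by positivity), one_mul]
      calc (K : ℝ) ^ (2 * d + 3) * Real.sqrt (Real.sqrt K) ≤ (K : ℝ) ^ (2 * d + 3) * K :=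
            mul_le_mul_of_nonneg_left (by linarith) (by positivity)
        _ = (K : ℝ) ^ (2 * d + 4) := by ring
        _ ≤ b := hKb
    have b3 : (K : ℝ) ^ (4 * d + 4) / b ^ 2 ≤ q := by
      rw [hq, div_le_div_iff₀ (by positivity) (by positivity), one_mul]
      calc (K : ℝ) ^ (4 * d + 4) * Real.sqrt (Real.sqrt K) ≤ (K : ℝ) ^ (4 * d + 4) * K :=
            mul_le_mul_of_nonneg_left (by linarith) (by positivity)
        _ = (K : ℝ) ^ (4 * d + 5) := by ring
        _ ≤ (K : ℝ) ^ (4 * d + 8) := pow_le_pow_right₀ hK1' (by omega)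
        _ = ((K : ℝ) ^ (2 * d + 4)) ^ 2 := by rw [← pow_mul]; congr 1; ring
        _ ≤ b ^ 2 := pow_le_pow_left₀ (by positivity) hKb 2
    have b4 : 1 / Real.sqrt K ≤ q := by
      rw [hq]
      exact one_div_le_one_div_of_le (by positivity) hssK'
    have hfin : ∀ j, 3 * K + 5 < 2 * (φ j + 1) →
        |EX μ L (t ^ κ) (fun U : Ed d (2 * (φ j + 1)) → G =>
          Real.exp (-(t ^ κ * ∑ i, s i * wl L (x i) (p i) U))) -
          DT n d (2 * (φ j + 1)) K x p s| ≤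
        3 * C1 * 256 * ((1 + Fintype.card ι) * (1 + S) * (Λ : ℝ) ^ 4) * q := by
      intro j hj
      have f1 := h1 b hb1 (φ j + 1) K (4 * Λ) (by omega) hRK hj ι (fun i => x i + w) p
        (fun i => InB_of _ _ fun k => by
          have g1 := hx i k
          have g2 := hlen i
          rw [abs_le] at g1
          show (K : ℤ) + 2 + (p i).length ≤ x i k + w k ∧
            x i k + w k + (p i).length ≤ (K : ℤ) + 2 + (4 * Λ : ℕ)
          rw [hw]
          push_cast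
          constructor <;> omega)
        (fun i => by rw [dest_trans, hcl]) (fun i => by have := hlen i; omega) s hs
      rw [DT_add, hb4, ← hS] at f1
      have f2 : EX μ L (t ^ κ) (fun U : Ed d (2 * (φ j + 1)) → G =>
          Real.exp (-(t ^ κ * ∑ i, s i * wl L (x i + w) (p i) U))) =
          EX μ L (t ^ κ) (fun U : Ed d (2 * (φ j + 1)) → G =>
          Real.exp (-(t ^ κ * ∑ i, s i * wl L (x i) (p i) U))) := by
        rw [← EX_tr μ (zt (2 * (φ j + 1)) w) (fun U : Ed d (2 * (φ j + 1)) → G =>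
          Real.exp (-(t ^ κ * ∑ i, s i * wl L (x i) (p i) U)))]
        simp only [wl_tr]
      rw [f2] at f1
      refine f1.trans ?_
      have f3 : 1 / Real.sqrt (Real.sqrt K ^ (d - 2)) + (K : ℝ) ^ (2 * d + 3) / b +
            (K : ℝ) ^ (4 * d + 4) / b ^ 2 ≤ 3 * q := by linarith
      have f4 : (((4 * Λ : ℕ) : ℝ)) ^ 4 = 256 * (Λ : ℝ) ^ 4 := by push_cast; ring
      rw [f4]
      calc _ ≤ C1 * ((1 + Fintype.card ι) * (1 + S) * (256 * (Λ : ℝ) ^ 4) * (3 * q)) := by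
            gcongr
        _ = _ := by ring
    have hDT := DT_lim (n := n) (by omega) K (x := x) hlen s (φ := fun j => 2 * (φ j + 1)) (by
      refine tendsto_atTop_mono (fun j => ?_) hφ
      omega)
    have hlim := (hℓ.sub hDT).abs
    have hev : ∀ᶠ j in atTop, 3 * K + 5 < 2 * (φ j + 1) := by
      filter_upwards [hφ.eventually_ge_atTop (3 * K + 5)] with j hj
      omega
    have g1 := le_of_tendsto hlim (hev.mono fun j hj => hfin j hj)
    have g2 := DK_DD (n := n) hd hK1 (x := x) hlen hs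
    rw [← hS] at g2
    have g3 : Fintype.card ι * (n * S) * (Λ : ℝ) ^ 2 * (2 * ch0 d / Real.sqrt K) ≤
        n * 16 * (2 * ch0 d) * ((1 + Fintype.card ι) * (1 + S) * (Λ : ℝ) ^ 4) * q := by
      have f1 : (Λ : ℝ) ^ 2 ≤ 16 * (Λ : ℝ) ^ 4 := by
        have : (Λ : ℝ) ^ 2 ≤ (Λ : ℝ) ^ 4 := pow_le_pow_right₀ hΛ1 (by norm_num)
        have h0 : 0 ≤ (Λ : ℝ) ^ 4 := by positivity
        linarith
      have f2 : (Fintype.card ι : ℝ) * S ≤ (1 + Fintype.card ι) * (1 + S) := by nlinarith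
      have hn0 : (0 : ℝ) ≤ n := Nat.cast_nonneg _
      calc Fintype.card ι * (n * S) * (Λ : ℝ) ^ 2 * (2 * ch0 d / Real.sqrt K) =
          n * (2 * ch0 d) * (Fintype.card ι * S) * (Λ : ℝ) ^ 2 * (1 / Real.sqrt K) := by ring
        _ ≤ n * (2 * ch0 d) * ((1 + Fintype.card ι) * (1 + S)) * (16 * (Λ : ℝ) ^ 4) * q := by
            gcongr
        _ = _ := by ring
    have g4 : |ℓ - DD d n x p s| ≤ (3 * C1 * 256 + n * 16 * (2 * ch0 d)) *
        ((1 + Fintype.card ι) * (1 + S) * (Λ : ℝ) ^ 4) * q := by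
      have := abs_sub_le ℓ (DK d n K x p s) (DD d n x p s)
      calc _ ≤ _ := this
        _ ≤ _ := add_le_add g1 (g2.trans g3)
        _ = _ := by ring
    refine g4.trans ?_
    have g5 : 0 ≤ (3 * C1 * 256 + n * 16 * (2 * ch0 d)) *
        ((1 + Fintype.card ι) * (1 + S) * (Λ : ℝ) ^ 4) := by positivity
    have g6 := mul_le_mul_of_nonneg_left hqt g5
    refine g6.trans ?_
    have g7 : 0 ≤ 4096 * ((1 + Fintype.card ι) * (1 + S) * (Λ : ℝ) ^ 4 / t) := by positivity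
    calc _ = 2 * (3 * C1 * 256 + n * 16 * (2 * ch0 d)) *
        ((1 + Fintype.card ι) * (1 + S) * (Λ : ℝ) ^ 4 / t) := by ring
      _ ≤ _ := by linarith

end

end Pool.Agent.Run7.h630.L
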