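import Mathlib

/-!
# Means and covariances from Laplace transforms
-/

open MeasureTheory

namespace Pool.Agent.Run7.h630.L

noncomputable section

lemma mono_zero {f f' : ℝ → ℝ} (hf : ∀ x, 0 ≤ x → HasDerivAt f (f' x) x)
    (h : ∀ x, 0 ≤ x → 0 ≤ f' x) {x : ℝ} (hx : 0 ≤ x) : f 0 ≤ f x := by
  have h1 : MonotoneOn f (Set.Ici 0) := by
    refine monotoneOn_of_deriv_nonneg (convex_Ici 0)
      (fun y hy => (hf y hy).continuousAt.continuousWithinAt) (fun y hy => ?_) fun y hy => ?_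
    · rw [interior_Ici] at hy
      exact (hf y hy.le).differentiableAt.differentiableWithinAt
    · rw [interior_Ici] at hy
      rw [(hf y hy.le).deriv]
      exact h y hy.le
  exact h1 (Set.mem_Ici.2 le_rfl) (Set.mem_Ici.2 hx) hx

lemma hpow_deriv (α : ℝ) {x : ℝ} (hx : 0 ≤ x) :
    HasDerivAt (fun x : ℝ => (1 + x) ^ (-α)) (-(α * (1 + x) ^ (-(α + 1)))) x := by
  have h1 : HasDerivAt (fun x : ℝ => 1 + x) 1 x := by
    simpa using (hasDerivAt_id x).const_add 1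
  have h2 := h1.rpow_const (p := -α) (Or.inl (by linarith : (1 : ℝ) + x ≠ 0))
  refine h2.congr_deriv ?_
  rw [show -α - 1 = -(α + 1) by ring]
  ring

lemma hp1 {α : ℝ} (hα : 0 ≤ α) {x : ℝ} (hx : 0 ≤ x) : (1 + x) ^ (-α) ≤ 1 :=
  Real.rpow_le_one_of_one_le_of_nonpos (by linarith) (by linarith)

lemma hp2 {α : ℝ} (hα : 0 ≤ α) {x : ℝ} (hx : 0 ≤ x) : 1 - α * x ≤ (1 + x) ^ (-α) := by
  have h := mono_zero (f := fun x : ℝ => (1 + x) ^ (-α) + α * x)
    (f' := fun x => -(α * (1 + x) ^ (-(α + 1))) + α)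
    (fun y hy => (hpow_deriv α hy).add (by simpa using (hasDerivAt_id y).const_mul α))
    (fun y hy => by
      have := hp1 (show 0 ≤ α + 1 by linarith) hy
      nlinarith) hx
  simp only [add_zero, Real.one_rpow, mul_zero] at h
  linarith

lemma hp3 {α : ℝ} (hα : 0 ≤ α) {x : ℝ} (hx : 0 ≤ x) :
    (1 + x) ^ (-α) ≤ 1 - α * x + α * (α + 1) / 2 * x ^ 2 := by
  have h := mono_zero (f := fun x : ℝ => α * (α + 1) / 2 * x ^ 2 - ((1 + x) ^ (-α) + α * x))
    (f' := fun x => α * (α + 1) * x - (-(α * (1 + x) ^ (-(α + 1))) + α))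
    (fun y hy => by
      have h1 : HasDerivAt (fun x : ℝ => α * (α + 1) / 2 * x ^ 2) (α * (α + 1) * y) y := by
        have := (hasDerivAt_pow 2 y).const_mul (α * (α + 1) / 2)
        refine this.congr_deriv ?_
        simp; ring
      exact h1.sub ((hpow_deriv α hy).add (by simpa using (hasDerivAt_id y).const_mul α)))
    (fun y hy => by
      have := hp2 (show 0 ≤ α + 1 by linarith) hy
      nlinarith) hx
  simp only [add_zero, Real.one_rpow, mul_zero, ne_eq, OfNat.ofNat_ne_zero, not_false_eq_true,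
    zero_pow] at h
  linarith

lemma hp4 {α : ℝ} (hα : 0 ≤ α) {x : ℝ} (hx : 0 ≤ x) :
    1 - α * x + α * (α + 1) / 2 * x ^ 2 - α * (α + 1) * (α + 2) / 6 * x ^ 3 ≤
      (1 + x) ^ (-α) := by
  have h := mono_zero (f := fun x : ℝ => ((1 + x) ^ (-α) + α * x) -
    α * (α + 1) / 2 * x ^ 2 + α * (α + 1) * (α + 2) / 6 * x ^ 3)
    (f' := fun x => (-(α * (1 + x) ^ (-(α + 1))) + α) - α * (α + 1) * x +
      α * (α + 1) * (α + 2) / 2 * x ^ 2)
    (fun y hy => by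
      have h1 : HasDerivAt (fun x : ℝ => α * (α + 1) / 2 * x ^ 2) (α * (α + 1) * y) y := by
        have := (hasDerivAt_pow 2 y).const_mul (α * (α + 1) / 2)
        refine this.congr_deriv ?_
        simp; ring
      have h2 : HasDerivAt (fun x : ℝ => α * (α + 1) * (α + 2) / 6 * x ^ 3)
          (α * (α + 1) * (α + 2) / 2 * y ^ 2) y := by
        have := (hasDerivAt_pow 3 y).const_mul (α * (α + 1) * (α + 2) / 6)
        refine this.congr_deriv ?_
        simp; ring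
      exact (((hpow_deriv α hy).add
        (by simpa using (hasDerivAt_id y).const_mul α)).sub h1).add h2)
    (fun y hy => by
      have h3 := hp3 (show 0 ≤ α + 1 by linarith) hy
      have h4 := mul_le_mul_of_nonneg_left h3 hα
      have h5 : α * (1 - (α + 1) * y + (α + 1) * (α + 1 + 1) / 2 * y ^ 2) =
        α - α * (α + 1) * y + α * (α + 1) * (α + 2) / 2 * y ^ 2 := by ring
      rw [h5] at h4
      linarith) hx
  simp only [add_zero, Real.one_rpow, mul_zero, ne_eq, OfNat.ofNat_ne_zero, not_false_eq_true,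
    zero_pow, sub_zero] at h
  linarith

/-- the Gaussian side, first order -/
lemma gs_one {α K s : ℝ} (hα : 0 ≤ α) (hK : 0 ≤ K) (hs : 0 ≤ s) :
    |1 - (1 + s * K) ^ (-α) - s * (α * K)| ≤ α * (α + 1) / 2 * K ^ 2 * s ^ 2 := by
  have h0 : 0 ≤ s * K := mul_nonneg hs hK
  have h1 := hp2 hα h0
  have h2 := hp3 hα h0
  have h3 : 0 ≤ α * (α + 1) / 2 * K ^ 2 * s ^ 2 := by positivity
  rw [abs_le]
  constructor <;> nlinarith

/-- the Gaussian side, second order -/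
lemma gs_two {α a b k s D : ℝ} (hα : 0 ≤ α) (ha : 0 ≤ a) (hb : 0 ≤ b) (hk : k ^ 2 ≤ a * b)
    (hD : 1 ≤ D) (haD : a ≤ D) (hbD : b ≤ D) (hs : 0 ≤ s) (hs1 : s ≤ 1) :
    |1 - (1 + s * a) ^ (-α) - (1 + s * b) ^ (-α) +
      (1 + (s * (a + b) + s ^ 2 * (a * b - k ^ 2))) ^ (-α) - s ^ 2 * (α ^ 2 * (a * b) + α * k ^ 2)| ≤
      8 * (α * (α + 1) * (α + 2)) * D ^ 6 * s ^ 3 := by
  obtain ⟨c, hc⟩ : ∃ c, c = a * b - k ^ 2 := ⟨_, rfl⟩
  obtain ⟨x3, hx3⟩ : ∃ x3, x3 = s * (a + b) + s ^ 2 * c := ⟨_, rfl⟩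
  obtain ⟨R, hR⟩ : ∃ R, R = α * (α + 1) * (α + 2) / 6 := ⟨_, rfl⟩
  have hc0 : 0 ≤ c := by rw [hc]; linarith
  have hD0 : 0 ≤ D := by linarith
  have hcD : c ≤ D ^ 2 := by
    have : a * b ≤ D * D := mul_le_mul haD hbD hb hD0
    have := sq_nonneg k
    rw [hc]; nlinarith
  have hR0 : 0 ≤ R := by rw [hR]; positivity
  have hx0 : 0 ≤ x3 := by rw [hx3]; positivity
  have h1 := hp3 hα (mul_nonneg hs ha)
  have h2 := hp4 hα (mul_nonneg hs ha)
  have h3 := hp3 hα (mul_nonneg hs hb)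
  have h4 := hp4 hα (mul_nonneg hs hb)
  have h5 := hp3 hα hx0
  have h6 := hp4 hα hx0
  rw [← hR] at h2 h4 h6
  rw [← hc, ← hx3]
  have hs3 : 0 ≤ s ^ 3 := by positivity
  have hs2 : s ^ 2 ≤ s := by nlinarith
  have hD2 : D ≤ D ^ 2 := by nlinarith
  have k1 : x3 ≤ 3 * D ^ 2 * s := by
    rw [hx3]
    have e1 : s * (a + b) ≤ s * (2 * D ^ 2) := mul_le_mul_of_nonneg_left (by linarith) hs
    have e2 : s ^ 2 * c ≤ s * D ^ 2 := mul_le_mul hs2 hcD hc0 hs
    linarith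
  have k2 : x3 ^ 3 ≤ 27 * D ^ 6 * s ^ 3 := by
    refine (pow_le_pow_left₀ hx0 k1 3).trans (le_of_eq (by ring))
  have k3 : (s * a) ^ 3 ≤ D ^ 6 * s ^ 3 := by
    have e1 : a ^ 3 ≤ D ^ 3 := pow_le_pow_left₀ ha haD 3
    have e2 : D ^ 3 ≤ D ^ 6 := pow_le_pow_right₀ hD (by norm_num)
    rw [mul_pow, mul_comm]
    exact mul_le_mul_of_nonneg_right (e1.trans e2) hs3
  have k4 : (s * b) ^ 3 ≤ D ^ 6 * s ^ 3 := by
    have e1 : b ^ 3 ≤ D ^ 3 := pow_le_pow_left₀ hb hbD 3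
    have e2 : D ^ 3 ≤ D ^ 6 := pow_le_pow_right₀ hD (by norm_num)
    rw [mul_pow, mul_comm]
    exact mul_le_mul_of_nonneg_right (e1.trans e2) hs3
  have k5 : 0 ≤ 2 * s ^ 3 * ((a + b) * c) + s ^ 4 * c ^ 2 := by positivity
  have k6 : 2 * s ^ 3 * ((a + b) * c) + s ^ 4 * c ^ 2 ≤ 5 * D ^ 6 * s ^ 3 := by
    have e1 : (a + b) * c ≤ 2 * D * D ^ 2 := mul_le_mul (by linarith) hcD hc0 (by linarith)
    have e2 : 2 * D * D ^ 2 ≤ 2 * D ^ 6 := by
      have : D ^ 3 ≤ D ^ 6 := pow_le_pow_right₀ hD (by norm_num)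
      nlinarith
    have e3 : s ^ 4 * c ^ 2 ≤ s ^ 3 * D ^ 6 := by
      have f1 : s ^ 4 ≤ s ^ 3 := pow_le_pow_of_le_one hs hs1 (by norm_num)
      have f2 : c ^ 2 ≤ D ^ 6 := by
        have g1 : c ^ 2 ≤ (D ^ 2) ^ 2 := pow_le_pow_left₀ hc0 hcD 2
        have g2 : (D ^ 2) ^ 2 ≤ D ^ 6 := by
          rw [← pow_mul]; exact pow_le_pow_right₀ hD (by norm_num)
        exact g1.trans g2
      exact mul_le_mul f1 f2 (sq_nonneg _) hs3
    have e4 := mul_le_mul_of_nonneg_left (e1.trans e2) (show 0 ≤ 2 * s ^ 3 by positivity)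
    linarith
  have k7 : 1 - (1 - α * (s * a) + α * (α + 1) / 2 * (s * a) ^ 2) -
      (1 - α * (s * b) + α * (α + 1) / 2 * (s * b) ^ 2) +
      (1 - α * x3 + α * (α + 1) / 2 * x3 ^ 2) - s ^ 2 * (α ^ 2 * (a * b) + α * k ^ 2) =
      α * (α + 1) / 2 * (2 * s ^ 3 * ((a + b) * c) + s ^ 4 * c ^ 2) := by
    rw [hx3]
    have : k ^ 2 = a * b - c := by rw [hc]; ring
    rw [this]
    ring
  have hα2 : 0 ≤ α * (α + 1) / 2 := by positivity
  have k8 := mul_le_mul_of_nonneg_left k6 hα2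
  have k9 := mul_nonneg hα2 k5
  have k10 := mul_le_mul_of_nonneg_left k2 hR0
  have k11 := mul_le_mul_of_nonneg_left k3 hR0
  have k12 := mul_le_mul_of_nonneg_left k4 hR0
  have k13 : 0 ≤ D ^ 6 * s ^ 3 := by positivity
  have k14 : α * (α + 1) / 2 * (5 * D ^ 6 * s ^ 3) ≤ 3 * (α * (α + 1) * (α + 2)) * (D ^ 6 * s ^ 3) := by
    have e1 : α * (α + 1) / 2 * 5 ≤ 3 * (α * (α + 1) * (α + 2)) := by
      have : 0 ≤ α * (α + 1) := by positivity
      nlinarith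
    calc _ = α * (α + 1) / 2 * 5 * (D ^ 6 * s ^ 3) := by ring
      _ ≤ _ := mul_le_mul_of_nonneg_right e1 k13
  have k15 : R * (27 * D ^ 6 * s ^ 3) ≤ 5 * (α * (α + 1) * (α + 2)) * (D ^ 6 * s ^ 3) := by
    have e1 : R * 27 ≤ 5 * (α * (α + 1) * (α + 2)) := by
      have : 0 ≤ α * (α + 1) * (α + 2) := by positivity
      rw [hR]; linarith
    calc _ = R * 27 * (D ^ 6 * s ^ 3) := by ring
      _ ≤ _ := mul_le_mul_of_nonneg_right e1 k13
  have k16 : R * (D ^ 6 * s ^ 3) ≤ (α * (α + 1) * (α + 2)) * (D ^ 6 * s ^ 3) := by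
    have e1 : R ≤ (α * (α + 1) * (α + 2)) := by
      have : 0 ≤ α * (α + 1) * (α + 2) := by positivity
      rw [hR]; linarith
    exact mul_le_mul_of_nonneg_right e1 k13
  have k17 : 0 ≤ (α * (α + 1) * (α + 2)) * (D ^ 6 * s ^ 3) := by positivity
  rw [abs_le]
  constructor <;> linarith

/-! ### means and covariances -/

variable {Ω : Type*} [MeasurableSpace Ω] (ν : Measure Ω) [IsProbabilityMeasure ν]

lemma exp_rem {y : ℝ} (hy : 0 ≤ y) : 0 ≤ y - (1 - Real.exp (-y)) ∧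
    y - (1 - Real.exp (-y)) ≤ y ^ 2 / 2 ∧ 0 ≤ 1 - Real.exp (-y) := by
  have h1 := Real.one_sub_le_exp_neg y
  have h2 : Real.exp (-y) ≤ 1 := by rw [Real.exp_le_one_iff]; linarith
  refine ⟨by linarith, ?_, by linarith⟩
  have h := mono_zero (f := fun x : ℝ => x ^ 2 / 2 - x + 1 - Real.exp (-x))
    (f' := fun x => x - 1 + Real.exp (-x))
    (fun z hz => by
      have e1 : HasDerivAt (fun x : ℝ => x ^ 2 / 2) z z := by
        have := (hasDerivAt_pow 2 z).div_const 2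
        refine this.congr_deriv ?_
        simp
      have e2 : HasDerivAt (fun x : ℝ => Real.exp (-x)) (-Real.exp (-z)) z := by
        have := ((hasDerivAt_id z).neg).exp
        simpa using this
      have e3 := ((e1.sub (hasDerivAt_id z)).add_const 1).sub e2
      refine e3.congr_deriv ?_
      ring)
    (fun z hz => by have := Real.one_sub_le_exp_neg z; linarith) hy
  simp only [ne_eq, OfNat.ofNat_ne_zero, not_false_eq_true, zero_pow, zero_div, sub_zero,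
    zero_add, neg_zero, Real.exp_zero, sub_self] at h
  linarith

/-- the mean from the Laplace transform -/
lemma mean_lap {X : Ω → ℝ} (h0 : ∀ w, 0 ≤ X w) (h1 : Integrable X ν)
    (h2 : Integrable (fun w => X w ^ 2) ν) (s : ℝ) (hs : 0 ≤ s)
    (he : Integrable (fun w => Real.exp (-(s * X w))) ν) :
    |(1 - ∫ w, Real.exp (-(s * X w)) ∂ν) - s * ∫ w, X w ∂ν| ≤ s ^ 2 / 2 * ∫ w, X w ^ 2 ∂ν := by
  have e1 : (1 - ∫ w, Real.exp (-(s * X w)) ∂ν) - s * ∫ w, X w ∂ν =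
      ∫ w, ((1 - Real.exp (-(s * X w))) - s * X w) ∂ν := by
    have i1 : Integrable (fun w => 1 - Real.exp (-(s * X w))) ν := (integrable_const _).sub he
    rw [integral_sub i1 (h1.const_mul s), integral_sub (integrable_const _) he, integral_const_mul]
    simp
  rw [e1, ← integral_const_mul]
  refine (abs_integral_le_integral_abs).trans ?_
  refine integral_mono_of_nonneg (Filter.Eventually.of_forall fun w => abs_nonneg _)
    (h2.const_mul _) (Filter.Eventually.of_forall fun w => ?_)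
  simp only
  have h3 := exp_rem (mul_nonneg hs (h0 w))
  rw [abs_le]
  constructor
  · nlinarith [h3.2.1]
  · have : 0 ≤ s ^ 2 / 2 * X w ^ 2 := by positivity
    linarith [h3.1]

/-- the mixed moment from the Laplace transform -/
lemma mixed_lap {X Y : Ω → ℝ} (hX0 : ∀ w, 0 ≤ X w) (hY0 : ∀ w, 0 ≤ Y w)
    (hXY : Integrable (fun w => X w * Y w) ν)
    (hX3 : Integrable (fun w => X w ^ 3) ν) (hY3 : Integrable (fun w => Y w ^ 3) ν)
    (s : ℝ) (hs : 0 ≤ s)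
    (he1 : Integrable (fun w => Real.exp (-(s * X w))) ν)
    (he2 : Integrable (fun w => Real.exp (-(s * Y w))) ν)
    (he3 : Integrable (fun w => Real.exp (-(s * X w + s * Y w))) ν) :
    |(1 - ∫ w, Real.exp (-(s * X w)) ∂ν - ∫ w, Real.exp (-(s * Y w)) ∂ν +
      ∫ w, Real.exp (-(s * X w + s * Y w)) ∂ν) - s ^ 2 * ∫ w, X w * Y w ∂ν| ≤
      s ^ 3 / 2 * (∫ w, X w ^ 3 ∂ν + ∫ w, Y w ^ 3 ∂ν) := by
  have e1 : (1 - ∫ w, Real.exp (-(s * X w)) ∂ν - ∫ w, Real.exp (-(s * Y w)) ∂ν +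
      ∫ w, Real.exp (-(s * X w + s * Y w)) ∂ν) - s ^ 2 * ∫ w, X w * Y w ∂ν =
      ∫ w, ((1 - Real.exp (-(s * X w)) - Real.exp (-(s * Y w)) +
        Real.exp (-(s * X w + s * Y w))) - s ^ 2 * (X w * Y w)) ∂ν := by
    have i1 : Integrable (fun w => 1 - Real.exp (-(s * X w))) ν := (integrable_const _).sub he1
    have i2 : Integrable (fun w => 1 - Real.exp (-(s * X w)) - Real.exp (-(s * Y w))) ν :=
      i1.sub he2
    have i3 : Integrable (fun w => 1 - Real.exp (-(s * X w)) - Real.exp (-(s * Y w)) +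
        Real.exp (-(s * X w + s * Y w))) ν := i2.add he3
    rw [integral_sub i3 (hXY.const_mul _), integral_add i2 he3, integral_sub i1 he2,
      integral_sub (integrable_const _) he1, integral_const_mul]
    simp
  rw [e1, ← integral_add hX3 hY3, ← integral_const_mul]
  refine (abs_integral_le_integral_abs).trans ?_
  refine integral_mono_of_nonneg (Filter.Eventually.of_forall fun w => abs_nonneg _)
    ((hX3.add hY3).const_mul _) (Filter.Eventually.of_forall fun w => ?_)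
  simp only [Pi.add_apply]
  obtain ⟨a1, a2, a3⟩ := exp_rem (mul_nonneg hs (hX0 w))
  obtain ⟨b1, b2, b3⟩ := exp_rem (mul_nonneg hs (hY0 w))
  obtain ⟨u, hu⟩ : ∃ u, u = s * X w := ⟨_, rfl⟩
  obtain ⟨v, hv⟩ : ∃ v, v = s * Y w := ⟨_, rfl⟩
  have hu0 : 0 ≤ u := by rw [hu]; exact mul_nonneg hs (hX0 w)
  have hv0 : 0 ≤ v := by rw [hv]; exact mul_nonneg hs (hY0 w)
  have e2 : s ^ 2 * (X w * Y w) = u * v := by rw [hu, hv]; ring
  have e3 : s ^ 3 / 2 * (X w ^ 3 + Y w ^ 3) = (u ^ 3 + v ^ 3) / 2 := by rw [hu, hv]; ring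
  rw [e2, e3, ← hu, ← hv, neg_add, Real.exp_add]
  rw [← hu] at a1 a2 a3
  rw [← hv] at b1 b2 b3
  obtain ⟨p, hp⟩ : ∃ p, p = 1 - Real.exp (-u) := ⟨_, rfl⟩
  obtain ⟨q, hq⟩ : ∃ q, q = 1 - Real.exp (-v) := ⟨_, rfl⟩
  have e4 : 1 - Real.exp (-u) - Real.exp (-v) + Real.exp (-u) * Real.exp (-v) - u * v =
      p * q - u * v := by rw [hp, hq]; ring
  rw [e4]
  rw [← hp] at a1 a2 a3
  rw [← hq] at b1 b2 b3
  have e5 : u ^ 2 * v + u * v ^ 2 ≤ u ^ 3 + v ^ 3 := by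
    nlinarith [mul_nonneg (add_nonneg hu0 hv0) (sq_nonneg (u - v))]
  have e6 : 0 ≤ u ^ 2 * v := by positivity
  have e7 : 0 ≤ u * v ^ 2 := by positivity
  have e8 : u * (v - q) ≤ u * (v ^ 2 / 2) := mul_le_mul_of_nonneg_left b2 hu0
  have e9 : (u - p) * q ≤ u ^ 2 / 2 * v := mul_le_mul a2 (by linarith) b3 (by positivity)
  have e10 : 0 ≤ u * (v - q) := mul_nonneg hu0 b1
  have e11 : 0 ≤ (u - p) * q := mul_nonneg a1 b3
  rw [abs_le]
  constructor <;> nlinarith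

end

end Pool.Agent.Run7.h630.L
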