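import Mathlib
import Pool.Agent.Run7.h630.L.Inf
import Pool.Agent.Run7.h630.L.Tay

/-!
# The law of the loops in infinite volume
-/

open MeasureTheory Matrix Filter
open scoped Matrix.Norms.Frobenius ContDiff Topology
open Pool.Agent.H906R3.YM hiding Pl
open Pool.Agent.W793.YM hiding rs
open Pool.Agent.TH618.YM

namespace Pool.Agent.Run7.h630.L

set_option linter.unusedSectionVars false
set_option linter.unusedVariables false

noncomputable section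

variable {G : Type*} [Group G] [TopologicalSpace G] [IsTopologicalGroup G] [CompactSpace G]
  [SecondCountableTopology G] [MeasurableSpace G] [BorelSpace G] (μ : Measure G)
  [IsProbabilityMeasure μ] [μ.IsMulLeftInvariant] [μ.IsMulRightInvariant] [μ.IsInvInvariant]
  {N n : ℕ} {L : LD G N n} {d : ℕ}

/-- the loops in infinite volume -/
def wz (L : LD G N n) (x : Fin d → ℤ) (p : List (Fin d × Bool)) (V : Ez d → G) : ℝ :=
  we L (hol V x p)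

lemma wz_cont (x : Fin d → ℤ) (p : List (Fin d × Bool)) : Continuous (wz L x p) :=
  we_cont.comp (hol_cont x p)

lemma wz_nonneg (x : Fin d → ℤ) (p : List (Fin d × Bool)) (V : Ez d → G) : 0 ≤ wz L x p V :=
  we_nonneg _

variable (L d) in
/-- `ν` is the limit of the theories on the tori of even side -/
def LimT (β : ℝ) (ν : Measure (Ez d → G)) (φ : ℕ → ℕ) : Prop :=
  Tendsto φ atTop atTop ∧ ∀ F : (Ez d → G) → ℝ, Continuous F →
    Tendsto (fun j => EX μ L β (fun U : Ed d (2 * (φ j + 1)) → G => F (lf U))) atTop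
      (𝓝 (∫ V, F V ∂ν))

lemma cint {ν : Measure (Ez d → G)} [IsProbabilityMeasure ν] {F : (Ez d → G) → ℝ}
    (hF : Continuous F) : Integrable F ν :=
  hF.integrable_of_hasCompactSupport (HasCompactSupport.of_compactSpace _)

/-- the moments of the loops in infinite volume -/
lemma wz_mom (hd : 1 ≤ d) {β : ℝ} (hβ : 0 < β) {ν : Measure (Ez d → G)} {φ : ℕ → ℕ}
    (h : LimT μ L d β ν φ) {Λ : ℕ} {p : List (Fin d × Bool)} (hp : p.length ≤ Λ)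
    {x : Fin d → ℤ} (hcl : dest x p = x) (k : ℕ) :
    ∫ V, (β * wz L x p V) ^ (k + 1) ∂ν ≤
      (8 * d ^ 2 * (Λ : ℝ) ^ 4) ^ (k + 1) * ((k + 1).factorial * YM.DD N ^ 2) := by
  have h1 := h.2 (fun V => (β * wz L x p V) ^ (k + 1))
    ((continuous_const.mul (wz_cont x p)).pow _)
  refine le_of_tendsto h1 ?_
  filter_upwards [h.1.eventually_ge_atTop (2 * Λ + 1)] with j hj
  obtain ⟨w, hw⟩ : ∃ w : Fin d → ℤ, w = fun k => (Λ : ℤ) - x k := ⟨_, rfl⟩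
  have e1 : EX μ L β (fun U : Ed d (2 * (φ j + 1)) → G => (β * wz L x p (lf U)) ^ (k + 1)) =
      EX μ L β (fun U : Ed d (2 * (φ j + 1)) → G => (β * wl L (x + w) p U) ^ (k + 1)) := by
    rw [← EX_tr μ (zt (2 * (φ j + 1)) w) (fun U : Ed d (2 * (φ j + 1)) → G =>
      (β * wz L x p (lf U)) ^ (k + 1))]
    congr 1
    funext U
    rw [← wl_tr]
    rfl
  rw [e1]
  have hin : InB 0 (2 * Λ) (x + w) p := InB_of _ _ fun k => by
    show (0 : ℤ) + p.length ≤ x k + w k ∧ x k + w k + p.length ≤ 0 + (2 * Λ : ℕ)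
    rw [hw]
    push_cast
    constructor <;> omega
  have h2 := wl_mom μ (L := L) (m := φ j + 1) (by omega) hβ (B := 2 * Λ) (by omega) hin
    (by rw [dest_trans, hcl]) k
  refine h2.trans ?_
  refine mul_le_mul_of_nonneg_right ?_ (by positivity)
  refine pow_le_pow_left₀ (by positivity) ?_ _
  have h3 : (p.length : ℝ) ≤ Λ := by exact_mod_cast hp
  push_cast
  calc 2 * (p.length * (d * (2 * (Λ : ℝ)))) ^ 2 ≤ 2 * (Λ * (d * (2 * (Λ : ℝ)))) ^ 2 := by gcongr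
    _ = _ := by ring

lemma kij_le (hd : 3 ≤ d) : ∃ C : ℝ, 1 ≤ C ∧ ∀ (Λ : ℕ) (x1 : Fin d → ℤ)
    (p1 : List (Fin d × Bool)) (x2 : Fin d → ℤ) (p2 : List (Fin d × Bool)),
    p1.length ≤ Λ → p2.length ≤ Λ → |kij x1 p1 x2 p2| ≤ C * (Λ : ℝ) ^ 2 := by
  refine ⟨1 + ∫ u : Fin d → ℝ, 1 / om u ∂(mu1 d), ?_, fun Λ x1 p1 x2 p2 h1 h2 => ?_⟩
  · have : 0 ≤ ∫ u : Fin d → ℝ, 1 / om u ∂(mu1 d) :=
      integral_nonneg fun u => div_nonneg zero_le_one (om_nonneg u)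
    linarith
  · unfold kij
    have e0 : 0 ≤ ∫ u : Fin d → ℝ, 1 / om u ∂(mu1 d) :=
      integral_nonneg fun u => div_nonneg zero_le_one (om_nonneg u)
    have e1 : |∫ u, kk x1 p1 x2 p2 u / om u ∂(mu1 d)| ≤
        ∫ u, (Λ : ℝ) ^ 2 * (1 / om u) ∂(mu1 d) := by
      refine (abs_integral_le_integral_abs).trans ?_
      refine integral_mono_of_nonneg (Filter.Eventually.of_forall fun u => abs_nonneg _)
        ((inv_int hd).const_mul _) (Filter.Eventually.of_forall fun u => ?_)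
      simp only
      rw [abs_div, abs_of_nonneg (om_nonneg u), div_eq_mul_one_div]
      refine mul_le_mul_of_nonneg_right ?_ (div_nonneg zero_le_one (om_nonneg u))
      have g1 : (p1.length : ℝ) ≤ Λ := by exact_mod_cast h1
      have g2 : (p2.length : ℝ) ≤ Λ := by exact_mod_cast h2
      calc _ ≤ (p1.length : ℝ) * p2.length := kk_le _ _ _ _ u
        _ ≤ Λ * Λ := by gcongr
        _ = _ := by ring
    rw [integral_const_mul] at e1
    refine e1.trans ?_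
    have : 0 ≤ (Λ : ℝ) ^ 2 := by positivity
    nlinarith

lemma kij_cs (hd : 3 ≤ d) (x1 : Fin d → ℤ) (p1 : List (Fin d × Bool)) (x2 : Fin d → ℤ)
    (p2 : List (Fin d × Bool)) : 0 ≤ kij x1 p1 x1 p1 ∧
      kij x1 p1 x2 p2 ^ 2 ≤ kij x1 p1 x1 p1 * kij x2 p2 x2 p2 := by
  obtain ⟨a, ha⟩ : ∃ a, a = kij x1 p1 x1 p1 := ⟨_, rfl⟩
  obtain ⟨b, hb⟩ : ∃ b, b = kij x2 p2 x2 p2 := ⟨_, rfl⟩
  obtain ⟨k, hk⟩ : ∃ k, k = kij x1 p1 x2 p2 := ⟨_, rfl⟩
  have hq : ∀ y z : ℝ, 0 ≤ y ^ 2 * a + 2 * (y * z * k) + z ^ 2 * b := by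
    intro y z
    have h1 := SS_quad hd ![x1, x2] ![p1, p2] ![y, z]
    have h2 : (0 : ℝ) ≤ ∫ u, SS ![x1, x2] ![p1, p2] ![y, z] u / om u ∂(mu1 d) :=
      integral_nonneg fun u => div_nonneg (SS_nonneg _ _ _ _) (om_nonneg u)
    rw [h1] at h2
    simp only [Fin.sum_univ_two, Matrix.cons_val_zero, Matrix.cons_val_one] at h2
    rw [kij_symm x2 p2 x1 p1, ← ha, ← hb, ← hk] at h2
    refine h2.trans (le_of_eq (by ring))
  rw [← ha, ← hb, ← hk]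
  have h0 := hq 1 0
  have h0' := hq 0 1
  have ha0 : 0 ≤ a := by nlinarith
  have hb0 : 0 ≤ b := by nlinarith
  refine ⟨ha0, ?_⟩
  by_contra hc
  push Not at hc
  rcases eq_or_lt_of_le ha0 with h | h
  · -- a = 0
    rw [← h, zero_mul] at hc
    have h3 := hq (-(b + 1) / (2 * k)) 1
    have hk0 : k ≠ 0 := fun h => by rw [h] at hc; norm_num at hc
    have e1 : -(b + 1) / (2 * k) * 1 * k = -(b + 1) / 2 := by field_simp
    rw [← h, e1] at h3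
    linarith
  · have h3 := hq (-k) a
    have : (-k) ^ 2 * a + 2 * (-k * a * k) + a ^ 2 * b = a * (a * b - k ^ 2) := by ring
    rw [this] at h3
    have h4 : 0 ≤ a * b - k ^ 2 := nonneg_of_mul_nonneg_right h3 h
    linarith

/-- The law of the loops in infinite volume: Laplace functional, mean and covariance. -/
theorem law_inf (hd : 3 ≤ d) {C0 : ℝ} (hC0 : 0 < C0)
    (hcar : ∀ g : G, dv L g ^ 2 ≤ ∑ a, fi L a g ^ 2 + C0 * dv L g ^ 4) :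
    ∃ C : ℝ, 0 < C ∧ ∀ r : ℝ, 1 ≤ r → ∀ (ν : Measure (Ez d → G)) [IsProbabilityMeasure ν]
    (φ : ℕ → ℕ), LimT μ L d ((r ^ 6) ^ (32 * (d + 2))) ν φ → ∀ Λ : ℕ, 1 ≤ Λ →
    (∀ (ι : Type) [Fintype ι] [DecidableEq ι] (o : Fin d → ℤ)
      (x : ι → Fin d → ℤ) (p : ι → List (Fin d × Bool)),
      (∀ i k, |x i k - o k| ≤ Λ) → (∀ i, (p i).length ≤ Λ) → (∀ i, dest (x i) (p i) = x i) →
      ∀ s : ι → ℝ, (∀ i, 0 ≤ s i) →
      |∫ V, Real.exp (-((r ^ 6) ^ (32 * (d + 2)) * ∑ i, s i * wz L (x i) (p i) V)) ∂ν -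
        (det (1 + Matrix.of fun i j => s i * kij (x i) (p i) (x j) (p j))) ^ (-(n : ℝ) / 2)| ≤
        C * ((1 + Fintype.card ι) * (1 + ∑ i, s i) * (Λ : ℝ) ^ 4 / r ^ 6)) ∧
    (∀ (x : Fin d → ℤ) (p : List (Fin d × Bool)), p.length ≤ Λ → dest x p = x →
      |∫ V, (r ^ 6) ^ (32 * (d + 2)) * wz L x p V ∂ν - n / 2 * kij x p x p| ≤
        C * ((Λ : ℝ) ^ 8 / r ^ 3)) ∧
    (∀ (x : Fin d → ℤ) (p : List (Fin d × Bool)) (y : Fin d → ℤ) (q : List (Fin d × Bool)),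
      (∀ k, |y k - x k| ≤ Λ) → p.length ≤ Λ → q.length ≤ Λ → dest x p = x → dest y q = y →
      |(∫ V, ((r ^ 6) ^ (32 * (d + 2)) * wz L x p V) * ((r ^ 6) ^ (32 * (d + 2)) * wz L y q V) ∂ν -
        (∫ V, (r ^ 6) ^ (32 * (d + 2)) * wz L x p V ∂ν) *
          ∫ V, (r ^ 6) ^ (32 * (d + 2)) * wz L y q V ∂ν) - n / 2 * kij x p y q ^ 2| ≤
        C * ((Λ : ℝ) ^ 12 / r ^ 2)) := by
  obtain ⟨C1, hC1, h1⟩ := loops_inf μ (L := L) hd hC0 hcar
  obtain ⟨C2, hC2, h2⟩ := kij_le hd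
  obtain ⟨α, hα⟩ : ∃ α : ℝ, α = n / 2 := ⟨_, rfl⟩
  have hα0 : 0 ≤ α := by rw [hα]; positivity
  obtain ⟨D, hD⟩ : ∃ D : ℝ, D = YM.DD N ^ 2 := ⟨_, rfl⟩
  have hD0 : 0 ≤ D := by rw [hD]; positivity
  have hd1 : 1 ≤ d := by omega
  have hC20 : 0 < C2 := by linarith
  -- the constants
  obtain ⟨c1, hc1⟩ : ∃ c1 : ℝ, c1 = 1 / 2 * ((8 * d ^ 2) ^ 2 * (2 * D)) +
    α * (α + 1) / 2 * C2 ^ 2 + 4 * C1 := ⟨_, rfl⟩
  obtain ⟨c2, hc2⟩ : ∃ c2 : ℝ, c2 = (8 * d ^ 2) ^ 3 * (6 * D) + 8 * (α * (α + 1) * (α + 2)) *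
    C2 ^ 6 + 20 * C1 := ⟨_, rfl⟩
  obtain ⟨c3, hc3⟩ : ∃ c3 : ℝ, c3 = c1 * (8 * d ^ 2 * D + α * C2) := ⟨_, rfl⟩
  have hc10 : 0 ≤ c1 := by rw [hc1]; positivity
  have hc20 : 0 ≤ c2 := by rw [hc2]; positivity
  have hc30 : 0 ≤ c3 := by rw [hc3]; positivity
  refine ⟨C1 + c1 + c2 + c3, by positivity, fun r hr ν _ φ hφ Λ hΛ => ?_⟩
  have hr0 : 0 < r := by linarith
  have hΛ1 : (1 : ℝ) ≤ Λ := by exact_mod_cast hΛ
  have hr6 : (1 : ℝ) ≤ r ^ 6 := one_le_pow₀ hr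
  obtain ⟨β, hβ⟩ : ∃ β : ℝ, β = (r ^ 6) ^ (32 * (d + 2)) := ⟨_, rfl⟩
  have hβ0 : 0 < β := by rw [hβ]; positivity
  rw [← hβ] at hφ ⊢
  -- the Laplace functional
  have hA : ∀ (ι : Type) [Fintype ι] [DecidableEq ι] (o : Fin d → ℤ)
      (x : ι → Fin d → ℤ) (p : ι → List (Fin d × Bool)),
      (∀ i k, |x i k - o k| ≤ Λ) → (∀ i, (p i).length ≤ Λ) → (∀ i, dest (x i) (p i) = x i) →
      ∀ s : ι → ℝ, (∀ i, 0 ≤ s i) →
      |∫ V, Real.exp (-(β * ∑ i, s i * wz L (x i) (p i) V)) ∂ν -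
        (det (1 + Matrix.of fun i j => s i * kij (x i) (p i) (x j) (p j))) ^ (-(n : ℝ) / 2)| ≤
        C1 * ((1 + Fintype.card ι) * (1 + ∑ i, s i) * (Λ : ℝ) ^ 4 / r ^ 6) := by
    intro ι _ _ o x p hx hlen hcl s hs
    refine h1 (r ^ 6) hr6 φ hφ.1 Λ hΛ ι o x p hx hlen hcl s hs _ ?_
    rw [← hβ]
    exact hφ.2 (fun V => Real.exp (-(β * ∑ i, s i * wz L (x i) (p i) V)))
      (Real.continuous_exp.comp (continuous_const.mul (continuous_finsetSum _ fun i _ =>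
        continuous_const.mul (wz_cont _ _))).neg)
  -- one loop
  obtain ⟨X, hX⟩ : ∃ X : (Fin d → ℤ) → List (Fin d × Bool) → (Ez d → G) → ℝ,
    X = fun x p V => β * wz L x p V := ⟨_, rfl⟩
  have hXc : ∀ x p, Continuous (X x p) := fun x p => by
    rw [hX]; exact continuous_const.mul (wz_cont x p)
  have hX0 : ∀ x p V, 0 ≤ X x p V := fun x p V => by
    rw [hX]; exact mul_nonneg hβ0.le (wz_nonneg _ _ _)
  have hone : ∀ (x : Fin d → ℤ) (p : List (Fin d × Bool)), p.length ≤ Λ → dest x p = x →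
      ∀ s : ℝ, 0 ≤ s → s ≤ 1 →
      |∫ V, Real.exp (-(s * X x p V)) ∂ν - (1 + s * kij x p x p) ^ (-α)| ≤
        4 * C1 * ((Λ : ℝ) ^ 4 / r ^ 6) := by
    intro x p hp hcl s hs hs1
    have e1 := hA Unit x (fun _ => x) (fun _ => p) (fun i k => by simp) (fun _ => hp)
      (fun _ => hcl) (fun _ => s) (fun _ => hs)
    rw [Matrix.det_unique] at e1
    simp only [Matrix.add_apply, Matrix.one_apply_eq, Matrix.of_apply, Finset.univ_unique,
      Finset.sum_singleton, Fintype.card_unit, Nat.cast_one] at e1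
    have e2 : ∀ V : Ez d → G, -(β * (s * wz L x p V)) = -(s * X x p V) := fun V => by
      rw [hX]; ring
    simp only [e2] at e1
    rw [show -(n : ℝ) / 2 = -α by rw [hα]; ring] at e1
    refine e1.trans ?_
    have e3 : 0 ≤ (Λ : ℝ) ^ 4 / r ^ 6 := by positivity
    calc C1 * ((1 + 1) * (1 + s) * (Λ : ℝ) ^ 4 / r ^ 6) =
        (2 * (1 + s)) * (C1 * ((Λ : ℝ) ^ 4 / r ^ 6)) := by ring
      _ ≤ 4 * (C1 * ((Λ : ℝ) ^ 4 / r ^ 6)) :=
        mul_le_mul_of_nonneg_right (by linarith) (by positivity)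
      _ = _ := by ring
  have hmom : ∀ (x : Fin d → ℤ) (p : List (Fin d × Bool)), p.length ≤ Λ → dest x p = x →
      ∀ k : ℕ, ∫ V, X x p V ^ (k + 1) ∂ν ≤
      (8 * d ^ 2 * (Λ : ℝ) ^ 4) ^ (k + 1) * ((k + 1).factorial * D) := by
    intro x p hp hcl k
    rw [hX, hD]
    exact wz_mom μ hd1 hβ0 hφ hp hcl k
  have hK : ∀ (x : Fin d → ℤ) (p : List (Fin d × Bool)), p.length ≤ Λ →
      0 ≤ kij x p x p ∧ kij x p x p ≤ C2 * (Λ : ℝ) ^ 2 := by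
    intro x p hp
    refine ⟨(kij_cs hd x p x p).1, ?_⟩
    exact (le_abs_self _).trans (h2 Λ x p x p hp hp)
  have hmean : ∀ (x : Fin d → ℤ) (p : List (Fin d × Bool)), p.length ≤ Λ → dest x p = x →
      |∫ V, X x p V ∂ν - α * kij x p x p| ≤ c1 * ((Λ : ℝ) ^ 8 / r ^ 3) := by
    intro x p hp hcl
    obtain ⟨s, hs⟩ : ∃ s : ℝ, s = 1 / r ^ 3 := ⟨_, rfl⟩
    have hs0 : 0 < s := by rw [hs]; positivity
    have hs1 : s ≤ 1 := by
      rw [hs, div_le_one (by positivity)]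
      exact one_le_pow₀ hr
    have e1 := hone x p hp hcl s hs0.le hs1
    have e2 := mean_lap ν (hX0 x p) (cint (hXc x p)) (cint ((hXc x p).pow 2)) s hs0.le
      (cint (Real.continuous_exp.comp (continuous_const.mul (hXc x p)).neg))
    have e3 := gs_one hα0 (hK x p hp).1 hs0.le
    have e4 := hmom x p hp hcl 1
    obtain ⟨E, hE⟩ : ∃ E, E = ∫ V, X x p V ∂ν := ⟨_, rfl⟩
    obtain ⟨E2, hE2⟩ : ∃ E2, E2 = ∫ V, X x p V ^ 2 ∂ν := ⟨_, rfl⟩
    obtain ⟨F, hF⟩ : ∃ F, F = ∫ V, Real.exp (-(s * X x p V)) ∂ν := ⟨_, rfl⟩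
    obtain ⟨k, hk⟩ : ∃ k, k = kij x p x p := ⟨_, rfl⟩
    obtain ⟨H, hH⟩ : ∃ H, H = (1 + s * k) ^ (-α) := ⟨_, rfl⟩
    have hk2 := hK x p hp
    rw [← hk] at e1 e3 hk2 ⊢
    rw [← hF] at e1 e2
    rw [← hE] at e2 ⊢
    rw [← hE2] at e2
    rw [← hH] at e1 e3
    have e5 : E2 ≤ (8 * d ^ 2) ^ 2 * (2 * D) * (Λ : ℝ) ^ 8 := by
      rw [hE2]
      refine e4.trans (le_of_eq ?_)
      simp [Nat.factorial]
      ring
    have e6 : k ^ 2 ≤ C2 ^ 2 * (Λ : ℝ) ^ 8 := by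
      have g1 : k ^ 2 ≤ (C2 * (Λ : ℝ) ^ 2) ^ 2 := pow_le_pow_left₀ hk2.1 hk2.2 2
      have g2 : (Λ : ℝ) ^ 4 ≤ (Λ : ℝ) ^ 8 := pow_le_pow_right₀ hΛ1 (by norm_num)
      calc k ^ 2 ≤ _ := g1
        _ = C2 ^ 2 * (Λ : ℝ) ^ 4 := by ring
        _ ≤ _ := mul_le_mul_of_nonneg_left g2 (by positivity)
    have e7 : (Λ : ℝ) ^ 4 / r ^ 6 ≤ s ^ 2 * (Λ : ℝ) ^ 8 := by
      have g2 : (Λ : ℝ) ^ 4 ≤ (Λ : ℝ) ^ 8 := pow_le_pow_right₀ hΛ1 (by norm_num)
      have g3 : s ^ 2 = 1 / r ^ 6 := by rw [hs, div_pow, one_pow, ← pow_mul]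
      rw [g3]
      calc (Λ : ℝ) ^ 4 / r ^ 6 ≤ (Λ : ℝ) ^ 8 / r ^ 6 :=
            div_le_div_of_nonneg_right g2 (by positivity)
        _ = _ := by ring
    have e8 : |s * (E - α * k)| ≤ c1 * (s ^ 2 * (Λ : ℝ) ^ 8) := by
      have g1 : s * (E - α * k) = -((1 - F) - s * E) + (1 - H - s * (α * k)) - (F - H) := by ring
      rw [g1]
      refine (abs_sub _ _).trans ?_
      refine (add_le_add (abs_add_le _ _) le_rfl).trans ?_
      rw [abs_neg]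
      have g2 : s ^ 2 / 2 * E2 ≤ s ^ 2 / 2 * ((8 * d ^ 2) ^ 2 * (2 * D) * (Λ : ℝ) ^ 8) :=
        mul_le_mul_of_nonneg_left e5 (by positivity)
      have g3 : α * (α + 1) / 2 * k ^ 2 * s ^ 2 ≤
          α * (α + 1) / 2 * (C2 ^ 2 * (Λ : ℝ) ^ 8) * s ^ 2 := by gcongr
      have g4 := mul_le_mul_of_nonneg_left e7 (show 0 ≤ 4 * C1 by positivity)
      calc _ ≤ s ^ 2 / 2 * ((8 * d ^ 2) ^ 2 * (2 * D) * (Λ : ℝ) ^ 8) +
          α * (α + 1) / 2 * (C2 ^ 2 * (Λ : ℝ) ^ 8) * s ^ 2 + 4 * C1 * (s ^ 2 * (Λ : ℝ) ^ 8) :=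
            add_le_add (add_le_add (e2.trans g2) (e3.trans g3)) (e1.trans g4)
        _ = _ := by rw [hc1]; ring
    rw [abs_mul, abs_of_pos hs0] at e8
    have e9 : |E - α * k| ≤ c1 * (s * (Λ : ℝ) ^ 8) := by
      have : s * |E - α * k| ≤ s * (c1 * (s * (Λ : ℝ) ^ 8)) := e8.trans (le_of_eq (by ring))
      exact le_of_mul_le_mul_left this hs0
    refine e9.trans (le_of_eq ?_)
    rw [hs]; ring
  have hfinal : ∀ {A B c : ℝ}, A ≤ c * B → 0 ≤ B → c ≤ C1 + c1 + c2 + c3 →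
      A ≤ (C1 + c1 + c2 + c3) * B := fun {A B c} h1 h2 h3 =>
    h1.trans (mul_le_mul_of_nonneg_right h3 h2)
  refine ⟨fun ι _ _ o x p hx hlen hcl s hs => ?_, fun x p hp hcl => ?_,
    fun x p y q hxy hp hq hclp hclq => ?_⟩
  · refine hfinal (hA ι o x p hx hlen hcl s hs) ?_ (by linarith)
    have := Finset.sum_nonneg fun i (_ : i ∈ (Finset.univ : Finset ι)) => hs i
    positivity
  · have e1 := hmean x p hp hcl
    rw [hX, hα] at e1
    exact hfinal e1 (by positivity) (by linarith)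
  · -- the covariance
    obtain ⟨s, hs⟩ : ∃ s : ℝ, s = 1 / r ^ 2 := ⟨_, rfl⟩
    have hs0 : 0 < s := by rw [hs]; positivity
    have hs1 : s ≤ 1 := by
      rw [hs, div_le_one (by positivity)]
      exact one_le_pow₀ hr
    have a1 := hone x p hp hclp s hs0.le hs1
    have a2 := hone y q hq hclq s hs0.le hs1
    have a3 := hA (Fin 2) x ![x, y] ![p, q] (fun i k => by
      fin_cases i
      · simp
      · exact hxy k) (fun i => by fin_cases i <;> assumption)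
      (fun i => by fin_cases i <;> assumption) (fun _ => s) (fun _ => hs0.le)
    rw [Matrix.det_fin_two] at a3
    simp only [Matrix.add_apply, Matrix.one_apply_eq, Matrix.of_apply, Fin.sum_univ_two,
      Matrix.cons_val_zero, Matrix.cons_val_one, Fintype.card_fin] at a3
    rw [Matrix.one_apply_ne (by decide : (0 : Fin 2) ≠ 1),
      Matrix.one_apply_ne (by decide : (1 : Fin 2) ≠ 0), kij_symm y q x p] at a3
    have k1 := hK x p hp
    have k2 := hK y q hq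
    have k3 := (kij_cs hd x p y q).2
    obtain ⟨a, ha⟩ : ∃ a, a = kij x p x p := ⟨_, rfl⟩
    obtain ⟨b, hb⟩ : ∃ b, b = kij y q y q := ⟨_, rfl⟩
    obtain ⟨k, hk⟩ : ∃ k, k = kij x p y q := ⟨_, rfl⟩
    rw [← ha] at a1 a3 k1 k3
    rw [← hb] at a2 a3 k2 k3
    rw [← hk] at a3 k3 ⊢
    have e1 : (1 + s * a) * (1 + s * b) - (0 + s * k) * (0 + s * k) =
        1 + (s * (a + b) + s ^ 2 * (a * b - k ^ 2)) := by ring
    rw [e1, show -(n : ℝ) / 2 = -α by rw [hα]; ring] at a3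
    have e2 : ∀ V : Ez d → G, -(β * (s * wz L x p V + s * wz L y q V)) =
        -(s * X x p V + s * X y q V) := fun V => by rw [hX]; ring
    simp only [e2] at a3
    have hΛ2 : (1 : ℝ) ≤ (Λ : ℝ) ^ 2 := one_le_pow₀ hΛ1
    have b1 := mixed_lap ν (hX0 x p) (hX0 y q) (cint ((hXc x p).mul (hXc y q)))
      (cint ((hXc x p).pow 3)) (cint ((hXc y q).pow 3)) s hs0.le
      (cint (Real.continuous_exp.comp (continuous_const.mul (hXc x p)).neg))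
      (cint (Real.continuous_exp.comp (continuous_const.mul (hXc y q)).neg))
      (cint (Real.continuous_exp.comp ((continuous_const.mul (hXc x p)).add
        (continuous_const.mul (hXc y q))).neg))
    have b2 := gs_two (D := C2 * (Λ : ℝ) ^ 2) hα0 k1.1 k2.1 k3 (by nlinarith) k1.2 k2.2
      hs0.le hs1
    have m1 := hmom x p hp hclp 2
    have m2 := hmom y q hq hclq 2
    have m3 := hmom y q hq hclq 0
    have n1 := hmean x p hp hclp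
    have n2 := hmean y q hq hclq
    rw [← ha] at n1
    rw [← hb] at n2
    have hXX : ∀ V : Ez d → G, (β * wz L x p V) * (β * wz L y q V) = X x p V * X y q V :=
      fun V => by rw [hX]
    have hXX1 : ∀ V : Ez d → G, β * wz L x p V = X x p V := fun V => by rw [hX]
    have hXX2 : ∀ V : Ez d → G, β * wz L y q V = X y q V := fun V => by rw [hX]
    simp only [hXX, hXX1, hXX2]
    rw [← hα]
    obtain ⟨F1, hF1⟩ : ∃ F1, F1 = ∫ V, Real.exp (-(s * X x p V)) ∂ν := ⟨_, rfl⟩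
    obtain ⟨F2, hF2⟩ : ∃ F2, F2 = ∫ V, Real.exp (-(s * X y q V)) ∂ν := ⟨_, rfl⟩
    obtain ⟨F3, hF3⟩ : ∃ F3, F3 = ∫ V, Real.exp (-(s * X x p V + s * X y q V)) ∂ν := ⟨_, rfl⟩
    obtain ⟨E1, hE1⟩ : ∃ E1, E1 = ∫ V, X x p V ∂ν := ⟨_, rfl⟩
    obtain ⟨E2, hE2⟩ : ∃ E2, E2 = ∫ V, X y q V ∂ν := ⟨_, rfl⟩
    obtain ⟨M, hM⟩ : ∃ M, M = ∫ V, X x p V * X y q V ∂ν := ⟨_, rfl⟩
    obtain ⟨T1, hT1⟩ : ∃ T1, T1 = ∫ V, X x p V ^ 3 ∂ν := ⟨_, rfl⟩
    obtain ⟨T2, hT2⟩ : ∃ T2, T2 = ∫ V, X y q V ^ 3 ∂ν := ⟨_, rfl⟩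
    have hE20 : 0 ≤ E2 := by rw [hE2]; exact integral_nonneg fun V => hX0 _ _ _
    have m1' : T1 ≤ (8 * d ^ 2) ^ 3 * (6 * D) * (Λ : ℝ) ^ 12 := by
      rw [hT1]
      refine m1.trans (le_of_eq ?_)
      simp [Nat.factorial]
      ring
    have m2' : T2 ≤ (8 * d ^ 2) ^ 3 * (6 * D) * (Λ : ℝ) ^ 12 := by
      rw [hT2]
      refine m2.trans (le_of_eq ?_)
      simp [Nat.factorial]
      ring
    have m3' : E2 ≤ 8 * d ^ 2 * D * (Λ : ℝ) ^ 4 := by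
      have : E2 = ∫ V, X y q V ^ (0 + 1) ∂ν := by rw [hE2]; simp only [zero_add, pow_one]
      rw [this]
      refine m3.trans (le_of_eq ?_)
      simp [Nat.factorial]
      ring
    rw [← hF1] at a1 b1
    rw [← hF2] at a2 b1
    rw [← hF3] at a3 b1
    rw [← hM] at b1 ⊢
    rw [← hT1, ← hT2] at b1
    rw [← hE1] at n1 ⊢
    rw [← hE2] at n2 ⊢
    obtain ⟨H1, hH1⟩ : ∃ H1, H1 = (1 + s * a) ^ (-α) := ⟨_, rfl⟩
    obtain ⟨H2, hH2⟩ : ∃ H2, H2 = (1 + s * b) ^ (-α) := ⟨_, rfl⟩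
    obtain ⟨H3, hH3⟩ : ∃ H3, H3 = (1 + (s * (a + b) + s ^ 2 * (a * b - k ^ 2))) ^ (-α) := ⟨_, rfl⟩
    rw [← hH1] at a1 b2
    rw [← hH2] at a2 b2
    rw [← hH3] at a3 b2
    have a3' : |F3 - H3| ≤ 9 * C1 * ((Λ : ℝ) ^ 4 / r ^ 6) := by
      refine a3.trans ?_
      have e3 : 0 ≤ C1 * ((Λ : ℝ) ^ 4 / r ^ 6) := by positivity
      push_cast
      calc C1 * ((1 + 2) * (1 + (s + s)) * (Λ : ℝ) ^ 4 / r ^ 6) =
          (3 * (1 + (s + s))) * (C1 * ((Λ : ℝ) ^ 4 / r ^ 6)) := by ring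
        _ ≤ 9 * (C1 * ((Λ : ℝ) ^ 4 / r ^ 6)) :=
          mul_le_mul_of_nonneg_right (by linarith) e3
        _ = _ := by ring
    have e7 : (Λ : ℝ) ^ 4 / r ^ 6 ≤ s ^ 3 * (Λ : ℝ) ^ 12 := by
      have g2 : (Λ : ℝ) ^ 4 ≤ (Λ : ℝ) ^ 12 := pow_le_pow_right₀ hΛ1 (by norm_num)
      have g3 : s ^ 3 = 1 / r ^ 6 := by rw [hs, div_pow, one_pow, ← pow_mul]
      rw [g3]
      calc (Λ : ℝ) ^ 4 / r ^ 6 ≤ (Λ : ℝ) ^ 12 / r ^ 6 :=
            div_le_div_of_nonneg_right g2 (by positivity)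
        _ = _ := by ring
    have e8 : |s ^ 2 * (M - (α ^ 2 * (a * b) + α * k ^ 2))| ≤ c2 * (s ^ 3 * (Λ : ℝ) ^ 12) := by
      have g1 : s ^ 2 * (M - (α ^ 2 * (a * b) + α * k ^ 2)) =
          -((1 - F1 - F2 + F3) - s ^ 2 * M) + (1 - H1 - H2 + H3 - s ^ 2 *
            (α ^ 2 * (a * b) + α * k ^ 2)) + (-(F1 - H1) + -(F2 - H2) + (F3 - H3)) := by ring
      rw [g1]
      have g2 : s ^ 3 / 2 * (T1 + T2) ≤ s ^ 3 / 2 *
          ((8 * d ^ 2) ^ 3 * (6 * D) * (Λ : ℝ) ^ 12 + (8 * d ^ 2) ^ 3 * (6 * D) * (Λ : ℝ) ^ 12) :=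
        mul_le_mul_of_nonneg_left (add_le_add m1' m2') (by positivity)
      have g3 := mul_le_mul_of_nonneg_left e7 (show 0 ≤ 20 * C1 by positivity)
      have g4 : 0 ≤ C1 * ((Λ : ℝ) ^ 4 / r ^ 6) := by positivity
      have g5 : |-(F1 - H1) + -(F2 - H2) + (F3 - H3)| ≤ 20 * C1 * (s ^ 3 * (Λ : ℝ) ^ 12) := by
        refine (abs_add_le _ _).trans ?_
        refine (add_le_add (abs_add_le _ _) le_rfl).trans ?_
        rw [abs_neg, abs_neg]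
        linarith
      refine (abs_add_le _ _).trans ?_
      refine (add_le_add (abs_add_le _ _) le_rfl).trans ?_
      rw [abs_neg]
      calc _ ≤ s ^ 3 / 2 *
          ((8 * d ^ 2) ^ 3 * (6 * D) * (Λ : ℝ) ^ 12 + (8 * d ^ 2) ^ 3 * (6 * D) * (Λ : ℝ) ^ 12) +
          8 * (α * (α + 1) * (α + 2)) * (C2 * (Λ : ℝ) ^ 2) ^ 6 * s ^ 3 +
          20 * C1 * (s ^ 3 * (Λ : ℝ) ^ 12) :=
            add_le_add (add_le_add (b1.trans g2) b2) g5
        _ = _ := by rw [hc2]; ring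
    have hs2 : 0 < s ^ 2 := by positivity
    rw [abs_mul, abs_of_pos hs2] at e8
    have e9 : |M - (α ^ 2 * (a * b) + α * k ^ 2)| ≤ c2 * ((Λ : ℝ) ^ 12 / r ^ 2) := by
      have : s ^ 2 * |M - (α ^ 2 * (a * b) + α * k ^ 2)| ≤ s ^ 2 * (c2 * (s * (Λ : ℝ) ^ 12)) :=
        e8.trans (le_of_eq (by ring))
      refine (le_of_mul_le_mul_left this hs2).trans (le_of_eq ?_)
      rw [hs]; ring
    have e10 : |E1 * E2 - α * a * (α * b)| ≤ c3 * ((Λ : ℝ) ^ 12 / r ^ 2) := by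
      have g1 : E1 * E2 - α * a * (α * b) = (E1 - α * a) * E2 + α * a * (E2 - α * b) := by ring
      have g0 : 0 ≤ α * a := mul_nonneg hα0 k1.1
      have g2 : |(E1 - α * a) * E2| ≤ c1 * ((Λ : ℝ) ^ 8 / r ^ 3) * (8 * d ^ 2 * D * (Λ : ℝ) ^ 4) := by
        rw [abs_mul, abs_of_nonneg hE20]
        exact mul_le_mul n1 m3' hE20 (by positivity)
      have g3 : |α * a * (E2 - α * b)| ≤ α * (C2 * (Λ : ℝ) ^ 4) * (c1 * ((Λ : ℝ) ^ 8 / r ^ 3)) := by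
        rw [abs_mul, abs_of_nonneg g0]
        have f1 : a ≤ C2 * (Λ : ℝ) ^ 4 := by
          refine k1.2.trans (mul_le_mul_of_nonneg_left ?_ hC20.le)
          exact pow_le_pow_right₀ hΛ1 (by norm_num)
        exact mul_le_mul (mul_le_mul_of_nonneg_left f1 hα0) n2 (abs_nonneg _) (by positivity)
      have g4 : (Λ : ℝ) ^ 12 / r ^ 3 ≤ (Λ : ℝ) ^ 12 / r ^ 2 :=
        div_le_div_of_nonneg_left (by positivity) (by positivity)
          (pow_le_pow_right₀ hr (by norm_num))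
      rw [g1]
      refine (abs_add_le _ _).trans ((add_le_add g2 g3).trans ?_)
      calc _ = c3 * ((Λ : ℝ) ^ 12 / r ^ 3) := by rw [hc3]; ring
        _ ≤ _ := mul_le_mul_of_nonneg_left g4 hc30
    have e11 : |(M - E1 * E2) - α * k ^ 2| ≤ (c2 + c3) * ((Λ : ℝ) ^ 12 / r ^ 2) := by
      have g1 : (M - E1 * E2) - α * k ^ 2 = (M - (α ^ 2 * (a * b) + α * k ^ 2)) +
          -(E1 * E2 - α * a * (α * b)) := by ring
      rw [g1]
      refine (abs_add_le _ _).trans ?_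
      rw [abs_neg]
      linarith
    exact hfinal e11 (by positivity) (by linarith)

end

end Pool.Agent.Run7.h630.L
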